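import Pool.Agent.Lib.MP_28303a_al.NT5.Cor2
import Pool.Agent.Lib.MP_28303a_al.NT.H70.Stab3

/-! # Groups with a homomorphism to `GL₂(A) × GL₂(K)` with torsionfree image -/

set_option autoImplicit false
set_option linter.unusedSectionVars false
set_option linter.unusedVariables false

namespace Pool.Agent.NegK.NT5

universe u

open Matrix WithZero
open Pool.Agent.NegK.TW
open Pool.Agent.NegK.TT
open Pool.Agent.NegK.NT
open NT92 (TreesRC)
open H70 (Rig)

/-- Let `A` be a commutative ring of positive characteristic, `K` a field of characteristic `0` in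
which `ℚ` is algebraically closed and such that the conics over `ℚ` with a point over `K` have a
point over `ℚ`. Let `(φ, ψ) : Γ → GL₂(A) × GL₂(K)` be a homomorphism with torsionfree image. If
all groups which embed into the kernel of `(φ, ψ)` are in `𝒩` and in `𝒞` then `Γ` is in `𝒞`. -/
theorem gl2_gen3 {𝒞 : (G : Type u) → [Group G] → Prop} (hU : H66.ClosedLoc 𝒞) (hT : TreesRC 𝒞)
    (A : Type u) [CommRing A] (N : ℕ) (hN : 0 < N) (hA : (N : A) = 0)
    (K : Type u) [Field K] (hK : Rig K)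
    (Γ : Type u) [Group Γ] (φ : Γ →* GL (Fin 2) A) (ψ : Γ →* GL (Fin 2) K)
    (htf : ∀ (g : Γ) (n : ℕ), 0 < n → φ g ^ n = 1 → ψ g ^ n = 1 → φ g = 1 ∧ ψ g = 1)
    (hker : Kr 𝒞 Γ fun g => φ g = 1 ∧ ψ g = 1) : 𝒞 Γ := by
  have := hK.char
  exact gl2_gen' hU hT A N hN hA K hK.int
    (fun H _ hH φ hφ ht hd => H70.stab3 hH hK φ hφ ht hd) Γ φ ψ htf hker

/-- The kernel is in `𝒩`. -/
theorem gl2_ker3 (hU : H66.ClosedLoc.{u} fun G _ => H19.InL G)
    (hT : ∀ (Γ : Type u) [Group Γ] (Y : Trees Γ), (∀ v, InRC (Y.st v)) → H19.InL Γ)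
    (A : Type u) [CommRing A] (N : ℕ) (hN : 0 < N) (hA : (N : A) = 0)
    (K : Type u) [Field K] (hK : Rig K)
    (Γ : Type u) [Group Γ] (φ : Γ →* GL (Fin 2) A) (ψ : Γ →* GL (Fin 2) K)
    (htf : ∀ (g : Γ) (n : ℕ), 0 < n → φ g ^ n = 1 → ψ g ^ n = 1 → φ g = 1 ∧ ψ g = 1)
    (hker : InN (φ.ker ⊓ ψ.ker : Subgroup Γ)) : H19.InL Γ := by
  refine gl2_gen3 hU (fun Γ _ Y h _ => hT Γ Y h) A N hN hA K hK Γ φ ψ htf fun H _ f hf h => ?_
  have h1 : InN H := TT.H66.inN_of_injective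
    (f.codRestrict (φ.ker ⊓ ψ.ker) fun x => ⟨(h x).1, (h x).2⟩)
    (fun a b hab => hf (congrArg Subtype.val hab)) hker
  exact ⟨h1, ((main.{u}).2.2.2.1 H).2.1 (inRC_of_inN h1)⟩

/-- The kernel is trivial. -/
theorem gl2_inj3 {𝒞 : (G : Type u) → [Group G] → Prop} (hU : H66.ClosedLoc 𝒞) (hT : TreesRC 𝒞)
    (h1 : ∀ (G : Type u) [Group G], (∀ g : G, g = 1) → 𝒞 G)
    (A : Type u) [CommRing A] (N : ℕ) (hN : 0 < N) (hA : (N : A) = 0)
    (K : Type u) [Field K] (hK : Rig K)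
    (Γ : Type u) [Group Γ] (htf : TorsionFree Γ) (χ : Γ →* GL (Fin 2) A × GL (Fin 2) K)
    (hχ : Function.Injective χ) : 𝒞 Γ := by
  have hχ1 : ∀ g, (χ g).1 = 1 → (χ g).2 = 1 → g = 1 := fun g h h' =>
    hχ ((Prod.ext h h').trans (map_one χ).symm)
  refine gl2_gen3 hU hT A N hN hA K hK Γ ((MonoidHom.fst _ _).comp χ) ((MonoidHom.snd _ _).comp χ)
    (fun g n hn h h' => ?_) fun H _ f hf h => ?_
  · rw [← map_pow] at h h'
    have h2 := htf g n hn (hχ1 _ h h')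
    rw [h2, map_one, map_one]
    exact ⟨rfl, rfl⟩
  · have h2 : ∀ x : H, x = 1 := fun x => hf (by
      rw [map_one]
      exact hχ1 _ (h x).1 (h x).2)
    exact ⟨inN_of_subsingleton H h2, h1 H h2⟩

end Pool.Agent.NegK.NT5
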