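import Pool.Agent.Lib.MP_28303a_al.NT5.Cor
import Pool.Agent.Lib.MP_28303a_al.NT.H70.Valg

/-! # Groups with a homomorphism to `GL₂(A) × GL₂(K)` with torsionfree image: general fields `K` of
characteristic `0` -/

set_option autoImplicit false
set_option linter.unusedSectionVars false
set_option linter.unusedVariables false

namespace Pool.Agent.NegK.NT5

universe u

open Matrix WithZero
open Pool.Agent.NegK.TW
open Pool.Agent.NegK.TT
open Pool.Agent.NegK.NT
open NT92 (TreesRC)

theorem map_inj {L K : Type u} [Field L] [Field K] (ι : L →+* K) :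
    Function.Injective (GeneralLinearGroup.map (n := Fin 2) ι) := by
  intro g g' h
  refine Units.ext (Matrix.ext fun i j => ι.injective ?_)
  exact congrArg (fun x : GL (Fin 2) K => x.1 i j) h

/-- Change of the field. -/
theorem stab_map {L K : Type u} [Field L] [Field K] (ι : L →+* K)
    (hstab : ∀ (H : Type u) [Group H] (_ : TorsionFree H) (φ : H →* GL (Fin 2) K)
      (_ : Function.Injective φ)
      (_ : ∀ h, ∃ z : ℤ, Matrix.trace (φ h).1 = (z : K))
      (_ : ∀ h, Matrix.det (φ h).1 = 1 ∨ Matrix.det (φ h).1 = -1),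
      (∀ x y : H, x * y = y * x) ∨ ∃ ψ : H →* GL (Fin 2) ℤ, Function.Injective ψ)
    (H : Type u) [Group H] (htf : TorsionFree H) (φ : H →* GL (Fin 2) L)
    (hφ : Function.Injective φ)
    (ht : ∀ h, ∃ z : ℤ, Matrix.trace (φ h).1 = (z : L))
    (hd : ∀ h, Matrix.det (φ h).1 = 1 ∨ Matrix.det (φ h).1 = -1) :
    (∀ x y : H, x * y = y * x) ∨ ∃ ψ : H →* GL (Fin 2) ℤ, Function.Injective ψ := by
  have e : ∀ h i j, (GeneralLinearGroup.map (n := Fin 2) ι (φ h)).1 i j = ι ((φ h).1 i j) :=
    fun h i j => rfl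
  refine hstab H htf ((GeneralLinearGroup.map ι).comp φ) ((map_inj ι).comp hφ) (fun h => ?_)
    fun h => ?_
  · obtain ⟨z, hz⟩ := ht h
    refine ⟨z, ?_⟩
    rw [Matrix.trace_fin_two] at hz ⊢
    rw [MonoidHom.comp_apply, e, e, ← map_add, hz, map_intCast]
  · have h1 : Matrix.det ((GeneralLinearGroup.map ι).comp φ h).1 =
        ι (Matrix.det (φ h).1) := by
      rw [Matrix.det_fin_two, Matrix.det_fin_two, MonoidHom.comp_apply, e, e, e, e, map_sub,
        map_mul, map_mul]
    rw [h1]
    rcases hd h with h2 | h2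
    · exact Or.inl (by rw [h2, map_one])
    · exact Or.inr (by rw [h2, map_neg, map_one])

/-- Let `A` be a commutative ring of positive characteristic, `K` a field of characteristic `0` in
which `ℚ` is algebraically closed and such that torsionfree groups of matrices over `K` with
integral traces and determinants `1`, `-1` are commutative or embed into `GL₂(ℤ)`. Let
`(φ, ψ) : Γ → GL₂(A) × GL₂(K)` be a homomorphism with torsionfree image. If all groups which
embed into the kernel of `(φ, ψ)` are in `𝒩` and in `𝒞` then `Γ` is in `𝒞`. -/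
theorem gl2_gen' {𝒞 : (G : Type u) → [Group G] → Prop} (hU : H66.ClosedLoc 𝒞) (hT : TreesRC 𝒞)
    (A : Type u) [CommRing A] (N : ℕ) (hN : 0 < N) (hA : (N : A) = 0)
    (K : Type u) [Field K] [CharZero K] (hi : ∀ x : K, IsIntegral ℤ x → ∃ z : ℤ, x = (z : K))
    (hstab : ∀ (H : Type u) [Group H] (_ : TorsionFree H) (φ : H →* GL (Fin 2) K)
      (_ : Function.Injective φ)
      (_ : ∀ h, ∃ z : ℤ, Matrix.trace (φ h).1 = (z : K))
      (_ : ∀ h, Matrix.det (φ h).1 = 1 ∨ Matrix.det (φ h).1 = -1),
      (∀ x y : H, x * y = y * x) ∨ ∃ ψ : H →* GL (Fin 2) ℤ, Function.Injective ψ)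
    (Γ : Type u) [Group Γ] (φ : Γ →* GL (Fin 2) A) (ψ : Γ →* GL (Fin 2) K)
    (htf : ∀ (g : Γ) (n : ℕ), 0 < n → φ g ^ n = 1 → ψ g ^ n = 1 → φ g = 1 ∧ ψ g = 1)
    (hker : Kr 𝒞 Γ fun g => φ g = 1 ∧ ψ g = 1) : 𝒞 Γ := by
  classical
  refine hU Γ fun S => ⟨Subgroup.closure (S : Set Γ), fun s hs => Subgroup.subset_closure hs, ?_⟩
  obtain ⟨E, hE⟩ := entries ψ S
  let B : Subring K := Subring.closure (E : Set K)
  let L := FractionRing B
  have hBL : Function.Injective (algebraMap B L) := IsFractionRing.injective B L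
  have hcz : CharZero B := by
    refine charZero_of_injective_ringHom (f := (Int.castRingHom B)) fun a b hab => ?_
    have h1 := congrArg Subtype.val hab
    have h2 : ((a : ℤ) : K) = b := by
      simpa using h1
    exact_mod_cast h2
  have hczL : CharZero L := charZero_of_injective_algebraMap hBL
  let ι : L →+* K := IsFractionRing.lift (g := B.subtype) Subtype.val_injective
  have hι : ∀ b : B, ι (algebraMap B L b) = (b : K) := fun b =>
    IsFractionRing.lift_algebraMap (g := B.subtype) Subtype.val_injective b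
  -- the matrices over `L`
  let χ : Subgroup.closure (S : Set Γ) →* Matrix (Fin 2) (Fin 2) B :=
    { toFun := fun g => Matrix.of fun i j => ⟨(ψ g.1).1 i j, hE g.1 g.2 i j⟩
      map_one' := by
        ext i j
        change (ψ 1).1 i j = (((1 : Matrix (Fin 2) (Fin 2) B) i j : B) : K)
        rw [map_one, Units.val_one, Matrix.one_apply, Matrix.one_apply]
        split_ifs <;> rfl
      map_mul' := fun g h => by
        ext i j
        rw [Matrix.mul_apply]
        change (ψ (g.1 * h.1)).1 i j = ((∑ k, _ : B) : K)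
        rw [map_mul, Units.val_mul, Matrix.mul_apply, AddSubmonoidClass.coe_finsetSum]
        rfl }
  let ψ0 : Subgroup.closure (S : Set Γ) →* GL (Fin 2) L :=
    (GeneralLinearGroup.map (algebraMap B L)).comp χ.toHomUnits
  have h0 : ∀ g i j, (ψ0 g).1 i j = algebraMap B L ⟨(ψ g.1).1 i j, hE g.1 g.2 i j⟩ :=
    fun g i j => rfl
  have h1 : ∀ g, GeneralLinearGroup.map ι (ψ0 g) = ψ g.1 := by
    intro g
    refine Units.ext (Matrix.ext fun i j => ?_)
    show ι ((ψ0 g).1 i j) = _
    rw [h0, hι]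
  have h2 : ∀ g, ψ0 g = 1 ↔ ψ g.1 = 1 := by
    intro g
    rw [← h1]
    constructor
    · intro h
      rw [h, map_one]
    · intro h
      exact map_inj ι (h.trans (map_one _).symm)
  -- the generators
  let E' : Finset B := (E.finite_toSet.preimage
    (f := ((↑) : B → K)) Subtype.val_injective.injOn).toFinset
  have hE' : Subring.closure (E' : Set B) = ⊤ := by
    rw [Set.Finite.coe_toFinset, eq_top_iff]
    intro x _
    have h3 : (x : K) ∈ (Subring.closure (((↑) : B → K) ⁻¹' (E : Set K))).map B.subtype := by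
      rw [RingHom.map_closure]
      refine Subring.closure_mono ?_ x.2
      intro y hy
      exact ⟨⟨y, Subring.subset_closure hy⟩, hy, rfl⟩
    obtain ⟨y, hy, hxy⟩ := h3
    rwa [Subtype.ext (a1 := x) (a2 := y) hxy.symm]
  obtain ⟨m, v, hv⟩ := H70.valg B E' hE' L
  refine gl2_fg hU hT A N hN hA L (algebraMap B L).range ⟨m, v, ?_⟩
    (fun H _ hH φ hφ _ h3 h4 => stab_map ι hstab H hH φ hφ h3 h4) (Subgroup.closure (S : Set Γ))
    (φ.comp (Subgroup.subtype _)) ψ0 (fun g i j => ⟨_, (h0 g i j).symm⟩)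
    (fun g n hn h3 h4 => ?_) fun H _ f hf h =>
      hker H ((Subgroup.subtype _).comp f) (Subtype.val_injective.comp hf)
        fun x => ⟨(h x).1, (h2 _).1 (h x).2⟩
  · rintro _ ⟨b, rfl⟩ hb
    obtain ⟨z, hz⟩ := hi b ((hv b hb).map B.subtype.toIntAlgHom)
    refine ⟨z, ?_⟩
    have h5 : b = (z : B) := Subtype.ext (by rw [hz]; simp)
    rw [h5, map_intCast]
  · have h5 : ψ g.1 ^ n = 1 := by
      rw [← h1, ← map_pow, h4, map_one]
    have h6 := htf g.1 n hn h3 h5
    exact ⟨h6.1, (h2 g).2 h6.2⟩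

end Pool.Agent.NegK.NT5
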