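import Pool.Agent.Lib.MP_28303a_al.NT.H66.Val0

/-! # Geometric valuations of finitely generated fields of characteristic zero

Finitely many discrete valuations of the field of fractions of a finitely generated domain `A` of
characteristic `0` which are trivial on the algebraic elements, such that the elements of `A` which
are integral for all of them are algebraic. -/

set_option autoImplicit false

namespace Pool.Agent.NegK.NT5

universe u v

open IsDedekindDomain WithZero

/-- A discrete valuation of `K` has finitely many extensions to a finite separable extension `L`,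
and the elements which are integral for all of them are integral over the valuation ring. -/
theorem ext_vals' (K : Type u) (L : Type v) [Field K] [Field L] [Algebra K L]
    [FiniteDimensional K L] [Algebra.IsSeparable K L]
    (v : Valuation K (WithZero (Multiplicative ℤ))) :
    ∃ (m : ℕ) (w : Fin m → Valuation L (WithZero (Multiplicative ℤ))),
      (∀ i x, v x ≤ 1 → w i (algebraMap K L x) ≤ 1) ∧
      ∀ a : L, (∀ i, w i a ≤ 1) → IsIntegral v.valuationSubring a := by
  classical
  by_cases hv : Nontrivial (MonoidWithZeroHom.valueGroup (.ofClass v))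
  · have : IsDiscreteValuationRing v.valuationSubring := inferInstance
    let O := v.valuationSubring
    let C := integralClosure O L
    have : IsDedekindDomain C := integralClosure.isDedekindDomain O K L
    have : IsFractionRing C L := integralClosure.isFractionRing_of_finite_extension K L
    have hfin : Finite (HeightOneSpectrum C) := by
      let p : Ideal O := IsLocalRing.maximalIdeal O
      have hf : (p.primesOver C).Finite := IsDedekindDomain.primesOver_finite p C
      have : Finite (p.primesOver C) := hf
      refine Finite.of_injective (β := p.primesOver C)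
        (fun P => ⟨P.asIdeal, P.isPrime, ⟨?_⟩⟩) fun P Q h => ?_
      · have h1 : (P.asIdeal.under O).IsPrime := Ideal.IsPrime.under O P.asIdeal
        exact (IsLocalRing.eq_maximalIdeal
          (h1.isMaximal (mt Ideal.eq_bot_of_comap_eq_bot P.ne_bot))).symm
      · exact HeightOneSpectrum.ext (Subtype.ext_iff.1 h)
    obtain ⟨m, ⟨e⟩⟩ := Finite.exists_equiv_fin (HeightOneSpectrum C)
    refine ⟨m, fun i => (e.symm i).valuation L, fun i x hx => ?_, fun a ha => ?_⟩
    · have h1 : algebraMap K L x = algebraMap C L (algebraMap O C ⟨x, hx⟩) := rfl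
      rw [h1]
      exact (e.symm i).valuation_le_one _
    · obtain ⟨c, hc⟩ := HeightOneSpectrum.mem_integers_of_valuation_le_one (R := C) L a
        fun P => by
          have := ha (e P)
          simpa using this
      rw [← hc]
      exact c.2
  · refine ⟨0, fun i => i.elim0, fun i => i.elim0, fun a _ => ?_⟩
    have h1 : ∀ x : K, x ∈ v.valuationSubring := by
      intro x
      by_contra hx
      have hx0 : v x ≠ 0 := fun h => hx (by
        show v x ≤ 1
        rw [h]
        exact zero_le_one)
      refine hv ⟨⟨⟨Units.mk0 (v x) hx0, ?_⟩, 1, fun h => hx ?_⟩⟩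
      · exact MonoidWithZeroHom.mem_valueGroup _ ⟨x, rfl⟩
      · have h2 := congrArg (fun z => ((z : (WithZero (Multiplicative ℤ))ˣ) :
          WithZero (Multiplicative ℤ))) (Subtype.ext_iff.1 h)
        have h3 : v x = 1 := h2
        show v x ≤ 1
        rw [h3]
    have : Algebra.IsIntegral v.valuationSubring K :=
      Algebra.isIntegral_of_surjective fun x => ⟨⟨x, h1 x⟩, rfl⟩
    exact isIntegral_trans (R := v.valuationSubring) (A := K) a (Algebra.IsIntegral.isIntegral a)

/-- The degree valuation of the field of rational functions over `ℚ`. -/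
theorem exists_degValQ (s : ℕ) (K : Type*) [Field K]
    [Algebra (MvPolynomial (Fin s) ℚ) K] [IsFractionRing (MvPolynomial (Fin s) ℚ) K] :
    ∃ v : Valuation K (WithZero (Multiplicative ℤ)),
      (∀ c : ℚ, v (algebraMap (MvPolynomial (Fin s) ℚ) K (MvPolynomial.C c)) ≤ 1) ∧
      ∀ f : MvPolynomial (Fin s) ℚ,
      v (algebraMap _ K f) ≤ 1 → ∃ c : ℚ, f = MvPolynomial.C c := by
  obtain ⟨v, hv⟩ := NT.H66.exists_val_of_deg (P := MvPolynomial (Fin s) ℚ)
    (fun f => (f.totalDegree : ℤ))
    (by simp) (fun f g hf hg => by
      rw [MvPolynomial.totalDegree_mul_of_isDomain hf hg]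
      push_cast
      rfl) (fun f g _ _ _ => by
      have := MvPolynomial.totalDegree_add f g
      omega) K
  refine ⟨v, fun c => ?_, fun f h => ?_⟩
  · rcases eq_or_ne c 0 with rfl | hc
    · simp
    · rw [hv _ (by simpa using hc)]
      simp
  · rcases eq_or_ne f 0 with rfl | hf
    · exact ⟨0, by simp⟩
    · rw [hv f hf, ← exp_zero, exp_le_exp] at h
      exact ⟨_, MvPolynomial.totalDegree_eq_zero_iff_eq_C.1 (by omega)⟩

/-- GEO. -/
theorem exists_geo (L : Type u) [Field L] [CharZero L] (E : Set L) (hfin : E.Finite)
    (hL : ∀ x : L, ∃ a b : L, a ∈ Subring.closure E ∧ b ∈ Subring.closure E ∧ x = a / b) :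
    ∃ (N : ℕ) (w : Fin N → Valuation L (WithZero (Multiplicative ℤ))),
      (∀ i x, IsIntegral ℤ x → x ≠ 0 → w i x = 1) ∧
      ∀ a ∈ Subring.closure E, (∀ i, w i a ≤ 1) → IsAlgebraic ℤ a := by
  let A := Algebra.adjoin ℚ E
  have hA : Subring.closure E ≤ A.toSubring :=
    Subring.closure_le.2 fun x hx => Algebra.subset_adjoin hx
  have hft : Algebra.FiniteType ℚ A :=
    A.fg_iff_finiteType.1 ⟨hfin.toFinset, by rw [Set.Finite.coe_toFinset]⟩
  have hfr : IsFractionRing A L := by
    refine IsFractionRing.of_field A L fun x => ?_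
    obtain ⟨a, b, ha, hb, h⟩ := hL x
    exact ⟨⟨a, hA ha⟩, ⟨b, hA hb⟩, h⟩
  obtain ⟨s, g, hg, hfin'⟩ := exists_finite_inj_algHom_of_fg ℚ A
  let P := MvPolynomial (Fin s) ℚ
  let K := FractionRing P
  algebraize [g.toRingHom]
  let i3 : Algebra P L := ((algebraMap A L).comp (algebraMap P A)).toAlgebra
  have i4 : IsScalarTower P A L := IsScalarTower.of_algebraMap_eq fun _ => rfl
  have hPA : Function.Injective (algebraMap P A) := hg
  have i5 : FaithfulSMul P A := (faithfulSMul_iff_algebraMap_injective P A).2 hPA
  have hPL : Function.Injective (algebraMap P L) := (IsFractionRing.injective A L).comp hPA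
  have i5' : FaithfulSMul P L := (faithfulSMul_iff_algebraMap_injective P L).2 hPL
  let i6 : Algebra K L := FractionRing.liftAlgebra P L
  have i7 : IsScalarTower P K L := inferInstance
  have i8 : Module.Finite P A := hfin'
  have i9 : FiniteDimensional K L := Module.Finite.of_isLocalization P A (nonZeroDivisors P)
  have i10 : CharZero K := charZero_of_injective_algebraMap (R := P) (IsFractionRing.injective P K)
  have i13 : Algebra.IsSeparable K L := inferInstance
  have hgC : ∀ c : ℚ, algebraMap P L (MvPolynomial.C c) = algebraMap ℚ L c := by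
    intro c
    have h1 : g (MvPolynomial.C c) = algebraMap ℚ A c := g.commutes c
    show algebraMap A L (g (MvPolynomial.C c)) = _
    rw [h1]
    rfl
  obtain ⟨v, hv0, hv⟩ := exists_degValQ s K
  obtain ⟨m, w, hw0, hw⟩ := ext_vals' K L v
  have htriv : ∀ i x, IsIntegral ℚ x → w i x ≤ 1 := by
    intro i x hx
    have h1 : ∀ c : ℚ, w i (algebraMap ℚ L c) ≤ 1 := by
      intro c
      rw [← hgC, IsScalarTower.algebraMap_apply P K L]
      exact hw0 i _ (hv0 c)
    obtain ⟨f, hf, hfx⟩ := hx
    have h2 : IsIntegral (w i).valuationSubring x := by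
      let j : ℚ →+* (w i).valuationSubring := (algebraMap ℚ L).codRestrict _ h1
      refine ⟨f.map j, hf.map j, ?_⟩
      rw [Polynomial.eval₂_map]
      exact hfx
    obtain ⟨y, hy⟩ := IsIntegrallyClosed.isIntegral_iff.1 h2
    rw [← hy]
    exact y.2
  refine ⟨m, w, fun i x hx hx0 => ?_, fun a ha hwa => ?_⟩
  · have h1 : IsIntegral ℚ x := hx.tower_top
    have h2 : IsIntegral ℚ x⁻¹ := h1.inv
    refine le_antisymm (htriv i x h1) ?_
    have h3 := htriv i _ h2
    rw [map_inv₀] at h3
    have h4 : (0 : WithZero (Multiplicative ℤ)) < w i x :=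
      zero_lt_iff.2 ((Valuation.ne_zero_iff _).2 hx0)
    exact (inv_le_one₀ h4).1 h3
  · have hb1 : IsIntegral v.valuationSubring a := hw a hwa
    have hb2 : IsIntegral P a := by
      have h1 : IsIntegral P (⟨a, hA ha⟩ : A) := Algebra.IsIntegral.isIntegral _
      exact h1.algebraMap (B := L)
    have hm1 : minpoly K a = (minpoly P a).map (algebraMap P K) :=
      minpoly.isIntegrallyClosed_eq_field_fractions' K hb2
    have hm2 : minpoly K a = (minpoly v.valuationSubring a).map
        (algebraMap v.valuationSubring K) :=
      minpoly.isIntegrallyClosed_eq_field_fractions' K hb1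
    have hc : ∀ i, ∃ c : ℚ, algebraMap P K (MvPolynomial.C c) = (minpoly K a).coeff i := by
      intro i
      have h1 : v (algebraMap P K ((minpoly P a).coeff i)) ≤ 1 := by
        rw [← Polynomial.coeff_map, ← hm1, hm2, Polynomial.coeff_map]
        exact ((minpoly v.valuationSubring a).coeff i).2
      obtain ⟨c, hc⟩ := hv _ h1
      refine ⟨c, ?_⟩
      rw [hm1, Polynomial.coeff_map, hc]
    have hlift : minpoly K a ∈ Polynomial.lifts ((algebraMap P K).comp MvPolynomial.C) :=
      (Polynomial.lifts_iff_coeff_lifts _).2 hc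
    obtain ⟨q, hq⟩ := hlift
    have hq0 : q ≠ 0 := by
      rintro rfl
      rw [Polynomial.coe_mapRingHom, Polynomial.map_zero] at hq
      exact minpoly.ne_zero (IsIntegral.of_finite K a) hq.symm
    have h5 : IsAlgebraic ℚ a := by
      refine ⟨q, hq0, ?_⟩
      have h1 := minpoly.aeval K a
      rw [← hq, Polynomial.coe_mapRingHom, Polynomial.aeval_def, Polynomial.eval₂_map] at h1
      rw [Polynomial.aeval_def, ← h1]
      congr 1
      exact Subsingleton.elim _ _
    exact (IsFractionRing.isAlgebraic_iff ℤ ℚ L).2 h5

end Pool.Agent.NegK.NT5
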