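import Pool.Agent.Lib.MP_28303a_al.NT5.Edg
import Pool.Agent.Lib.MP_28303a_al.NT5.Geo
import Pool.Agent.Lib.MP_28303a_al.NT5.Cor2
import Pool.Agent.Lib.MP_28303a_al.NT.H80.Slv
import Pool.Agent.Lib.MP_28303a_al.NT.InK

/-! # Reduction of the K-theory of groups of matrices to subgroups with algebraic traces -/

set_option autoImplicit false
set_option linter.unusedSectionVars false
set_option linter.unusedVariables false

namespace Pool.Agent.NegK.NT5

universe u

open Matrix WithZero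
open Pool.Agent.NegK.TW
open Pool.Agent.NegK.TT
open Pool.Agent.NegK.NT
open H1 (TD)

/-- The theorem on the edges of products of trees: the joint stabilizers of vertices of the trees
in `I` generate. -/
def ItStatement : Prop :=
  ∀ (Γ : Type u) [Group Γ] (Y : Trees Γ) (I : Finset (Fin Y.m)),
    (∀ j ∈ I, ∀ (v : ∀ i, Y.V i) (w : Y.V j), (Y.G j).Adj (v j) w →
      InRC (Y.st v ⊓ MulAction.stabilizer Γ w : Subgroup Γ)) →
    ∀ (k : Type u) [Ring k], RegularRing k →
      ⨆ v : ∀ i, Y.V i, img k (⨅ i ∈ I, MulAction.stabilizer Γ (v i)) = ⊤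

/-- Any finite index set. -/
theorem it_fin (hI : ItStatement.{u}) (Γ : Type u) [Group Γ] (ι : Type) [Finite ι]
    (T : ι → TD Γ) (J : ι → Prop)
    (hE : ∀ i, J i → ∀ (H : Subgroup Γ) (x y : (T i).V), (T i).G.Adj x y →
      (∀ g ∈ H, g • x = x ∧ g • y = y) → (∀ g ∈ H, ∀ a, (T a).Ell g) → InRC H)
    (k : Type u) [Ring k] (hk : RegularRing k) :
    ⨆ H : {H : Subgroup Γ // ∀ i, J i → ∃ x : (T i).V, ∀ g ∈ H, g • x = x}, img k H.1 = ⊤ := by
  classical
  have := Fintype.ofFinite ι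
  let e := Fintype.equivFin ι
  let Y : Trees Γ := ⟨Fintype.card ι, fun j => (T (e.symm j)).V, fun j => (T (e.symm j)).act,
    fun j => (T (e.symm j)).G, fun j => (T (e.symm j)).tree⟩
  let I : Finset (Fin Y.m) := Finset.univ.filter fun j => J (e.symm j)
  have h1 := hI Γ Y I (fun j hj v w hw => by
    refine hE (e.symm j) (Finset.mem_filter.1 hj).2 _ (v j) w hw (fun g hg => ?_)
      fun g hg a => ?_
    · exact ⟨(Subgroup.mem_iInf.1 hg.1) j, hg.2⟩
    · have h2 : (T (e.symm (e a))).Ell g := ⟨v (e a), (Subgroup.mem_iInf.1 hg.1) (e a)⟩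
      rwa [e.symm_apply_apply] at h2) k hk
  rw [eq_top_iff, ← h1]
  refine iSup_le fun v => ?_
  refine le_trans ?_ (le_iSup (fun H : {H : Subgroup Γ // ∀ i, J i → ∃ x : (T i).V,
    ∀ g ∈ H, g • x = x} => img k H.1) ⟨⨅ i ∈ I, MulAction.stabilizer Γ (v i), fun i hi => ?_⟩)
  · exact le_rfl
  · have h2 : ∃ x : (T (e.symm (e i))).V, ∀ g ∈ (⨅ i ∈ I, MulAction.stabilizer Γ (v i) :
        Subgroup Γ), g • x = x := by
      refine ⟨v (e i), fun g hg => ?_⟩
      have h3 : e i ∈ I := Finset.mem_filter.2 ⟨Finset.mem_univ _, by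
        rwa [e.symm_apply_apply]⟩
      exact (Subgroup.mem_iInf.1 (Subgroup.mem_iInf.1 hg (e i))) h3
    rwa [e.symm_apply_apply] at h2

/-- Directed unions. -/
theorem gen_loc (G : Type u) [Group G] (P : Subgroup G → Prop) (k : Type u) [Ring k]
    (h : ∀ S : Finset G, ⨆ H : {H : Subgroup (Subgroup.closure (S : Set G)) //
      P (H.map (Subgroup.closure (S : Set G)).subtype)}, img k H.1 = ⊤) :
    ⨆ H : {H : Subgroup G // P H}, img k H.1 = ⊤ := by
  classical
  rw [eq_top_iff]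
  intro z _
  refine Pool.Agent.NegK.H50.K0_eq_top (H := ⨆ H : {H : Subgroup G // P H}, img k H.1) ?_ z
  intro p
  let S : Finset G := Finset.univ.biUnion fun a => Finset.univ.biUnion fun b =>
      (p.e a b).coeff.support
  let H := Subgroup.closure (S : Set G)
  have hF : Function.Injective H.subtype := H.subtype_injective
  have hsupp : MSupp (Set.range H.subtype) p.e := by
    rintro a b g hg
    refine ⟨⟨g, Subgroup.subset_closure ?_⟩, rfl⟩
    rw [Finset.mem_coe, Finset.mem_biUnion]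
    refine ⟨a, Finset.mem_univ _, ?_⟩
    rw [Finset.mem_biUnion]
    exact ⟨b, Finset.mem_univ _, Finsupp.mem_support_iff.2 hg⟩
  obtain ⟨β, hβ⟩ := MSupp.exists_map hF hsupp
  have hinj : Function.Injective (fun γ : Matrix _ _ (MonoidAlgebra k H) =>
      (γ.map (mdr k H.subtype) : Matrix (Fin p.n) (Fin p.n) _)) := by
    intro x y hxy
    ext1 a b
    exact mdr_injective hF (congrFun (congrFun hxy a) b)
  have hidem : β * β = β := by
    apply hinj
    show (β * β).map (mdr k H.subtype) = β.map (mdr k H.subtype)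
    rw [Matrix.map_mul, hβ, p.idem]
  have h1 : K0.map (mdr k H.subtype) (mcls β hidem) = mcls p.e p.idem := by
    rw [mcls_map]
    exact mcls_congr _ hβ
  rw [← mcls_self p, ← h1]
  have h2 : (⊤ : AddSubgroup (K0 (MonoidAlgebra k H))) ≤
      (⨆ H : {H : Subgroup G // P H}, img k H.1).comap (K0.map (mdr k H.subtype)) := by
    rw [← h S]
    refine iSup_le fun H' => ?_
    rintro _ ⟨y, rfl⟩
    show K0.map (mdr k H.subtype) (K0.map (mdr k H'.1.subtype) y) ∈
      (⨆ H : {H : Subgroup G // P H}, img k H.1)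
    refine le_iSup (fun H : {H : Subgroup G // P H} => img k H.1)
      ⟨H'.1.map H.subtype, H'.2⟩ ?_
    refine ⟨K0.map (mdr k ((H.subtype.comp H'.1.subtype).codRestrict (H'.1.map H.subtype)
      fun x => ⟨x.1, x.2, rfl⟩)) y, ?_⟩
    rw [k0_map_map, k0_map_map, mdr_comp_mdr, mdr_comp_mdr]
    rfl
  exact h2 (AddSubgroup.mem_top _)

/-- The trace squared over the determinant is algebraic. -/
def AlgTr {K : Type u} [Field K] {Γ : Type u} [Group Γ] (ψ : Γ →* GL (Fin 2) K)
    (H : Subgroup Γ) : Prop :=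
  ∀ h ∈ H, IsAlgebraic ℤ (Matrix.trace (ψ h).1 ^ 2 / Matrix.det (ψ h).1)

/-- Finitely generated groups over finitely generated fields. -/
theorem c0_fg (hI : ItStatement.{u}) (A : Type u) [CommRing A] (N : ℕ) (hN : 0 < N)
    (hA : (N : A) = 0) (L : Type u) [Field L] [CharZero L] (E : Set L) (hfin : E.Finite)
    (hL : ∀ x : L, ∃ a b : L, a ∈ Subring.closure E ∧ b ∈ Subring.closure E ∧ x = a / b)
    (m : ℕ) (v : Fin m → Valuation L (WithZero (Multiplicative ℤ)))
    (hv : ∀ a ∈ Subring.closure E, (∀ i, v i a ≤ 1) → IsIntegral ℤ a)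
    (Γ : Type u) [Group Γ] [Group.FG Γ] (φ : Γ →* GL (Fin 2) A) (ψ : Γ →* GL (Fin 2) L)
    (hB : ∀ g i j, (ψ g).1 i j ∈ Subring.closure E)
    (htf : ∀ (g : Γ) (n : ℕ), 0 < n → φ g ^ n = 1 → ψ g ^ n = 1 → φ g = 1 ∧ ψ g = 1)
    (hker : ∀ (H : Type u) [Group H] (f : H →* Γ), Function.Injective f →
      (∀ h, φ (f h) = 1 ∧ ψ (f h) = 1) → InN H)
    (k : Type u) [Ring k] (hk : RegularRing k) :
    ⨆ H : {H : Subgroup Γ // AlgTr ψ H}, img k H.1 = ⊤ := by
  obtain ⟨ι, _, T, hTA⟩ := gl2_trees' A N hN hA Γ φ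
  obtain ⟨M, w, hw, hgeo⟩ := exists_geo L E hfin hL
  choose T1 hT1 using fun a => H1.exists_TD_gl L (v a)
  choose T2 hT2 using fun a => H1.exists_TD_line _ ((vdet (v a)).comp ψ)
  choose T3 hT3 using fun a => H1.exists_TD_line _ ((vdet (w a)).comp ψ)
  choose T4 hT4 hT4' using fun a => exists_TD_glE L (w a)
  have hdet : ∀ g, Matrix.det (ψ g).1 ∈ Subring.closure E := by
    intro g
    rw [Matrix.det_fin_two]
    exact Subring.sub_mem _ (Subring.mul_mem _ (hB g 0 0) (hB g 1 1))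
      (Subring.mul_mem _ (hB g 0 1) (hB g 1 0))
  have htr : ∀ g, Matrix.trace (ψ g).1 ∈ Subring.closure E := by
    intro g
    rw [Matrix.trace_fin_two]
    exact Subring.add_mem _ (hB g 0 0) (hB g 1 1)
  have hdet' : ∀ g, Matrix.det (ψ g).1 * Matrix.det (ψ g⁻¹).1 = 1 := by
    intro g
    have h1 : (ψ g).1 * (ψ g⁻¹).1 = 1 := by
      rw [← Units.val_mul, ← map_mul, mul_inv_cancel, map_one, Units.val_one]
    rw [← Matrix.det_mul, h1, Matrix.det_one]
  have main := it_fin hI Γ (((Fin m ⊕ Fin m) ⊕ (Fin M ⊕ Fin M)) ⊕ ι)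
    (Sum.elim (Sum.elim (Sum.elim (fun a => (T1 a).comp ψ) T2)
      (Sum.elim T3 fun a => (T4 a).comp ψ)) T)
    (fun i => ∃ a, i = Sum.inl (Sum.inr (Sum.inr a))) ?_ k hk
  · rw [eq_top_iff, ← main]
    refine iSup_le fun H => ?_
    refine le_trans ?_ (le_iSup (fun H : {H : Subgroup Γ // AlgTr ψ H} => img k H.1)
      ⟨H.1, fun h hh => ?_⟩)
    · exact le_rfl
    · have h1 : Matrix.trace (ψ h).1 ^ 2 / Matrix.det (ψ h).1 =
          Matrix.trace (ψ h).1 ^ 2 * Matrix.det (ψ h⁻¹).1 := by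
        have h2 := hdet' h
        have h3 : Matrix.det (ψ h).1 ≠ 0 := left_ne_zero_of_mul_eq_one h2
        rw [div_eq_iff h3, mul_assoc, mul_comm (Matrix.det (ψ h⁻¹).1), h2, mul_one]
      refine hgeo _ ?_ fun a => ?_
      · rw [h1]
        exact Subring.mul_mem _ (Subring.pow_mem _ (htr h) 2) (hdet h⁻¹)
      · obtain ⟨x, hx⟩ := H.2 (Sum.inl (Sum.inr (Sum.inr a))) ⟨a, rfl⟩
        have h2 := hT4 a (ψ h) ⟨x, hx h hh⟩
        have h3 : Matrix.det (ψ h).1 ≠ 0 := left_ne_zero_of_mul_eq_one (hdet' h)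
        have h4 : w a (Matrix.det (ψ h).1) ≠ 0 := (Valuation.ne_zero_iff (w a)).2 h3
        rw [map_div₀, map_pow]
        exact div_le_one_of_le₀ h2 zero_le
  · rintro i ⟨a, rfl⟩ H x y hxy hfix hell
    have hdv : ∀ g ∈ H, ∀ b, v b (Matrix.det (ψ g).1) = 1 := fun g hg b =>
      vdet_eq_one (v b) (hT2 b g (hell g hg (Sum.inl (Sum.inl (Sum.inr b)))))
    have hdw : ∀ g ∈ H, ∀ b, w b (Matrix.det (ψ g).1) = 1 := fun g hg b =>
      vdet_eq_one (w b) (hT3 b g (hell g hg (Sum.inl (Sum.inr (Sum.inl b)))))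
    have htv : ∀ g ∈ H, ∀ b, v b (Matrix.trace (ψ g).1) ≤ 1 := fun g hg b =>
      hT1 b (ψ g) (hell g hg (Sum.inl (Sum.inl (Sum.inl b)))) (hdv g hg b).le
    have hfin : ∀ g ∈ H, ∃ n, 0 < n ∧ φ g ^ n = 1 := fun g hg =>
      hTA g fun i => hell g hg (Sum.inr i)
    have hti : ∀ g ∈ H, IsIntegral ℤ (Matrix.trace (ψ g).1) := fun g hg =>
      hv _ (htr g) fun b => htv g hg b
    have htf' : ∀ g ∈ H, ∀ n : ℕ, 0 < n → ψ g ^ n = 1 → φ g = 1 ∧ ψ g = 1 := by
      intro g hg n hn h1
      obtain ⟨m, hm, h2⟩ := hfin g hg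
      refine htf g (m * n) (Nat.mul_pos hm hn) ?_ ?_
      · rw [pow_mul, h2, one_pow]
      · rw [mul_comm, pow_mul, h1, one_pow]
    refine H80.inRC_slv (ψ.comp H.subtype) (fun g => hti g.1 g.2)
      (fun g => hv _ (hdet g.1) fun b => (hdv g.1 g.2 b).le) (fun c hc => ?_)
      (fun g n hn h => (htf' g.1 g.2 n hn h).2) fun G _ f hf h => ?_
    · have h1 := hT4' a x y hxy H (ψ.comp H.subtype) (fun s => ⟨(hfix s.1 s.2).1,
        (hfix s.1 s.2).2, hdw s.1 s.2 a⟩) c hc
      by_contra h2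
      have h3 := hw a _ ((hti c.1 c.2).sub (by
        exact (isIntegral_algebraMap (R := ℤ) (A := L) (x := (2 : ℤ))))) (sub_ne_zero.2 (by
          simpa using h2))
      have h4 : w a (Matrix.trace (ψ c.1).1 - 2) < 1 := h1
      have h5 : (algebraMap ℤ L) 2 = 2 := by simp
      rw [h5] at h3
      rw [h3] at h4
      exact lt_irrefl _ h4
    · refine hker G (H.subtype.comp f) (Subtype.val_injective.comp hf) fun g => ?_
      have h1 : ψ (f g).1 = 1 := h g
      exact htf' (f g).1 (f g).2 1 one_pos (by rw [pow_one]; exact h1)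

theorem isAlg_map {L K : Type*} [Field L] [Field K] (ι : L →+* K) {x : L}
    (h : IsAlgebraic ℤ x) : IsAlgebraic ℤ (ι x) := IsAlgebraic.algHom ι.toIntAlgHom h

/-- C0. Let `A` be a commutative ring of positive characteristic, `K` a field of characteristic `0`
and `(φ, ψ) : Γ → GL₂(A) × GL₂(K)` a homomorphism with torsionfree image such that all groups which
embed into its kernel are in `𝒩`. Then `K₀(k[Γ])` is generated by the images of the `K₀(k[H])`, `H`
a subgroup such that `tr(ψ h)² / det(ψ h)` is algebraic for all `h` in `H`. -/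
theorem c0 (hI : ItStatement.{u}) (A : Type u) [CommRing A] (N : ℕ) (hN : 0 < N)
    (hA : (N : A) = 0) (K : Type u) [Field K] [CharZero K]
    (Γ : Type u) [Group Γ] (φ : Γ →* GL (Fin 2) A) (ψ : Γ →* GL (Fin 2) K)
    (htf : ∀ (g : Γ) (n : ℕ), 0 < n → φ g ^ n = 1 → ψ g ^ n = 1 → φ g = 1 ∧ ψ g = 1)
    (hker : ∀ (H : Type u) [Group H] (f : H →* Γ), Function.Injective f →
      (∀ h, φ (f h) = 1 ∧ ψ (f h) = 1) → InN H)
    (k : Type u) [Ring k] (hk : RegularRing k) :
    ⨆ H : {H : Subgroup Γ // AlgTr ψ H}, img k H.1 = ⊤ := by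
  classical
  refine gen_loc Γ (AlgTr ψ) k fun S => ?_
  obtain ⟨E, hE⟩ := entries ψ S
  let B : Subring K := Subring.closure (E : Set K)
  let L := FractionRing B
  have hBL : Function.Injective (algebraMap B L) := IsFractionRing.injective B L
  have hcz : CharZero B := by
    refine charZero_of_injective_ringHom (f := (Int.castRingHom B)) fun a b hab => ?_
    have h1 := congrArg Subtype.val hab
    have h2 : ((a : ℤ) : K) = b := by
      simpa using h1
    exact_mod_cast h2
  have hczL : CharZero L := charZero_of_injective_algebraMap hBL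
  let ι : L →+* K := IsFractionRing.lift (g := B.subtype) Subtype.val_injective
  have hι : ∀ b : B, ι (algebraMap B L b) = (b : K) := fun b =>
    IsFractionRing.lift_algebraMap (g := B.subtype) Subtype.val_injective b
  -- the matrices over `L`
  let χ : Subgroup.closure (S : Set Γ) →* Matrix (Fin 2) (Fin 2) B :=
    { toFun := fun g => Matrix.of fun i j => ⟨(ψ g.1).1 i j, hE g.1 g.2 i j⟩
      map_one' := by
        ext i j
        change (ψ 1).1 i j = (((1 : Matrix (Fin 2) (Fin 2) B) i j : B) : K)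
        rw [map_one, Units.val_one, Matrix.one_apply, Matrix.one_apply]
        split_ifs <;> rfl
      map_mul' := fun g h => by
        ext i j
        rw [Matrix.mul_apply]
        change (ψ (g.1 * h.1)).1 i j = ((∑ k, _ : B) : K)
        rw [map_mul, Units.val_mul, Matrix.mul_apply, AddSubmonoidClass.coe_finsetSum]
        rfl }
  let ψ0 : Subgroup.closure (S : Set Γ) →* GL (Fin 2) L :=
    (GeneralLinearGroup.map (algebraMap B L)).comp χ.toHomUnits
  have h0 : ∀ g i j, (ψ0 g).1 i j = algebraMap B L ⟨(ψ g.1).1 i j, hE g.1 g.2 i j⟩ :=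
    fun g i j => rfl
  have h1 : ∀ g, GeneralLinearGroup.map ι (ψ0 g) = ψ g.1 := by
    intro g
    refine Units.ext (Matrix.ext fun i j => ?_)
    show ι ((ψ0 g).1 i j) = _
    rw [h0, hι]
  have h2 : ∀ g, ψ0 g = 1 ↔ ψ g.1 = 1 := by
    intro g
    rw [← h1]
    constructor
    · intro h
      rw [h, map_one]
    · intro h
      exact map_inj ι (h.trans (map_one _).symm)
  -- the generators
  let E' : Finset B := (E.finite_toSet.preimage
    (f := ((↑) : B → K)) Subtype.val_injective.injOn).toFinset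
  have hE' : Subring.closure (E' : Set B) = ⊤ := by
    rw [Set.Finite.coe_toFinset, eq_top_iff]
    intro x _
    have h3 : (x : K) ∈ (Subring.closure (((↑) : B → K) ⁻¹' (E : Set K))).map B.subtype := by
      rw [RingHom.map_closure]
      refine Subring.closure_mono ?_ x.2
      intro y hy
      exact ⟨⟨y, Subring.subset_closure hy⟩, hy, rfl⟩
    obtain ⟨y, hy, hxy⟩ := h3
    rwa [Subtype.ext (a1 := x) (a2 := y) hxy.symm]
  obtain ⟨m, v, hv⟩ := H70.valg B E' hE' L
  have hcl : Subring.closure (algebraMap B L '' (E' : Set B)) = (algebraMap B L).range := by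
    rw [← RingHom.map_closure, hE', ← RingHom.range_eq_map]
  have hcl' : ∀ b : B, algebraMap B L b ∈ Subring.closure (algebraMap B L '' (E' : Set B)) :=
    fun b => by
      rw [hcl]
      exact ⟨b, rfl⟩
  have main := c0_fg hI A N hN hA L (algebraMap B L '' (E' : Set B))
    (E'.finite_toSet.image _) (fun x => ?_) m v (fun a ha h => ?_)
    (Subgroup.closure (S : Set Γ)) (φ.comp (Subgroup.subtype _)) ψ0
    (fun g i j => by rw [h0]; exact hcl' _) (fun g n hn h3 h4 => ?_)
    (fun H _ f hf h => hker H ((Subgroup.subtype _).comp f) (Subtype.val_injective.comp hf)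
        fun x => ⟨(h x).1, (h2 _).1 (h x).2⟩) k hk
  · rw [eq_top_iff, ← main]
    refine iSup_le fun H => ?_
    refine le_trans ?_ (le_iSup (fun H : {H : Subgroup (Subgroup.closure (S : Set Γ)) //
      AlgTr ψ (H.map (Subgroup.closure (S : Set Γ)).subtype)} => img k H.1) ⟨H.1, ?_⟩)
    · exact le_rfl
    · rintro _ ⟨h, hh, rfl⟩
      have h5 := isAlg_map ι (H.2 h hh)
      have h6 : ι (Matrix.trace (ψ0 h).1 ^ 2 / Matrix.det (ψ0 h).1) =
          Matrix.trace (ψ h.1).1 ^ 2 / Matrix.det (ψ h.1).1 := by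
        rw [map_div₀, map_pow, Matrix.trace_fin_two, Matrix.trace_fin_two, Matrix.det_fin_two,
          Matrix.det_fin_two, map_sub, map_mul, map_mul, map_add, h0, h0, h0, h0, hι, hι, hι, hι]
      rw [h6] at h5
      exact h5
  · obtain ⟨a, b, hb, rfl⟩ := IsFractionRing.div_surjective (A := B) x
    exact ⟨_, _, hcl' a, hcl' b, rfl⟩
  · rw [hcl] at ha
    obtain ⟨b, rfl⟩ := ha
    exact map_isIntegral_int (algebraMap B L) (hv b h)
  · have h5 : ψ g.1 ^ n = 1 := by
      rw [← h1, ← map_pow, h4, map_one]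
    have h6 := htf g.1 n hn h3 h5
    exact ⟨h6.1, (h2 g).2 h6.2⟩

end Pool.Agent.NegK.NT5
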