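import Mathlib

/-! # Lemmas on triangulated categories -/

set_option autoImplicit false

namespace Pool.Agent.NegK.NT5

open CategoryTheory CategoryTheory.Limits CategoryTheory.Pretriangulated

section tri

variable {C : Type*} [Category C] [Preadditive C] [HasZeroObject C] [HasShift C ℤ]
  [∀ n : ℤ, (shiftFunctor C n).Additive] [Pretriangulated C]

theorem yo2 {X Y Z D : C} {f : X ⟶ Y} {g : Y ⟶ Z} {w : Z ⟶ X⟦(1 : ℤ)⟧}
    (hT : Triangle.mk f g w ∈ distTriang C) (r : Y ⟶ D) (h : f ≫ r = 0) :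
    ∃ b : Z ⟶ D, r = g ≫ b := Triangle.yoneda_exact₂ _ hT r h

theorem yo3 {X Y Z D : C} {f : X ⟶ Y} {g : Y ⟶ Z} {w : Z ⟶ X⟦(1 : ℤ)⟧}
    (hT : Triangle.mk f g w ∈ distTriang C) (r : Z ⟶ D) (h : g ≫ r = 0) :
    ∃ b : X⟦(1 : ℤ)⟧ ⟶ D, r = w ≫ b := Triangle.yoneda_exact₃ _ hT r h

theorem comp12 {X Y Z : C} {f : X ⟶ Y} {g : Y ⟶ Z} {w : Z ⟶ X⟦(1 : ℤ)⟧}
    (hT : Triangle.mk f g w ∈ distTriang C) : f ≫ g = 0 := comp_distTriang_mor_zero₁₂ _ hT

theorem comp31 {X Y Z : C} {f : X ⟶ Y} {g : Y ⟶ Z} {w : Z ⟶ X⟦(1 : ℤ)⟧}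
    (hT : Triangle.mk f g w ∈ distTriang C) : w ≫ f⟦(1 : ℤ)⟧' = 0 :=
  comp_distTriang_mor_zero₃₁ _ hT

theorem morph {X Y Z X' Y' Z' : C} {f : X ⟶ Y} {g : Y ⟶ Z} {w : Z ⟶ X⟦(1 : ℤ)⟧}
    (hT : Triangle.mk f g w ∈ distTriang C) {f' : X' ⟶ Y'} {g' : Y' ⟶ Z'} {w' : Z' ⟶ X'⟦(1 : ℤ)⟧}
    (hT' : Triangle.mk f' g' w' ∈ distTriang C) (a : X ⟶ X') (b : Y ⟶ Y') (h : f ≫ b = a ≫ f') :
    ∃ c : Z ⟶ Z', g ≫ c = b ≫ g' ∧ w ≫ a⟦(1 : ℤ)⟧' = c ≫ w' :=
  complete_distinguished_triangle_morphism _ _ hT hT' a b h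

/-- (T1) If an endomorphism `τ` of `E` is killed by the projection to a retract `D` of `E` then `D`
is a retract of the cone of `τ`. -/
theorem retract_of_zero {D E Z : C} (i : D ⟶ E) (r : E ⟶ D) (hir : i ≫ r = 𝟙 D) (τ : E ⟶ E)
    (hτ : τ ≫ r = 0) (g : E ⟶ Z) (w : Z ⟶ E⟦(1 : ℤ)⟧) (hT : Triangle.mk τ g w ∈ distTriang C) :
    Nonempty (Retract D Z) := by
  obtain ⟨b, hb⟩ := yo2 hT r hτ
  exact ⟨⟨i ≫ g, b, by rw [Category.assoc, ← hb, hir]⟩⟩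

/-- An endomorphism of the third object with `g ≫ χ = 0`, `χ ≫ w = 0` has square zero. -/
theorem sq_zero {X Y Z : C} {f : X ⟶ Y} {g : Y ⟶ Z} {w : Z ⟶ X⟦(1 : ℤ)⟧}
    (hT : Triangle.mk f g w ∈ distTriang C) {χ : Z ⟶ Z} (h1 : g ≫ χ = 0) (h2 : χ ≫ w = 0) :
    χ ≫ χ = 0 := by
  obtain ⟨b, hb⟩ := yo3 hT χ h1
  calc χ ≫ χ = χ ≫ w ≫ b := by rw [← hb]
    _ = 0 := by rw [← Category.assoc, h2, zero_comp]

/-- An endomorphism of the third object of a triangle which is the identity on the morphisms. -/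
theorem isIso_of {X Y Z : C} {f : X ⟶ Y} {g : Y ⟶ Z} {w : Z ⟶ X⟦(1 : ℤ)⟧}
    (hT : Triangle.mk f g w ∈ distTriang C) {χ : Z ⟶ Z} (h1 : g ≫ χ = g) (h2 : χ ≫ w = w) :
    IsIso χ := by
  have h3 : g ≫ (χ - 𝟙 Z) = 0 := by rw [Preadditive.comp_sub, h1, Category.comp_id, sub_self]
  have h4 : (χ - 𝟙 Z) ≫ w = 0 := by rw [Preadditive.sub_comp, h2, Category.id_comp, sub_self]
  have h5 := sq_zero hT h3 h4
  have h5' : χ ≫ χ - χ - (χ - 𝟙 Z) = 0 := by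
    rw [← h5]
    simp only [Preadditive.sub_comp, Preadditive.comp_sub, Category.id_comp, Category.comp_id]
  have h6 : χ ≫ (𝟙 Z - (χ - 𝟙 Z)) = 𝟙 Z := by
    have h7 : 𝟙 Z - χ ≫ (𝟙 Z - (χ - 𝟙 Z)) = χ ≫ χ - χ - (χ - 𝟙 Z) := by
      simp only [Preadditive.comp_sub, Category.comp_id]
      abel
    exact (sub_eq_zero.1 (h7.trans h5')).symm
  have h7 : (𝟙 Z - (χ - 𝟙 Z)) ≫ χ = 𝟙 Z := by
    have h7 : 𝟙 Z - (𝟙 Z - (χ - 𝟙 Z)) ≫ χ = χ ≫ χ - χ - (χ - 𝟙 Z) := by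
      simp only [Preadditive.sub_comp, Category.id_comp]
      abel
    exact (sub_eq_zero.1 (h7.trans h5')).symm
  exact ⟨_, h6, h7⟩

/-- (T3) Let `X` be a retract of `Z` and let `τ` be a natural endomorphism. The cone of
`1 + (τ - 1) ∘ ε` on `Z`, `ε` the idempotent of `X`, is the cone of `τ` on `X`. -/
theorem cone_retract {X Z W W' : C} (i : X ⟶ Z) (p : Z ⟶ X) (hip : i ≫ p = 𝟙 X) (τX : X ⟶ X)
    (τZ : Z ⟶ Z) (h1 : i ≫ τZ = τX ≫ i) (h2 : τZ ≫ p = p ≫ τX) (u : Z ⟶ Z)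
    (hu : u = 𝟙 Z + p ≫ i ≫ τZ - p ≫ i) (g : Z ⟶ W) (w : W ⟶ Z⟦(1 : ℤ)⟧)
    (hT : Triangle.mk u g w ∈ distTriang C) (g' : X ⟶ W') (w' : W' ⟶ X⟦(1 : ℤ)⟧)
    (hT' : Triangle.mk τX g' w' ∈ distTriang C) : Nonempty (W' ≅ W) := by
  have hip' : ∀ {Y : C} (f : X ⟶ Y), i ≫ p ≫ f = f := fun f => by
    rw [← Category.assoc, hip, Category.id_comp]
  have c1 : τX ≫ i = i ≫ u := by
    rw [hu, Preadditive.comp_sub, Preadditive.comp_add, Category.comp_id, hip', hip', h1]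
    abel
  have c2 : u ≫ p = p ≫ τX := by
    rw [hu, Preadditive.sub_comp, Preadditive.add_comp, Category.id_comp]
    simp only [Category.assoc]
    rw [h2, hip, Category.comp_id, hip']
    abel
  have c3 : (𝟙 Z - p ≫ i) ≫ u = 𝟙 Z - p ≫ i := by
    rw [hu]
    simp only [Preadditive.sub_comp, Preadditive.comp_sub, Preadditive.comp_add, Category.id_comp,
      Category.comp_id, Category.assoc]
    rw [hip', hip']
    abel
  have c4 : u ≫ (𝟙 Z - p ≫ i) = 𝟙 Z - p ≫ i := by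
    rw [Preadditive.comp_sub, Category.comp_id, ← Category.assoc, c2, Category.assoc, ← h1, hu]
    abel
  obtain ⟨φ, φ1, φ2⟩ := morph hT' hT i i c1
  obtain ⟨ψ, ψ1, ψ2⟩ := morph hT hT' p p c2
  have hA : IsIso (φ ≫ ψ) := by
    refine isIso_of hT' ?_ ?_
    · rw [← Category.assoc, φ1, Category.assoc, ψ1, hip']
    · rw [Category.assoc, ← ψ2, ← Category.assoc, ← φ2, Category.assoc, ← Functor.map_comp, hip,
        CategoryTheory.Functor.map_id, Category.comp_id]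
  have hB : IsIso (ψ ≫ φ) := by
    have h3 : g ≫ (𝟙 W - ψ ≫ φ) = 0 := by
      rw [Preadditive.comp_sub, Category.comp_id, ← Category.assoc, ψ1, Category.assoc, φ1]
      have h4 : g - p ≫ i ≫ g = (𝟙 Z - p ≫ i) ≫ g := by
        rw [Preadditive.sub_comp, Category.id_comp, Category.assoc]
      rw [h4, ← c3, Category.assoc, comp12 hT, comp_zero]
    have h4 : (𝟙 W - ψ ≫ φ) ≫ w = 0 := by
      rw [Preadditive.sub_comp, Category.id_comp, Category.assoc, ← φ2, ← Category.assoc, ← ψ2,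
        Category.assoc, ← Functor.map_comp]
      have h5 : w - w ≫ (shiftFunctor C (1 : ℤ)).map (p ≫ i) =
          w ≫ (shiftFunctor C (1 : ℤ)).map (𝟙 Z - p ≫ i) := by
        rw [Functor.map_sub, CategoryTheory.Functor.map_id, Preadditive.comp_sub, Category.comp_id]
      rw [h5, ← c4, Functor.map_comp, ← Category.assoc, comp31 hT, zero_comp]
    have h5 := sq_zero hT h3 h4
    have h6 : ψ ≫ φ = 𝟙 W - (𝟙 W - ψ ≫ φ) := by abel
    refine ⟨𝟙 W + (𝟙 W - ψ ≫ φ), ?_, ?_⟩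
    · rw [h6]
      generalize 𝟙 W - ψ ≫ φ = χ at h5
      rw [Preadditive.sub_comp, Preadditive.comp_add, Preadditive.comp_add]
      simp only [sub_sub_cancel, Category.id_comp, Category.comp_id, h5]
      abel
    · rw [h6]
      generalize 𝟙 W - ψ ≫ φ = χ at h5
      rw [Preadditive.comp_sub, Preadditive.add_comp, Preadditive.add_comp]
      simp only [sub_sub_cancel, Category.id_comp, Category.comp_id, h5]
      abel
  have hφ : IsIso φ := by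
    obtain ⟨a, ha1, ha2⟩ := hA
    obtain ⟨b, hb1, hb2⟩ := hB
    have e1 : φ ≫ (ψ ≫ a) = 𝟙 W' := by rw [← Category.assoc]; exact ha1
    have e2 : (b ≫ ψ) ≫ φ = 𝟙 W := by rw [Category.assoc]; exact hb2
    have e3 : ψ ≫ a = b ≫ ψ := by
      calc ψ ≫ a = ((b ≫ ψ) ≫ φ) ≫ (ψ ≫ a) := by rw [e2, Category.id_comp]
        _ = (b ≫ ψ) ≫ (φ ≫ (ψ ≫ a)) := by rw [Category.assoc]
        _ = b ≫ ψ := by rw [e1, Category.comp_id]
    exact ⟨ψ ≫ a, e1, by rw [e3, e2]⟩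
  exact ⟨asIso φ⟩

/-- (T5) The cone of a morphism from an object killed by an exact functor. -/
theorem map_cone {C' : Type*} [Category C'] [Preadditive C'] [HasZeroObject C'] [HasShift C' ℤ]
    [∀ n : ℤ, (shiftFunctor C' n).Additive] [Pretriangulated C'] (F : C ⥤ C')
    [F.CommShift ℤ] [F.IsTriangulated] {X Y Z : C} {f : X ⟶ Y} {g : Y ⟶ Z} {w : Z ⟶ X⟦(1 : ℤ)⟧}
    (hT : Triangle.mk f g w ∈ distTriang C) (h : IsZero (F.obj X)) : IsIso (F.map g) :=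
  (Triangle.isZero₁_iff_isIso₂ _ (F.map_distinguished _ hT)).1 h

/-- The cone of a morphism which becomes an isomorphism is killed. -/
theorem map_cone_zero {C' : Type*} [Category C'] [Preadditive C'] [HasZeroObject C']
    [HasShift C' ℤ] [∀ n : ℤ, (shiftFunctor C' n).Additive] [Pretriangulated C'] (F : C ⥤ C')
    [F.CommShift ℤ] [F.IsTriangulated] {X Y Z : C} {f : X ⟶ Y} {g : Y ⟶ Z} {w : Z ⟶ X⟦(1 : ℤ)⟧}
    (hT : Triangle.mk f g w ∈ distTriang C) (h : IsIso (F.map f)) : IsZero (F.obj Z) :=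
  (Triangle.isZero₃_iff_isIso₁ _ (F.map_distinguished _ hT)).2 h

/-- Two cones of isomorphic morphisms are isomorphic. -/
theorem cone_iso {X Y Z X' Y' Z' : C} {f : X ⟶ Y} {g : Y ⟶ Z} {w : Z ⟶ X⟦(1 : ℤ)⟧}
    (hT : Triangle.mk f g w ∈ distTriang C) {f' : X' ⟶ Y'} {g' : Y' ⟶ Z'} {w' : Z' ⟶ X'⟦(1 : ℤ)⟧}
    (hT' : Triangle.mk f' g' w' ∈ distTriang C) (a : X ⟶ X') (b : Y ⟶ Y') [IsIso a] [IsIso b]
    (h : f ≫ b = a ≫ f') : Nonempty (Z ≅ Z') := by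
  let ea : X ≅ X' := asIso a
  let eb : Y ≅ Y' := asIso b
  have e : Arrow.mk f ≅ Arrow.mk f' := Arrow.isoMk ea eb h.symm
  obtain ⟨e, -, -⟩ := exists_iso_of_arrow_iso (Triangle.mk f g w) (Triangle.mk f' g' w') hT hT' e
  exact ⟨Triangle.π₃.mapIso e⟩

end tri

section split

variable {A : Type*} [Category A] [Preadditive A] [HasZeroObject A] [HasBinaryBiproducts A]

/-- (T2) A degreewise split short exact sequence of complexes gives a triangle in the homotopy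
category. -/
theorem split_triangle (S : ShortComplex (CochainComplex A ℤ))
    (σ : ∀ n, (S.map (HomologicalComplex.eval A (ComplexShape.up ℤ) n)).Splitting) :
    ∃ w, Triangle.mk ((HomotopyCategory.quotient A (ComplexShape.up ℤ)).map S.f)
      ((HomotopyCategory.quotient A (ComplexShape.up ℤ)).map S.g) w ∈
        distTriang (HomotopyCategory A (ComplexShape.up ℤ)) := by
  refine ⟨(CochainComplex.trianglehOfDegreewiseSplit S σ).mor₃, ?_⟩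
  exact (HomotopyCategory.distinguished_iff_iso_trianglehOfDegreewiseSplit _).2
    ⟨S, σ, ⟨Iso.refl _⟩⟩

end split

end Pool.Agent.NegK.NT5
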