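import Pool.Agent.Lib.MP_28303a_al.NT5.Ent
import Pool.Agent.Lib.MP_28303a_al.NT.H70.Stab3

/-! # Groups of matrices with algebraic traces -/

set_option autoImplicit false
set_option linter.unusedSectionVars false
set_option linter.unusedVariables false

namespace Pool.Agent.NegK.NT5

universe u

open Matrix

/-- Finitely generated rings of characteristic `0` have homomorphisms to the field of algebraic
numbers which are injective on the algebraic elements. -/
def SpecStatement : Prop :=
  ∀ (L : Type u) [Field L] [CharZero L] (E : Set L), E.Finite →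
    ∃ s : Subring.closure E →+* AlgebraicClosure ℚ,
      ∀ x : Subring.closure E, IsAlgebraic ℤ (x : L) → s x = 0 → x = 0

/-- Homomorphisms of finitely generated commutative groups which are injective on the elements of
finite order can be made injective. -/
def ThetaStatement : Prop :=
  ∀ (G : Type u) [CommGroup G] [Group.FG G] (s : G →* (AlgebraicClosure ℚ)ˣ),
    (∀ x, IsOfFinOrder x → s x = 1 → x = 1) →
    ∃ t : G →* (AlgebraicClosure ℚ)ˣ, Function.Injective t ∧ ∀ x, IsOfFinOrder x → t x = s x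

/-- A group of matrices with a normal subgroup of unipotent elements is triangular. -/
theorem conj_tri' {K : Type u} [Field K] {S : Type u} [Group S] (q : S →* GL (Fin 2) K)
    (N : Subgroup S) (hN : N.Normal) (h2 : ∀ c ∈ N, (q c).1.trace = 2)
    (hd : ∀ c ∈ N, (q c).1.det = 1) (c : S) (hc : c ∈ N) (hne : q c ≠ 1) :
    ∃ P : GL (Fin 2) K, ∀ s, (P⁻¹ * q s * P).1 1 0 = 0 := by
  classical
  have hdet := hd c hc
  have htr := h2 c hc
  rw [Matrix.trace_fin_two] at htr
  rw [Matrix.det_fin_two] at hdet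
  have e00 : ((q c).1 0 0 - 1) ^ 2 + (q c).1 0 1 * (q c).1 1 0 = 0 := by
    have e11 : (q c).1 1 1 = 2 - (q c).1 0 0 := by rw [← htr]; ring
    rw [e11] at hdet
    linear_combination -hdet
  have hne' : (q c).1 0 1 ≠ 0 ∨ (q c).1 1 0 ≠ 0 := by
    by_contra h3
    rw [not_or, not_not, not_not] at h3
    rw [h3.1, zero_mul, add_zero] at e00
    have e0 : (q c).1 0 0 = 1 := sub_eq_zero.1 (pow_eq_zero_iff two_ne_zero |>.1 e00)
    have e1 : (q c).1 1 1 = 1 := by
      rw [e0] at htr
      linear_combination htr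
    refine hne (Units.ext (Matrix.ext fun i j => ?_))
    rw [Units.val_one]
    fin_cases i <;> fin_cases j
    · show (q c).1 0 0 = (1 : Matrix (Fin 2) (Fin 2) K) 0 0
      rw [e0, Matrix.one_apply_eq]
    · show (q c).1 0 1 = (1 : Matrix (Fin 2) (Fin 2) K) 0 1
      rw [h3.1, Matrix.one_apply_ne (by decide)]
    · show (q c).1 1 0 = (1 : Matrix (Fin 2) (Fin 2) K) 1 0
      rw [h3.2, Matrix.one_apply_ne (by decide)]
    · show (q c).1 1 1 = (1 : Matrix (Fin 2) (Fin 2) K) 1 1
      rw [e1, Matrix.one_apply_eq]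
  obtain ⟨u0, u1, l, hl, hu, h00, h01, h10⟩ := NT.H70.nilp _ _ _ e00 hne'
  have h11 : (q c).1 1 1 = 1 + l * (u0 * u1) := by
    linear_combination htr - h00
  have h00' : (q c).1 0 0 = 1 - l * (u0 * u1) := by linear_combination h00
  -- the line spanned by `u` is invariant
  have key : ∀ s, u0 * ((q s).1 1 0 * u0 + (q s).1 1 1 * u1) -
      u1 * ((q s).1 0 0 * u0 + (q s).1 0 1 * u1) = 0 := by
    intro s
    have hc' : s * c * s⁻¹ ∈ N := hN.conj_mem c hc s
    have h3 := h2 _ (mul_mem hc hc')
    have h4 : (q (c * (s * c * s⁻¹))).1 = (q c).1 * ((q s).1 * (q c).1 * (q s⁻¹).1) := by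
      rw [map_mul, map_mul, map_mul, Units.val_mul, Units.val_mul, Units.val_mul]
    have h5 : (q s).1 * (q s⁻¹).1 = 1 := by
      rw [← Units.val_mul, ← map_mul, mul_inv_cancel, map_one, Units.val_one]
    have h6 : (q s).1.det • (q s⁻¹).1 = (q s).1.adjugate := by
      have h7 : (q s).1.adjugate * ((q s).1 * (q s⁻¹).1) = (q s).1.adjugate * 1 := by rw [h5]
      rw [← Matrix.mul_assoc, Matrix.adjugate_mul, Matrix.mul_one, Matrix.smul_mul,
        Matrix.one_mul] at h7
      exact h7
    have h8 : ((q c).1 * ((q s).1 * (q c).1 * (q s).1.adjugate)).trace = 2 * (q s).1.det := by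
      rw [← h6, Matrix.mul_smul, Matrix.mul_smul, Matrix.trace_smul, ← h4, h3, smul_eq_mul,
        mul_comm]
    have h9 : (l * (u0 * ((q s).1 1 0 * u0 + (q s).1 1 1 * u1) -
      u1 * ((q s).1 0 0 * u0 + (q s).1 0 1 * u1))) ^ 2 = 0 := by
      rw [Matrix.trace_fin_two, Matrix.adjugate_fin_two, Matrix.det_fin_two] at h8
      simp only [Matrix.mul_apply, Fin.sum_univ_two, Matrix.of_apply, Matrix.cons_val_zero,
        Matrix.cons_val_one, Matrix.cons_val', Matrix.cons_val_fin_one] at h8
      rw [h00', h01, h10, h11] at h8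
      linear_combination -h8
    exact (mul_eq_zero.1 (pow_eq_zero_iff two_ne_zero |>.1 h9)).resolve_left hl
  -- the basis
  obtain ⟨x, y, hxy⟩ : ∃ x y : K, u0 * y - x * u1 ≠ 0 := by
    rcases hu with hu | hu
    · exact ⟨0, 1, by rwa [mul_one, zero_mul, sub_zero]⟩
    · exact ⟨1, 0, by rw [mul_zero, one_mul, zero_sub]; exact neg_ne_zero.2 hu⟩
  have hdP : (!![u0, x; u1, y] : Matrix (Fin 2) (Fin 2) K).det ≠ 0 := by
    rw [Matrix.det_fin_two_of]
    exact hxy
  refine ⟨Matrix.GeneralLinearGroup.mkOfDetNeZero _ hdP, fun s => ?_⟩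
  set P := Matrix.GeneralLinearGroup.mkOfDetNeZero _ hdP with hP
  have h3 : P.1 = !![u0, x; u1, y] := rfl
  have h6 : P.1.det • (P⁻¹).1 = P.1.adjugate := by
    have h5 : P.1 * (P⁻¹).1 = 1 := by rw [← Units.val_mul, mul_inv_cancel, Units.val_one]
    have h7 : P.1.adjugate * (P.1 * (P⁻¹).1) = P.1.adjugate * 1 := by rw [h5]
    rw [← Matrix.mul_assoc, Matrix.adjugate_mul, Matrix.mul_one, Matrix.smul_mul,
      Matrix.one_mul] at h7
    exact h7
  have h7 : P.1.det * (P⁻¹ * q s * P).1 1 0 = 0 := by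
    have h8 : P.1.det * (P⁻¹ * q s * P).1 1 0 = (P.1.adjugate * (q s).1 * P.1) 1 0 := by
      rw [← h6, Units.val_mul, Units.val_mul, Matrix.smul_mul, Matrix.smul_mul,
        Matrix.smul_apply, smul_eq_mul]
    rw [h8, h3, Matrix.adjugate_fin_two]
    simp only [Matrix.mul_apply, Fin.sum_univ_two, Matrix.of_apply, Matrix.cons_val_zero,
      Matrix.cons_val_one, Matrix.cons_val', Matrix.cons_val_fin_one]
    linear_combination key s
  exact (mul_eq_zero.1 h7).resolve_left hdP

section emb

variable {K : Type u} [Field K]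

/-- The scalar matrices. -/
noncomputable def scal (L : Type*) [Field L] : Lˣ →* GL (Fin 2) L :=
  Units.map (Matrix.scalar (Fin 2) : L →+* Matrix (Fin 2) (Fin 2) L).toMonoidHom

theorem scal_mul {L : Type*} [Field L] (x : Lˣ) (g : GL (Fin 2) L) (i j : Fin 2) :
    (scal L x * g).1 i j = x * g.1 i j := by
  show ((Matrix.scalar (Fin 2) (x : L)) * g.1) i j = _
  rw [Matrix.scalar_apply, Matrix.diagonal_mul]

theorem scal_comm {L : Type*} [Field L] (x : Lˣ) (g : GL (Fin 2) L) :
    scal L x * g = g * scal L x := by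
  refine Units.ext (Matrix.ext fun i j => ?_)
  rw [scal_mul]
  show _ = (g.1 * (Matrix.scalar (Fin 2) (x : L))) i j
  rw [Matrix.scalar_apply, Matrix.mul_diagonal, mul_comm]

/-- Multiplication of a homomorphism by a character. -/
noncomputable def twist {L : Type*} [Field L] {G : Type*} [Group G] (q : G →* GL (Fin 2) L)
    (c : G →* Lˣ) : G →* GL (Fin 2) L where
  toFun g := scal L (c g) * q g
  map_one' := by rw [map_one, map_one, map_one, one_mul]
  map_mul' g h := by
    have h1 : q g * (scal L (c h) * q h) = scal L (c h) * (q g * q h) := by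
      rw [← mul_assoc, ← scal_comm, mul_assoc]
    rw [map_mul, map_mul, map_mul, mul_assoc, mul_assoc, h1]

theorem twist_apply {L : Type*} [Field L] {G : Type*} [Group G] (q : G →* GL (Fin 2) L)
    (c : G →* Lˣ) (g : G) (i j : Fin 2) : (twist q c g).1 i j = c g * (q g).1 i j :=
  scal_mul _ _ _ _

theorem twist_trace {L : Type*} [Field L] {G : Type*} [Group G] (q : G →* GL (Fin 2) L)
    (c : G →* Lˣ) (g : G) : (twist q c g).1.trace = c g * (q g).1.trace := by
  rw [Matrix.trace_fin_two, Matrix.trace_fin_two, twist_apply, twist_apply, mul_add]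

theorem twist_det {L : Type*} [Field L] {G : Type*} [Group G] (q : G →* GL (Fin 2) L)
    (c : G →* Lˣ) (g : G) : (twist q c g).1.det = (c g : L) ^ 2 * (q g).1.det := by
  rw [Matrix.det_fin_two, Matrix.det_fin_two, twist_apply, twist_apply, twist_apply, twist_apply]
  ring

/-- The entries of the matrices of a group, as matrices over a ring. -/
noncomputable def overR {L : Type*} [Field L] {G : Type*} [Group G] (q : G →* GL (Fin 2) L)
    (B : Subring L) (h : ∀ g i j, (q g).1 i j ∈ B) : G →* Matrix (Fin 2) (Fin 2) B where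
  toFun g := Matrix.of fun i j => ⟨(q g).1 i j, h g i j⟩
  map_one' := by
    ext i j
    change (q 1).1 i j = (((1 : Matrix (Fin 2) (Fin 2) B) i j : B) : L)
    rw [map_one, Units.val_one, Matrix.one_apply, Matrix.one_apply]
    split_ifs <;> rfl
  map_mul' := fun g h => by
    ext i j
    rw [Matrix.mul_apply]
    change (q (g * h)).1 i j = ((∑ k, _ : B) : L)
    rw [map_mul, Units.val_mul, Matrix.mul_apply, AddSubmonoidClass.coe_finsetSum]
    rfl

/-- Specialization. -/
noncomputable def spz {L : Type*} [Field L] {G : Type*} [Group G] (q : G →* GL (Fin 2) L)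
    (B : Subring L) (h : ∀ g i j, (q g).1 i j ∈ B) {F : Type*} [Field F] (s : B →+* F) :
    G →* GL (Fin 2) F :=
  (GeneralLinearGroup.map s).comp (overR q B h).toHomUnits

theorem spz_apply {L : Type*} [Field L] {G : Type*} [Group G] (q : G →* GL (Fin 2) L)
    (B : Subring L) (h : ∀ g i j, (q g).1 i j ∈ B) {F : Type*} [Field F] (s : B →+* F) (g : G)
    (i j : Fin 2) : (spz q B h s g).1 i j = s ⟨(q g).1 i j, h g i j⟩ := rfl

theorem spz_trace {L : Type*} [Field L] {G : Type*} [Group G] (q : G →* GL (Fin 2) L)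
    (B : Subring L) (h : ∀ g i j, (q g).1 i j ∈ B) {F : Type*} [Field F] (s : B →+* F) (g : G)
    (ht : (q g).1.trace ∈ B) : (spz q B h s g).1.trace = s ⟨(q g).1.trace, ht⟩ := by
  rw [Matrix.trace_fin_two, spz_apply, spz_apply, ← map_add]
  congr 1
  exact Subtype.ext (Matrix.trace_fin_two _).symm

theorem spz_det {L : Type*} [Field L] {G : Type*} [Group G] (q : G →* GL (Fin 2) L)
    (B : Subring L) (h : ∀ g i j, (q g).1 i j ∈ B) {F : Type*} [Field F] (s : B →+* F) (g : G)
    (ht : (q g).1.det ∈ B) : (spz q B h s g).1.det = s ⟨(q g).1.det, ht⟩ := by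
  rw [Matrix.det_fin_two, spz_apply, spz_apply, spz_apply, spz_apply, ← map_mul, ← map_mul,
    ← map_sub]
  congr 1
  exact Subtype.ext (Matrix.det_fin_two _).symm

theorem gl_ext {L : Type*} [Field L] {g h : GL (Fin 2) L} (e : ∀ i j, g.1 i j = h.1 i j) :
    g = h := Units.ext (Matrix.ext e)

theorem gl_one {L : Type*} [Field L] (i j : Fin 2) :
    (1 : GL (Fin 2) L).1 i j = (1 : Matrix (Fin 2) (Fin 2) L) i j := rfl

/-- EMB. A finitely generated group of matrices over an algebraically closed field such that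
`tr(h)² / det(h)` is algebraic for all elements `h` is triangular or isomorphic to a group of
matrices over the algebraic numbers. -/
theorem emb (hSp : SpecStatement.{u}) (hTh : ThetaStatement.{u}) {K : Type u} [Field K]
    [CharZero K] [IsAlgClosed K] {H : Type u} [Group H] [hfg : Group.FG H]
    (q : H →* GL (Fin 2) K)
    (hq : ∀ h, IsAlgebraic ℤ ((q h).1.trace ^ 2 / (q h).1.det)) :
    (∃ P : GL (Fin 2) K, ∀ h, (P⁻¹ * q h * P).1 1 0 = 0) ∨
      ∃ q' : H →* GL (Fin 2) (AlgebraicClosure ℚ), ∀ h, q' h = 1 ↔ q h = 1 := by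
  classical
  refine or_iff_not_imp_left.2 fun hnt => ?_
  have hdne : ∀ h, (q h).1.det ≠ 0 := fun h =>
    ((Matrix.isUnit_iff_isUnit_det _).1 (q h).isUnit).ne_zero
  -- square roots of the determinants
  have hr : ∀ h, ∃ r : Kˣ, (r : K) ^ 2 = (q h).1.det := by
    intro h
    obtain ⟨z, hz⟩ := IsAlgClosed.exists_pow_nat_eq (q h).1.det (n := 2) two_pos
    refine ⟨Units.mk0 z fun h0 => hdne h ?_, hz⟩
    rw [← hz, h0, zero_pow two_ne_zero]
  choose r hr using hr
  obtain ⟨S, hS⟩ := hfg.out
  let S1 : Finset (H × Kˣ) := S.image (fun s => (s, r s)) ∪ {(1, -1)}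
  let G0 : Subgroup (H × Kˣ) := Subgroup.closure (S1 : Set (H × Kˣ))
  let z : G0 := ⟨(1, -1), Subgroup.subset_closure (by
    rw [Finset.mem_coe, Finset.mem_union]
    exact Or.inr (Finset.mem_singleton_self _))⟩
  let π : G0 →* H := (MonoidHom.fst H Kˣ).comp G0.subtype
  let la : G0 →* Kˣ := (MonoidHom.snd H Kˣ).comp G0.subtype
  have hπ : Function.Surjective π := by
    intro h
    have h1 : h ∈ Subgroup.closure (S : Set H) := by rw [hS]; trivial
    have h2 : Subgroup.closure (S : Set H) ≤ π.range := by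
      rw [Subgroup.closure_le]
      intro s hs
      exact ⟨⟨(s, r s), Subgroup.subset_closure (by
        rw [Finset.mem_coe, Finset.mem_union]
        exact Or.inl (Finset.mem_image_of_mem _ hs))⟩, rfl⟩
    exact h2 h1
  have hla : ∀ g : G0, (la g : K) ^ 2 = (q (π g)).1.det := by
    have h1 : G0 ≤ MonoidHom.eqLocus ((powMonoidHom 2).comp (MonoidHom.snd H Kˣ))
        ((Matrix.GeneralLinearGroup.det.comp q).comp (MonoidHom.fst H Kˣ)) := by
      rw [Subgroup.closure_le]
      intro s hs
      rw [Finset.mem_coe, Finset.mem_union] at hs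
      rcases hs with hs | hs
      · obtain ⟨x, _, rfl⟩ := Finset.mem_image.1 hs
        refine Units.ext ?_
        show ((r x ^ 2 : Kˣ) : K) = _
        rw [Units.val_pow_eq_pow_val, hr]
        rfl
      · rw [Finset.mem_singleton] at hs
        subst hs
        refine Units.ext ?_
        show (((-1 : Kˣ) ^ 2 : Kˣ) : K) = ((Matrix.GeneralLinearGroup.det (q 1) : Kˣ) : K)
        rw [map_one, map_one, neg_one_sq]
    intro g
    have h2 := congrArg (fun x : Kˣ => (x : K)) (h1 g.2)
    exact h2
  -- the matrices of determinant `1`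
  let d1 : H × Kˣ →* GL (Fin 2) K := twist (q.comp (MonoidHom.fst H Kˣ))
    ((MonoidHom.snd H Kˣ)⁻¹)
  let d : G0 →* GL (Fin 2) K := d1.comp G0.subtype
  have hd : ∀ (g : G0) i j, (d g).1 i j = (la g : K)⁻¹ * (q (π g)).1 i j := by
    intro g i j
    show (twist _ _ g.1).1 i j = _
    rw [twist_apply]
    show (((g.1.2)⁻¹ : Kˣ) : K) * _ = _
    rw [Units.val_inv_eq_inv_val]
    rfl
  have hlne : ∀ g : G0, (la g : K) ≠ 0 := fun g => Units.ne_zero _
  have hdd : ∀ g : G0, (d g).1.det = 1 := by
    intro g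
    rw [Matrix.det_fin_two, hd, hd, hd, hd]
    have h1 := hla g
    rw [Matrix.det_fin_two] at h1
    have h2 := hlne g
    field_simp
    rw [h1]
  have hdt : ∀ g : G0, (d g).1.trace = (la g : K)⁻¹ * (q (π g)).1.trace := by
    intro g
    rw [Matrix.trace_fin_two, Matrix.trace_fin_two, hd, hd, mul_add]
  have hdalg : ∀ g : G0, IsAlgebraic ℤ (d g).1.trace := by
    intro g
    refine IsAlgebraic.of_pow two_pos ?_
    rw [hdt, mul_pow, inv_pow, hla, mul_comm, ← div_eq_mul_inv]
    exact hq (π g)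
  have hq_of : ∀ g : G0, la g = 1 → d g = 1 → q (π g) = 1 := by
    intro g h1 h2
    refine gl_ext fun i j => ?_
    have h3 := hd g i j
    rw [h1, Units.val_one, inv_one, one_mul, h2] at h3
    exact h3.symm
  have hd_of : ∀ g : G0, la g = 1 → q (π g) = 1 → d g = 1 := by
    intro g h1 h2
    refine gl_ext fun i j => ?_
    rw [hd, h1, Units.val_one, inv_one, one_mul, h2]
  -- specialization
  obtain ⟨E, hE⟩ := entries d1 S1
  have hE' : ∀ (g : G0) i j, (d g).1 i j ∈ Subring.closure (E : Set K) := fun g => hE g.1 g.2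
  have hEt : ∀ g : G0, (d g).1.trace ∈ Subring.closure (E : Set K) := by
    intro g
    rw [Matrix.trace_fin_two]
    exact Subring.add_mem _ (hE' g 0 0) (hE' g 1 1)
  obtain ⟨s, hs⟩ := hSp K (E : Set K) E.finite_toSet
  let δ : G0 →* GL (Fin 2) (AlgebraicClosure ℚ) := spz d _ hE' s
  have hδd : ∀ g : G0, (δ g).1.det = 1 := by
    intro g
    rw [spz_det d _ hE' s g (by rw [hdd]; exact Subring.one_mem _)]
    have h1 : (⟨(d g).1.det, by rw [hdd]; exact Subring.one_mem _⟩ :
        Subring.closure (E : Set K)) = 1 := Subtype.ext (hdd g)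
    rw [h1, map_one]
  have htr2 : ∀ g ∈ δ.ker, (d g).1.trace = 2 := by
    intro g hg
    have hg' : δ g = 1 := hg
    have h1 := spz_trace d _ hE' s g (hEt g)
    have h2 : (δ g).1.trace = 2 := by
      rw [hg', Matrix.trace_fin_two, gl_one, gl_one, Matrix.one_apply_eq, Matrix.one_apply_eq]
      norm_num
    have h3 : s (⟨(d g).1.trace, hEt g⟩ - 2) = 0 := by
      rw [map_sub, ← h1, map_ofNat]
      exact sub_eq_zero.2 h2
    have h4 := hs _ (by
      show IsAlgebraic ℤ ((d g).1.trace - 2)
      have h5 := isAlgebraic_algebraMap (R := ℤ) (A := K) (2 : ℤ)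
      rw [show (algebraMap ℤ K) 2 = 2 by simp] at h5
      exact (hdalg g).sub h5) h3
    have h5 := congrArg Subtype.val h4
    exact sub_eq_zero.1 h5
  have hker : ∀ g : G0, δ g = 1 → d g = 1 := by
    intro c hc
    by_contra hne
    obtain ⟨P, hP⟩ := conj_tri' d δ.ker inferInstance htr2 (fun g _ => hdd g) c hc hne
    refine hnt ⟨P, fun h => ?_⟩
    obtain ⟨g, rfl⟩ := hπ h
    have h1 := hP g
    have h2 : d g = scal K (la g)⁻¹ * q (π g) := by
      refine gl_ext fun i j => ?_
      rw [hd, scal_mul, Units.val_inv_eq_inv_val]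
    have h3 : P⁻¹ * d g * P = scal K (la g)⁻¹ * (P⁻¹ * q (π g) * P) := by
      rw [h2, ← mul_assoc, ← scal_comm, mul_assoc, mul_assoc, mul_assoc]
    rw [h3, scal_mul] at h1
    exact (mul_eq_zero.1 h1).resolve_left (Units.ne_zero _)
  have hker' : ∀ g : G0, d g = 1 → δ g = 1 := by
    intro g hg
    refine gl_ext fun i j => ?_
    rw [spz_apply]
    have h1 : ∀ i j, (1 : Matrix (Fin 2) (Fin 2) K) i j ∈ Subring.closure (E : Set K) := by
      intro i j
      rw [← gl_one, ← hg]
      exact hE' g i j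
    have h2 : (⟨(d g).1 i j, hE' g i j⟩ : Subring.closure (E : Set K)) =
        ⟨(1 : Matrix (Fin 2) (Fin 2) K) i j, h1 i j⟩ := Subtype.ext (by
      show (d g).1 i j = _
      rw [hg, gl_one])
    rw [h2, gl_one]
    fin_cases i <;> fin_cases j
    · exact (congrArg s (Subtype.ext (by simp) : _ = (1 : Subring.closure (E : Set K)))).trans
        (by simp)
    · exact (congrArg s (Subtype.ext (by simp) : _ = (0 : Subring.closure (E : Set K)))).trans
        (by simp)
    · exact (congrArg s (Subtype.ext (by simp) : _ = (0 : Subring.closure (E : Set K)))).trans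
        (by simp)
    · exact (congrArg s (Subtype.ext (by simp) : _ = (1 : Subring.closure (E : Set K)))).trans
        (by simp)
  -- the character
  obtain ⟨E2, hE2⟩ := entries ((scal K).comp (MonoidHom.snd H Kˣ)) S1
  have hE2' : ∀ g : G0, (la g : K) ∈ Subring.closure (E2 : Set K) := by
    intro g
    have h1 := hE2 g.1 g.2 0 0
    have h2 : (((scal K).comp (MonoidHom.snd H Kˣ)) g.1).1 0 0 = (la g : K) := by
      have h3 := scal_mul (la g) (1 : GL (Fin 2) K) 0 0
      rw [mul_one, gl_one, Matrix.one_apply_eq, mul_one] at h3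
      exact h3
    rwa [h2] at h1
  obtain ⟨s2, hs2⟩ := hSp K (E2 : Set K) E2.finite_toSet
  have hrange : ∀ x : la.range, ((x : Kˣ) : K) ∈ Subring.closure (E2 : Set K) := by
    rintro ⟨_, g, rfl⟩
    exact hE2' g
  let f2 : la.range →* Subring.closure (E2 : Set K) :=
    { toFun := fun x => ⟨((x : Kˣ) : K), hrange x⟩
      map_one' := rfl
      map_mul' := fun x y => rfl }
  let σ : la.range →* (AlgebraicClosure ℚ)ˣ := ((s2 : _ →* AlgebraicClosure ℚ).comp f2).toHomUnits
  have hσ : ∀ x : la.range, ((σ x : (AlgebraicClosure ℚ)ˣ) : AlgebraicClosure ℚ) = s2 (f2 x) :=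
    fun x => rfl
  obtain ⟨θ, hθ, hθσ⟩ := hTh la.range σ fun x hx h1 => by
    obtain ⟨n, hn, h2⟩ := isOfFinOrder_iff_pow_eq_one.1 hx
    have h3 : s2 (f2 x - 1) = 0 := by
      rw [map_sub, ← hσ, h1, Units.val_one, map_one, sub_self]
    have h4 := hs2 _ (by
      show IsAlgebraic ℤ (((x : Kˣ) : K) - 1)
      refine IsAlgebraic.sub (IsAlgebraic.of_pow hn ?_) isAlgebraic_one
      have h5 := congrArg (fun y : la.range => ((y : Kˣ) : K)) h2
      have h6 : (((x : Kˣ) : K)) ^ n = 1 := h5
      rw [h6]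
      exact isAlgebraic_one) h3
    have h5 := congrArg Subtype.val h4
    exact Subtype.ext (Units.ext (sub_eq_zero.1 h5))
  let Q : G0 →* GL (Fin 2) (AlgebraicClosure ℚ) := twist δ (θ.comp la.rangeRestrict)
  have hz1 : la z = -1 := rfl
  have hz2 : π z = 1 := rfl
  have hθz : θ (la.rangeRestrict z) = -1 := by
    rw [hθσ]
    · refine Units.ext ?_
      rw [hσ]
      have h1 : f2 (la.rangeRestrict z) = -1 := Subtype.ext rfl
      rw [h1, map_neg, map_one]
      rfl
    · refine isOfFinOrder_iff_pow_eq_one.2 ⟨2, two_pos, Subtype.ext ?_⟩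
      show (la z) ^ 2 = 1
      rw [hz1, neg_one_sq]
  have hδz : ∀ i j, (δ z).1 i j = -(1 : Matrix (Fin 2) (Fin 2) (AlgebraicClosure ℚ)) i j := by
    intro i j
    rw [spz_apply]
    have h0 : ∀ i j, (d z).1 i j = -(1 : Matrix (Fin 2) (Fin 2) K) i j := by
      intro i j
      rw [hd, hz1, hz2, map_one, gl_one, Units.val_neg, Units.val_one, inv_neg, inv_one, neg_one_mul]
    fin_cases i <;> fin_cases j
    · exact (congrArg s (Subtype.ext (by simp [h0]) :
        _ = (-1 : Subring.closure (E : Set K)))).trans (by simp)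
    · exact (congrArg s (Subtype.ext (by simp [h0]) :
        _ = (0 : Subring.closure (E : Set K)))).trans (by simp)
    · exact (congrArg s (Subtype.ext (by simp [h0]) :
        _ = (0 : Subring.closure (E : Set K)))).trans (by simp)
    · exact (congrArg s (Subtype.ext (by simp [h0]) :
        _ = (-1 : Subring.closure (E : Set K)))).trans (by simp)
  have hQz : Q z = 1 := by
    refine gl_ext fun i j => ?_
    rw [twist_apply, hδz, MonoidHom.comp_apply, hθz, gl_one, Units.val_neg, Units.val_one,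
      neg_mul_neg, one_mul]
  have hla2 : ∀ g : G0, la g ^ 2 = 1 → la g = 1 ∨ la g = -1 := by
    intro g h
    have h1 : ((la g : K)) ^ 2 = 1 := by
      rw [← Units.val_pow_eq_pow_val, h, Units.val_one]
    rcases sq_eq_one_iff.1 h1 with h2 | h2
    · exact Or.inl (Units.ext h2)
    · exact Or.inr (Units.ext h2)
  -- the kernel
  have key1 : ∀ g : G0, la g = 1 → (Q g = 1 ↔ q (π g) = 1) := by
    intro g h1
    have h2 : θ (la.rangeRestrict g) = 1 := by
      have h3 : la.rangeRestrict g = 1 := Subtype.ext h1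
      rw [h3, map_one]
    have h3 : Q g = δ g := by
      refine gl_ext fun i j => ?_
      rw [twist_apply, MonoidHom.comp_apply, h2, Units.val_one, one_mul]
    rw [h3]
    exact ⟨fun h => hq_of g h1 (hker g h), fun h => hker' g (hd_of g h1 h)⟩
  have key : ∀ g : G0, la g ^ 2 = 1 → (Q g = 1 ↔ q (π g) = 1) := by
    intro g h
    rcases hla2 g h with h1 | h1
    · exact key1 g h1
    · have h2 := key1 (g * z) (by rw [map_mul, h1, hz1, neg_mul_neg, one_mul])
      rwa [map_mul, map_mul, hQz, hz2, mul_one, mul_one] at h2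
  have key' : ∀ g : G0, (Q g = 1 ↔ q (π g) = 1) := by
    intro g
    constructor
    · intro h
      refine (key g ?_).1 h
      have h1 : (Q g).1.det = 1 := by rw [h, Units.val_one, Matrix.det_one]
      rw [twist_det, hδd, mul_one, ← Units.val_pow_eq_pow_val, MonoidHom.comp_apply,
        ← map_pow] at h1
      have h2 : θ (la.rangeRestrict g ^ 2) = 1 := Units.ext h1
      have h3 : la.rangeRestrict g ^ 2 = 1 := hθ (h2.trans (map_one θ).symm)
      exact congrArg Subtype.val h3
    · intro h
      refine (key g ?_).2 h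
      have h1 := hla g
      rw [h, Units.val_one, Matrix.det_one] at h1
      exact Units.ext (by rw [Units.val_pow_eq_pow_val, h1, Units.val_one])
  have hle : π.ker ≤ Q.ker := by
    intro g hg
    have h1 : π g = 1 := hg
    exact (key' g).2 (by rw [h1, map_one])
  let q' : H →* GL (Fin 2) (AlgebraicClosure ℚ) :=
    π.liftOfSurjective hπ ⟨Q, hle⟩
  have hq' : ∀ g, q' (π g) = Q g := fun g =>
    MonoidHom.liftOfRightInverse_comp_apply π _ (Function.rightInverse_surjInv hπ) ⟨Q, hle⟩ g
  refine ⟨q', fun h => ?_⟩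
  obtain ⟨g, rfl⟩ := hπ h
  rw [hq']
  exact key' g
end emb

end Pool.Agent.NegK.NT5
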