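import Pool.Agent.Lib.MP_28303a_al.NT5.C0
import Pool.Agent.Lib.MP_28303a_al.NT5.Emb
import Pool.Agent.Lib.MP_28303a_al.NT.ER71.Gen

/-! # Reduction of the K-theory of groups of matrices to number fields -/

set_option autoImplicit false
set_option linter.unusedSectionVars false
set_option linter.unusedVariables false

namespace Pool.Agent.NegK.NT5

universe u

open Matrix
open Pool.Agent.NegK.TW
open Pool.Agent.NegK.TT
open Pool.Agent.NegK.NT

/-- Affine groups with algebraic linear parts. -/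
def AffStatement : Prop :=
  ∀ (K : Type u) [Field K] [CharZero K] (G : Type u) [Group G] [Group.FG G] (χ : G →* Kˣ)
    (β : G → K), (∀ g h, β (g * h) = χ g * β h + β g) → (∀ g, IsAlgebraic ℤ (χ g : K)) →
    ∃ (χ' : G →* (AlgebraicClosure ℚ)ˣ) (β' : G → AlgebraicClosure ℚ),
      (∀ g h, β' (g * h) = χ' g * β' h + β' g) ∧ (∀ g, χ' g = 1 ↔ χ g = 1) ∧
      ∀ g, β' g = 0 ↔ β g = 0

/-- Characters. -/
theorem char_emb (hSp : SpecStatement.{u}) (hTh : ThetaStatement.{u}) {K : Type u} [Field K]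
    [CharZero K] {G : Type u} [Group G] [hfg : Group.FG G] (c : G →* Kˣ) :
    ∃ c' : G →* (AlgebraicClosure ℚ)ˣ, ∀ g, c' g = 1 ↔ c g = 1 := by
  obtain ⟨S, hS⟩ := hfg.out
  obtain ⟨E2, hE2⟩ := entries ((scal K).comp c) S
  have hE2' : ∀ g : G, (c g : K) ∈ Subring.closure (E2 : Set K) := by
    intro g
    have h1 := hE2 g (by rw [hS]; trivial) 0 0
    have h2 : (((scal K).comp c) g).1 0 0 = (c g : K) := by
      have h3 := scal_mul (c g) (1 : GL (Fin 2) K) 0 0
      rw [mul_one, gl_one, Matrix.one_apply_eq, mul_one] at h3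
      exact h3
    rwa [h2] at h1
  obtain ⟨s2, hs2⟩ := hSp K (E2 : Set K) E2.finite_toSet
  have hrange : ∀ x : c.range, ((x : Kˣ) : K) ∈ Subring.closure (E2 : Set K) := by
    rintro ⟨_, g, rfl⟩
    exact hE2' g
  let f2 : c.range →* Subring.closure (E2 : Set K) :=
    { toFun := fun x => ⟨((x : Kˣ) : K), hrange x⟩
      map_one' := rfl
      map_mul' := fun x y => rfl }
  let σ : c.range →* (AlgebraicClosure ℚ)ˣ := ((s2 : _ →* AlgebraicClosure ℚ).comp f2).toHomUnits
  have hσ : ∀ x : c.range, ((σ x : (AlgebraicClosure ℚ)ˣ) : AlgebraicClosure ℚ) = s2 (f2 x) :=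
    fun x => rfl
  obtain ⟨θ, hθ, hθσ⟩ := hTh c.range σ fun x hx h1 => by
    obtain ⟨n, hn, h2⟩ := isOfFinOrder_iff_pow_eq_one.1 hx
    have h3 : s2 (f2 x - 1) = 0 := by
      rw [map_sub, ← hσ, h1, Units.val_one, map_one, sub_self]
    have h4 := hs2 _ (by
      show IsAlgebraic ℤ (((x : Kˣ) : K) - 1)
      refine IsAlgebraic.sub (IsAlgebraic.of_pow hn ?_) isAlgebraic_one
      have h5 := congrArg (fun y : c.range => ((y : Kˣ) : K)) h2
      have h6 : (((x : Kˣ) : K)) ^ n = 1 := h5
      rw [h6]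
      exact isAlgebraic_one) h3
    have h5 := congrArg Subtype.val h4
    exact Subtype.ext (Units.ext (sub_eq_zero.1 h5))
  refine ⟨θ.comp c.rangeRestrict, fun g => ⟨fun h => ?_, fun h => ?_⟩⟩
  · have h1 : c.rangeRestrict g = 1 := hθ (h.trans (map_one θ).symm)
    exact congrArg Subtype.val h1
  · have h1 : c.rangeRestrict g = 1 := Subtype.ext h
    rw [MonoidHom.comp_apply, h1, map_one]

/-- `x` is algebraic if `(x + 1)² / x` is algebraic. -/
theorem alg_quad {K : Type u} [Field K] [CharZero K] (x : K) (hx : x ≠ 0)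
    (h : IsAlgebraic ℤ ((x + 1) ^ 2 / x)) : IsAlgebraic ℤ x := by
  rw [IsFractionRing.isAlgebraic_iff ℤ ℚ K] at h ⊢
  let F := algebraicClosure ℚ K
  let t : F := ⟨(x + 1) ^ 2 / x, mem_algebraicClosure_iff.2 h⟩
  have h1 : IsAlgebraic F x := by
    refine ⟨Polynomial.X ^ 2 + (Polynomial.C (2 - t) * Polynomial.X + 1), fun h0 => ?_, ?_⟩
    · have h2 := congrArg (fun p => Polynomial.coeff p 0) h0
      simp at h2
    · have h3 : (algebraMap F K) (2 - t) = 2 - (x + 1) ^ 2 / x := by
        rw [map_sub, map_ofNat]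
        rfl
      rw [map_add, map_add, map_mul, map_pow, Polynomial.aeval_X, Polynomial.aeval_C, map_one, h3]
      field_simp
      ring
  have : Algebra.IsAlgebraic ℚ F := algebraicClosure.isAlgebraic ℚ K
  exact IsAlgebraic.restrictScalars ℚ h1

/-- Triangular matrices. -/
theorem tri_emb (hSp : SpecStatement.{u}) (hTh : ThetaStatement.{u}) (hAf : AffStatement.{u})
    {K : Type u} [Field K] [CharZero K] {G : Type u} [Group G] [hfg : Group.FG G]
    (q : G →* GL (Fin 2) K) (h10 : ∀ g, (q g).1 1 0 = 0)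
    (hq : ∀ h, IsAlgebraic ℤ ((q h).1.trace ^ 2 / (q h).1.det)) :
    ∃ q' : G →* GL (Fin 2) (AlgebraicClosure ℚ), ∀ h, q' h = 1 ↔ q h = 1 := by
  have hmul : ∀ (g h : G) (i j : Fin 2), (q (g * h)).1 i j = (q g).1 i 0 * (q h).1 0 j +
      (q g).1 i 1 * (q h).1 1 j := fun g h i j => by
    rw [map_mul, Units.val_mul, Matrix.mul_apply, Fin.sum_univ_two]
  let a : G →* Kˣ := MonoidHom.toHomUnits
    { toFun := fun g => (q g).1 0 0
      map_one' := by rw [map_one, gl_one, Matrix.one_apply_eq]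
      map_mul' := fun g h => by rw [hmul, h10, mul_zero, add_zero] }
  let d : G →* Kˣ := MonoidHom.toHomUnits
    { toFun := fun g => (q g).1 1 1
      map_one' := by rw [map_one, gl_one, Matrix.one_apply_eq]
      map_mul' := fun g h => by rw [hmul, h10 g, zero_mul, zero_add] }
  have ha : ∀ g, (a g : K) = (q g).1 0 0 := fun g => rfl
  have hd : ∀ g, (d g : K) = (q g).1 1 1 := fun g => rfl
  have hdne : ∀ g, (d g : K) ≠ 0 := fun g => Units.ne_zero _
  have hane : ∀ g, (a g : K) ≠ 0 := fun g => Units.ne_zero _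
  let χ : G →* Kˣ := a / d
  have hχ : ∀ g, (χ g : K) = a g / d g := fun g => by
    show ((a g / d g : Kˣ) : K) = _
    rw [Units.val_div_eq_div_val]
  let β : G → K := fun g => (q g).1 0 1 / d g
  have hβ : ∀ g h, β (g * h) = χ g * β h + β g := by
    intro g h
    show (q (g * h)).1 0 1 / (d (g * h) : K) = χ g * ((q h).1 0 1 / d h) + (q g).1 0 1 / d g
    rw [hχ, hmul, map_mul, Units.val_mul, ha, ← hd h]
    have h1 := hdne g
    have h2 := hdne h
    field_simp
  have hχa : ∀ g, IsAlgebraic ℤ (χ g : K) := by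
    intro g
    refine alg_quad _ (Units.ne_zero _) ?_
    have h1 := hq g
    rw [Matrix.trace_fin_two, Matrix.det_fin_two, h10, mul_zero, sub_zero, ← ha, ← hd] at h1
    have h2 : ((χ g : K) + 1) ^ 2 / χ g = ((a g : K) + d g) ^ 2 / (a g * d g) := by
      rw [hχ]
      have h3 := hdne g
      have h4 := hane g
      field_simp
    rw [h2]
    exact h1
  obtain ⟨χ', β', hβ', hχ', hβ0⟩ := hAf K G χ β hβ hχa
  obtain ⟨d', hd'⟩ := char_emb hSp hTh d
  let M : G →* Matrix (Fin 2) (Fin 2) (AlgebraicClosure ℚ) :=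
    { toFun := fun g => !![(χ' g : AlgebraicClosure ℚ) * d' g, β' g * d' g; 0, d' g]
      map_one' := by
        have h1 : β' 1 = 0 := (hβ0 1).2 (by
          show (q 1).1 0 1 / _ = 0
          rw [map_one, gl_one, Matrix.one_apply_ne (by decide), zero_div])
        rw [map_one, map_one, h1, Matrix.one_fin_two]
        simp
      map_mul' := fun g h => by
        rw [map_mul, map_mul, hβ', Units.val_mul, Units.val_mul]
        ext i j
        fin_cases i <;> fin_cases j <;> simp [Matrix.mul_apply, Fin.sum_univ_two] <;> ring }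
  have hM : ∀ g, M g = !![(χ' g : AlgebraicClosure ℚ) * d' g, β' g * d' g; 0, d' g] :=
    fun g => rfl
  refine ⟨M.toHomUnits, fun g => ?_⟩
  have e1 : (M.toHomUnits g = 1) ↔ (M g = 1) := by
    constructor
    · intro h
      exact congrArg Units.val h
    · intro h
      exact Units.ext h
  rw [e1, hM, Matrix.one_fin_two]
  constructor
  · intro h
    have h11 : (d' g : AlgebraicClosure ℚ) = 1 := by
      simpa using congrArg (fun X : Matrix (Fin 2) (Fin 2) (AlgebraicClosure ℚ) => X 1 1) h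
    have h00 : (χ' g : AlgebraicClosure ℚ) * d' g = 1 := by
      simpa using congrArg (fun X : Matrix (Fin 2) (Fin 2) (AlgebraicClosure ℚ) => X 0 0) h
    have h01 : β' g * d' g = 0 := by
      simpa using congrArg (fun X : Matrix (Fin 2) (Fin 2) (AlgebraicClosure ℚ) => X 0 1) h
    rw [h11, mul_one] at h00 h01
    have f1 : d g = 1 := (hd' g).1 (Units.ext h11)
    have f2 : χ g = 1 := (hχ' g).1 (Units.ext h00)
    have f3 : β g = 0 := (hβ0 g).1 h01
    have f4 : (a g : K) = 1 := by
      have h5 := hχ g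
      rw [f2, f1, Units.val_one, div_one] at h5
      exact h5.symm
    have f5 : (q g).1 0 1 = 0 := by
      have h5 : (q g).1 0 1 / (d g : K) = 0 := f3
      rwa [f1, Units.val_one, div_one] at h5
    refine gl_ext fun i j => ?_
    rw [gl_one]
    fin_cases i <;> fin_cases j
    · exact f4.trans (Matrix.one_apply_eq _).symm
    · exact f5.trans (Matrix.one_apply_ne (by decide)).symm
    · exact (h10 g).trans (Matrix.one_apply_ne (by decide)).symm
    · have h5 := congrArg (fun x : Kˣ => (x : K)) f1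
      exact h5.trans (Matrix.one_apply_eq _).symm
  · intro h
    have f1 : d g = 1 := Units.ext (by rw [hd, h, gl_one, Matrix.one_apply_eq, Units.val_one])
    have f0 : a g = 1 := Units.ext (by rw [ha, h, gl_one, Matrix.one_apply_eq, Units.val_one])
    have f2 : χ g = 1 := by
      show a g / d g = 1
      rw [f0, f1, div_one]
    have f3 : β g = 0 := by
      show (q g).1 0 1 / _ = 0
      rw [h, gl_one, Matrix.one_apply_ne (by decide), zero_div]
    rw [(hβ0 g).2 f3, (hχ' g).2 f2, (hd' g).2 f1, Units.val_one, mul_one, zero_mul]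

/-- Finitely generated groups of matrices such that `tr(h)² / det(h)` is algebraic for all elements
`h` are isomorphic to groups of matrices over the algebraic numbers. -/
theorem emb' (hSp : SpecStatement.{u}) (hTh : ThetaStatement.{u}) (hAf : AffStatement.{u})
    {K : Type u} [Field K] [CharZero K] {G : Type u} [Group G] [hfg : Group.FG G]
    (q : G →* GL (Fin 2) K)
    (hq : ∀ h, IsAlgebraic ℤ ((q h).1.trace ^ 2 / (q h).1.det)) :
    ∃ q' : G →* GL (Fin 2) (AlgebraicClosure ℚ), ∀ h, q' h = 1 ↔ q h = 1 := by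
  let L := AlgebraicClosure K
  have hcz : CharZero L := charZero_of_injective_algebraMap (algebraMap K L).injective
  let q1 : G →* GL (Fin 2) L := (GeneralLinearGroup.map (algebraMap K L)).comp q
  have h0 : ∀ g i j, (q1 g).1 i j = algebraMap K L ((q g).1 i j) := fun g i j => rfl
  have h1 : ∀ g, q1 g = 1 ↔ q g = 1 := by
    intro g
    constructor
    · intro h
      exact map_inj (algebraMap K L) (h.trans (map_one _).symm)
    · intro h
      show GeneralLinearGroup.map (algebraMap K L) (q g) = 1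
      rw [h, map_one]
  have h2 : ∀ g, (q1 g).1.trace ^ 2 / (q1 g).1.det =
      algebraMap K L ((q g).1.trace ^ 2 / (q g).1.det) := by
    intro g
    rw [map_div₀, map_pow, Matrix.trace_fin_two, Matrix.trace_fin_two, Matrix.det_fin_two,
      Matrix.det_fin_two, map_sub, map_mul, map_mul, map_add, h0, h0, h0, h0]
  have h3 : ∀ g, IsAlgebraic ℤ ((q1 g).1.trace ^ 2 / (q1 g).1.det) := by
    intro g
    rw [h2]
    exact isAlg_map (algebraMap K L) (hq g)
  rcases emb hSp hTh q1 h3 with ⟨P, hP⟩ | ⟨q', hq'⟩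
  · let q2 : G →* GL (Fin 2) L := (MulAut.conj P⁻¹).toMonoidHom.comp q1
    have e2 : ∀ g, q2 g = P⁻¹ * q1 g * P := fun g => by
      show P⁻¹ * q1 g * P⁻¹⁻¹ = _
      rw [inv_inv]
    have htr : ∀ s, (q2 s).1.trace = (q1 s).1.trace := fun s => by
      rw [e2, Units.val_mul, Matrix.trace_mul_comm, ← Units.val_mul, mul_inv_cancel_left]
    have hdt : ∀ s, (q2 s).1.det = (q1 s).1.det := fun s => by
      rw [e2, Units.val_mul, Matrix.det_mul, Units.val_mul, Matrix.det_mul, mul_comm,
        ← mul_assoc, ← Matrix.det_mul, ← Units.val_mul, mul_inv_cancel, Units.val_one,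
        Matrix.det_one, one_mul]
    obtain ⟨q', hq'⟩ := tri_emb hSp hTh hAf q2 (fun g => by rw [e2]; exact hP g)
      (fun g => by rw [htr, hdt]; exact h3 g)
    refine ⟨q', fun g => (hq' g).trans ?_⟩
    rw [← h1]
    constructor
    · intro h
      exact MulEquiv.injective (MulAut.conj P⁻¹) (h.trans (map_one _).symm)
    · intro h
      rw [e2, h, mul_one, inv_mul_cancel]
  · exact ⟨q', fun g => (hq' g).trans (h1 g)⟩

/-- The subgroups with a homomorphism to matrices over the algebraic numbers with the same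
kernel. -/
def QEmb {K : Type u} [Field K] {Γ : Type u} [Group Γ] (ψ : Γ →* GL (Fin 2) K)
    (H : Subgroup Γ) : Prop :=
  H.FG ∧ ∃ ψ' : H →* GL (Fin 2) (AlgebraicClosure ℚ), ∀ h, ψ' h = 1 ↔ ψ h.1 = 1

/-- Generation by finitely generated subgroups. -/
theorem fg_gen (G : Type u) [Group G] (k : Type u) [Ring k] :
    ⨆ H : {H : Subgroup G // H.FG}, img k H.1 = ⊤ :=
  ER71.gen_loc k _ fun S => ⟨Subgroup.closure (S : Set G),
    fun s hs => Subgroup.subset_closure hs,
    le_iSup (fun H : {H : Subgroup G // H.FG} => img k H.1) ⟨_, ⟨S, rfl⟩⟩⟩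

/-- C0+. Let `A` be a commutative ring of positive characteristic, `K` a field of characteristic
`0` and `(φ, ψ) : Γ → GL₂(A) × GL₂(K)` a homomorphism with torsionfree image such that all groups
which embed into its kernel are in `𝒩`. Then `K₀(k[Γ])` is generated by the images of the
`K₀(k[H])`, `H` a finitely generated subgroup with a homomorphism to `GL₂(ℚ̄)` with the kernel of
`ψ`. -/
theorem c1 (hI : ItStatement.{u}) (hSp : SpecStatement.{u}) (hTh : ThetaStatement.{u})
    (hAf : AffStatement.{u}) (A : Type u) [CommRing A] (N : ℕ) (hN : 0 < N)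
    (hA : (N : A) = 0) (K : Type u) [Field K] [CharZero K]
    (Γ : Type u) [Group Γ] (φ : Γ →* GL (Fin 2) A) (ψ : Γ →* GL (Fin 2) K)
    (htf : ∀ (g : Γ) (n : ℕ), 0 < n → φ g ^ n = 1 → ψ g ^ n = 1 → φ g = 1 ∧ ψ g = 1)
    (hker : ∀ (H : Type u) [Group H] (f : H →* Γ), Function.Injective f →
      (∀ h, φ (f h) = 1 ∧ ψ (f h) = 1) → InN H)
    (k : Type u) [Ring k] (hk : RegularRing k) :
    ⨆ H : {H : Subgroup Γ // QEmb ψ H}, img k H.1 = ⊤ := by
  rw [eq_top_iff, ← c0 hI A N hN hA K Γ φ ψ htf hker k hk]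
  refine iSup_le fun H => ?_
  refine ER71.img_gen (fun G : {G : Subgroup H.1 // G.FG} => G.1) k (fg_gen H.1 k) _ fun G => ?_
  have hfg0 : (G.1.map H.1.subtype : Subgroup Γ).FG := by
    classical
    obtain ⟨S, hS⟩ := G.2
    exact ⟨S.image H.1.subtype, by rw [Finset.coe_image, ← MonoidHom.map_closure, hS]⟩
  refine le_iSup (fun H : {H : Subgroup Γ // QEmb ψ H} => img k H.1) ⟨G.1.map H.1.subtype,
    hfg0, ?_⟩
  have hfg : Group.FG (G.1.map H.1.subtype : Subgroup Γ) :=
    (Group.fg_iff_subgroup_fg _).2 hfg0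
  obtain ⟨q', hq'⟩ := emb' hSp hTh hAf (ψ.comp (G.1.map H.1.subtype).subtype) (fun h => by
    obtain ⟨g, _, hg⟩ := h.2
    have h1 := H.2 g.1 g.2
    have h2 : (ψ.comp (G.1.map H.1.subtype).subtype) h = ψ g.1 := by
      show ψ h.1 = _
      rw [← hg]
      rfl
    rw [h2]
    exact h1)
  exact ⟨q', hq'⟩

end Pool.Agent.NegK.NT5
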