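import Pool.Agent.Lib.MP_28303a_al.NT5.C1
import Pool.Agent.Lib.MP_28303a_al.NT.ER71.It
import Pool.Agent.Lib.MP_28303a_al.NT.H58.Aff
import Pool.Agent.Lib.MP_28303a_al.NT.H70.Spec
import Pool.Agent.Lib.MP_28303a_al.NT.H70.Theta
import Pool.Agent.Lib.MP_28303a_al.NT.H80.Block

/-! # Groups of matrices of degree two over fields of characteristic `0` -/

set_option autoImplicit false
set_option linter.unusedSectionVars false
set_option linter.unusedVariables false

namespace Pool.Agent.NegK.NT5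

universe u

open Matrix
open Pool.Agent.NegK.TW
open Pool.Agent.NegK.TT
open Pool.Agent.NegK.NT

/-- Finitely generated groups of matrices such that `tr(h)² / det(h)` is algebraic for all elements
`h` are isomorphic to groups of matrices over the algebraic numbers. -/
theorem emb_all {K : Type u} [Field K] [CharZero K] {G : Type u} [Group G] [Group.FG G]
    (q : G →* GL (Fin 2) K)
    (hq : ∀ h, IsAlgebraic ℤ ((q h).1.trace ^ 2 / (q h).1.det)) :
    ∃ q' : G →* GL (Fin 2) (AlgebraicClosure ℚ), ∀ h, q' h = 1 ↔ q h = 1 :=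
  emb' (fun L _ _ E hE => H70.spec L E hE) (fun G _ _ s hs => H70.theta G s hs)
    (fun K _ _ G _ _ χ β h1 h2 => H58.aff χ β h1 h2) q hq

/-- Let `A` be a commutative ring of positive characteristic, `K` a field of characteristic `0` and
`χ : Γ → GLₙ(A) × GL₂(K)` a homomorphism with torsionfree image and kernel in `𝒩` such that the
first components of `χ` are block triangular with blocks of size at most `2`. Then for all regular
rings `R` and `i ≥ 0` the group `K₋ᵢ(R[Γ])` is generated by the images of the groups `K₋ᵢ(R[H])`,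
`H` a finitely generated subgroup with a homomorphism to `GL₂(ℚ̄)` with the kernel of the second
component of `χ`. -/
theorem linear_zero (A : Type u) [CommRing A] (N : ℕ) (hN : 0 < N) (hA : (N : A) = 0) {n : ℕ}
    (b : Fin n → ℕ) (hb : ∀ k, (Finset.univ.filter fun i => b i = k).card ≤ 2)
    (K : Type u) [Field K] [CharZero K] (Γ : Type u) [Group Γ]
    (χ : Γ →* GL (Fin n) A × GL (Fin 2) K)
    (htri : ∀ g, ((χ g).1 : Matrix (Fin n) (Fin n) A).BlockTriangular b)
    (htf : TorsionFree χ.range) (hker : InN χ.ker) (R : Type u) [Ring R] (hR : RegularRing R)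
    (i : ℕ) :
    ⨆ H : {H : Subgroup Γ // H.FG ∧ ∃ ψ' : H →* GL (Fin 2) (AlgebraicClosure ℚ),
      ∀ h, ψ' h = 1 ↔ (χ h.1).2 = 1}, ((KNegFun i).hom (mdr R H.1.subtype)).range = ⊤ := by
  obtain ⟨r, φ, hφ', hφ⟩ := H80.exists_diag hN hA b hb ((MonoidHom.fst _ _).comp χ) htri
  have key : ∀ g (m : ℕ), 0 < m → χ g ^ m = 1 → χ g = 1 := fun g m hm h =>
    congrArg Subtype.val (htf ⟨χ g, g, rfl⟩ m hm (Subtype.ext h))
  have hA' : (N : Fin r → A) = 0 := funext fun i => hA
  refine ER71.kneg_of_gen (QEmb ((MonoidHom.snd _ _).comp χ)) (fun k _ hk => ?_) i R hR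
  refine c1 ER71.itAll (fun L _ _ E hE => H70.spec L E hE) (fun G _ _ s hs => H70.theta G s hs)
    (fun K _ _ G _ _ χ β h1 h2 => H58.aff χ β h1 h2) (Fin r → A) N hN hA' K Γ φ
    ((MonoidHom.snd _ _).comp χ) (fun g m hm h1 h2 => ?_) (fun H _ f hf h => ?_) k hk
  · obtain ⟨m', hm', h3⟩ := hφ (g ^ m) (by rw [map_pow, h1])
    have h4 : χ g ^ (m * m') = 1 := by
      refine Prod.ext ?_ ?_
      · rw [Prod.pow_fst, pow_mul]
        rw [map_pow] at h3
        exact h3
      · have h5 : (χ g).2 ^ m = 1 := h2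
        rw [Prod.pow_snd, pow_mul, h5, one_pow]
        rfl
    have h5 := key g _ (Nat.mul_pos hm hm') h4
    exact ⟨hφ' g (congrArg Prod.fst h5), congrArg Prod.snd h5⟩
  · refine TT.H66.inN_of_injective (f.codRestrict χ.ker fun x => ?_)
      (fun a b hab => hf (congrArg Subtype.val hab)) hker
    obtain ⟨m', hm', h3⟩ := hφ (f x) (h x).1
    have h4 : (χ (f x)).2 = 1 := (h x).2
    exact key _ m' hm' (Prod.ext h3 (by rw [Prod.pow_snd, h4, one_pow]; rfl))

/-- Torsionfree groups of matrices of degree two over a field of characteristic `0`. -/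
theorem linear_two (K : Type u) [Field K] [CharZero K] (Γ : Type u) [Group Γ]
    (htf : TorsionFree Γ) (ψ : Γ →* GL (Fin 2) K) (hψ : Function.Injective ψ) (R : Type u)
    [Ring R] (hR : RegularRing R) (i : ℕ) :
    ⨆ H : {H : Subgroup Γ // H.FG ∧ ∃ ψ' : H →* GL (Fin 2) (AlgebraicClosure ℚ),
      Function.Injective ψ'}, ((KNegFun i).hom (mdr R H.1.subtype)).range = ⊤ := by
  refine ER71.kneg_of_gen (fun H : Subgroup Γ => H.FG ∧
    ∃ ψ' : H →* GL (Fin 2) (AlgebraicClosure ℚ), Function.Injective ψ') (fun k _ hk => ?_) i R hR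
  have h1 := c1 ER71.itAll (fun L _ _ E hE => H70.spec L E hE)
    (fun G _ _ s hs => H70.theta G s hs) (fun K _ _ G _ _ χ β h1 h2 => H58.aff χ β h1 h2)
    PUnit.{u + 1} 1 one_pos (Subsingleton.elim _ _) K Γ 1 ψ (fun g m hm _ h2 => ?_)
    (fun H _ f hf h => ?_) k hk
  · rw [eq_top_iff, ← h1]
    refine iSup_le fun H => ?_
    obtain ⟨hfg, ψ', h2⟩ := H.2
    refine le_trans ?_ (le_iSup (fun H : {H : Subgroup Γ // H.FG ∧
      ∃ ψ' : H →* GL (Fin 2) (AlgebraicClosure ℚ), Function.Injective ψ'} => img k H.1)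
      ⟨H.1, hfg, ψ', ?_⟩)
    · exact le_rfl
    · refine (injective_iff_map_eq_one ψ').2 fun h hh => ?_
      have h3 := (h2 h).1 hh
      exact Subtype.ext (hψ (h3.trans (map_one ψ).symm))
  · rw [← map_pow] at h2
    have h3 := htf g m hm (hψ (h2.trans (map_one ψ).symm))
    exact ⟨rfl, by rw [h3, map_one]⟩
  · exact inN_of_subsingleton H fun x => hf ((hψ ((h x).2.trans (map_one ψ).symm)).trans
      (map_one f).symm)

end Pool.Agent.NegK.NT5
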