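import Pool.Agent.Lib.MP_28303a_al.NT5.Tree2

/-! # Torsionfree subgroups of `GL₂(ℤ)` -/

set_option autoImplicit false

namespace Pool.Agent.NegK.NT5

universe u

open Matrix

namespace Fm

theorem det_cases (g : GL (Fin 2) ℤ) :
    (g.1 0 0 * g.1 1 1 - g.1 0 1 * g.1 1 0) ^ 2 = (1 : ℤ) := by
  have h1 : IsUnit g.1.det := (Matrix.isUnit_iff_isUnit_det _).1 g.isUnit
  rw [Matrix.det_fin_two] at h1
  rcases Int.isUnit_iff.1 h1 with h | h <;> rw [h] <;> norm_num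

/-- The form with the matrix `g * Q * gᵀ`. -/
def actG (g : GL (Fin 2) ℤ) (q : Fm) : Fm where
  a := q.a * g.1 0 0 ^ 2 + q.b * (g.1 0 0 * g.1 0 1) + q.c * g.1 0 1 ^ 2
  b := 2 * q.a * (g.1 0 0 * g.1 1 0) + q.b * (g.1 0 0 * g.1 1 1 + g.1 0 1 * g.1 1 0) +
    2 * q.c * (g.1 0 1 * g.1 1 1)
  c := q.a * g.1 1 0 ^ 2 + q.b * (g.1 1 0 * g.1 1 1) + q.c * g.1 1 1 ^ 2
  pos := by
    have hdet := det_cases g
    have h1 := q.pos
    have h2 := q.disc
    have h3 : 4 * q.a * (q.a * g.1 0 0 ^ 2 + q.b * (g.1 0 0 * g.1 0 1) + q.c * g.1 0 1 ^ 2) =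
        (2 * q.a * g.1 0 0 + q.b * g.1 0 1) ^ 2 + 3 * g.1 0 1 ^ 2 := by
      linear_combination (-(g.1 0 1 ^ 2 : ℤ)) * h2
    have h4 : 0 < (2 * q.a * g.1 0 0 + q.b * g.1 0 1) ^ 2 + 3 * (g.1 0 1 : ℤ) ^ 2 := by
      by_cases h5 : (g.1 0 1 : ℤ) = 0
      · have h6 : (g.1 0 0 : ℤ) ≠ 0 := by
          intro h7
          rw [h5, h7] at hdet
          norm_num at hdet
        have h7 : (2 * q.a * g.1 0 0 + q.b * g.1 0 1 : ℤ) ≠ 0 := by
          rw [h5, mul_zero, add_zero]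
          exact mul_ne_zero (mul_ne_zero two_ne_zero h1.ne') h6
        have h8 := pow_pos (abs_pos.2 h7) 2
        rw [sq_abs] at h8
        nlinarith [sq_nonneg (g.1 0 1 : ℤ)]
      · have h8 := pow_pos (abs_pos.2 h5) 2
        rw [sq_abs] at h8
        nlinarith [sq_nonneg (2 * q.a * g.1 0 0 + q.b * g.1 0 1 : ℤ)]
    rw [← h3] at h4
    by_contra h5
    nlinarith
  disc := by
    have hdet := det_cases g
    have h2 := q.disc
    linear_combination (g.1 0 0 * g.1 1 1 - g.1 0 1 * g.1 1 0 : ℤ) ^ 2 * h2 - 3 * hdet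

instance : MulAction (GL (Fin 2) ℤ) Fm where
  smul := actG
  one_smul q := by
    refine Fm.ext ?_ ?_ ?_
    · show q.a * (1 : Matrix (Fin 2) (Fin 2) ℤ) 0 0 ^ 2 + q.b * ((1 : Matrix (Fin 2) (Fin 2) ℤ) 0 0 *
        (1 : Matrix (Fin 2) (Fin 2) ℤ) 0 1) + q.c * (1 : Matrix (Fin 2) (Fin 2) ℤ) 0 1 ^ 2 = q.a
      simp
    · show 2 * q.a * ((1 : Matrix (Fin 2) (Fin 2) ℤ) 0 0 * (1 : Matrix (Fin 2) (Fin 2) ℤ) 1 0) +
        q.b * ((1 : Matrix (Fin 2) (Fin 2) ℤ) 0 0 * (1 : Matrix (Fin 2) (Fin 2) ℤ) 1 1 +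
        (1 : Matrix (Fin 2) (Fin 2) ℤ) 0 1 * (1 : Matrix (Fin 2) (Fin 2) ℤ) 1 0) +
        2 * q.c * ((1 : Matrix (Fin 2) (Fin 2) ℤ) 0 1 * (1 : Matrix (Fin 2) (Fin 2) ℤ) 1 1) = q.b
      simp
    · show q.a * (1 : Matrix (Fin 2) (Fin 2) ℤ) 1 0 ^ 2 + q.b * ((1 : Matrix (Fin 2) (Fin 2) ℤ) 1 0 *
        (1 : Matrix (Fin 2) (Fin 2) ℤ) 1 1) + q.c * (1 : Matrix (Fin 2) (Fin 2) ℤ) 1 1 ^ 2 = q.c
      simp
  mul_smul g h q := by
    have e : ∀ i j, (g * h).1 i j = g.1 i 0 * h.1 0 j + g.1 i 1 * h.1 1 j := by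
      intro i j
      have h1 : (g * h).1 i j = ∑ k, g.1 i k * h.1 k j := rfl
      rw [h1, Fin.sum_univ_two]
    refine Fm.ext ?_ ?_ ?_
    · show q.a * (g * h).1 0 0 ^ 2 + q.b * ((g * h).1 0 0 * (g * h).1 0 1) +
        q.c * (g * h).1 0 1 ^ 2 = (actG g (actG h q)).a
      rw [e, e]
      simp only [actG]
      ring
    · show 2 * q.a * ((g * h).1 0 0 * (g * h).1 1 0) + q.b * ((g * h).1 0 0 * (g * h).1 1 1 +
        (g * h).1 0 1 * (g * h).1 1 0) + 2 * q.c * ((g * h).1 0 1 * (g * h).1 1 1) =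
        (actG g (actG h q)).b
      rw [e, e, e, e]
      simp only [actG]
      ring
    · show q.a * (g * h).1 1 0 ^ 2 + q.b * ((g * h).1 1 0 * (g * h).1 1 1) +
        q.c * (g * h).1 1 1 ^ 2 = (actG g (actG h q)).c
      rw [e, e]
      simp only [actG]
      ring

theorem P_smulG (g : GL (Fin 2) ℤ) (q q' : Fm) : P (g • q) (g • q') = P q q' := by
  have hdet := det_cases g
  show P (actG g q) (actG g q') = P q q'
  unfold P
  simp only [actG]
  linear_combination (2 * (q.a * q'.c + q.c * q'.a) - q.b * q'.b) * hdet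

theorem order_fixG {g : GL (Fin 2) ℤ} {q : Fm} (h : g • q = q) :
    ∃ n : ℕ, 0 < n ∧ g ^ n = 1 := by
  have hd : (g.1 * g.1).det = 1 := by
    have h1 := det_cases g
    rw [Matrix.det_mul, Matrix.det_fin_two, ← sq]
    exact h1
  obtain ⟨n, hn, h1⟩ := order_fix (g := ⟨g.1 * g.1, hd⟩) (q := q) (by
    have h2 : (g * g) • q = q := by rw [mul_smul, h, h]
    exact h2)
  refine ⟨2 * n, by omega, ?_⟩
  rw [pow_mul]
  refine Units.ext ?_
  have h2 := congrArg Subtype.val h1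
  rw [Matrix.SpecialLinearGroup.coe_pow] at h2
  rw [Units.val_pow_eq_pow_val, pow_two]
  exact h2

end Fm

open Pool.Agent.NegK.TW Pool.Agent.NegK.TT

/-- Torsionfree groups with an embedding in `GL₂(ℤ)` are regular coherent. -/
theorem inRC_gl2z (H : Type u) [Group H] (htf : TorsionFree H)
    (φ : H →* GL (Fin 2) ℤ) (hφ : Function.Injective φ) : InRC H := by
  let i : MulAction H (ULift.{u} Fm) :=
    { smul := fun h q => ⟨φ h • q.down⟩
      one_smul := fun q => ULift.ext _ _ (by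
        show φ 1 • q.down = q.down
        rw [map_one, one_smul])
      mul_smul := fun h h' q => ULift.ext _ _ (by
        show φ (h * h') • q.down = φ h • φ h' • q.down
        rw [map_mul, mul_smul]) }
  have hfix : ∀ (h : H) (q : ULift.{u} Fm), h • q = q → h = 1 := by
    intro h q hq
    obtain ⟨n, hn, h1⟩ := Fm.order_fixG (g := φ h) (q := q.down) (congrArg ULift.down hq)
    refine htf h n hn (hφ ?_)
    rw [map_pow, h1, map_one]
  have htr : TreeAct H grf.{u} := by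
    refine ⟨grf_isTree, fun h q q' hq => ?_, fun h q q' hq hc => ?_⟩
    · show Fm.P (φ h • q.down) (φ h • q'.down) = 5
      rw [Fm.P_smulG]
      exact hq
    · have h1 : (h * h) • q = q := by rw [mul_smul, hc.1, hc.2]
      have h2 : h = 1 := htf h 2 two_pos (by rw [pow_two]; exact hfix _ q h1)
      rw [h2, one_smul] at hc
      rw [hc.1] at hq
      exact grf.loopless.irrefl _ hq
  exact H66.wald H _ grf htr
    (fun q => inRC_of_inN (inN_of_subsingleton _ fun g => Subtype.ext (hfix g.1 q g.2)))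
    fun q q' _ => inN_of_subsingleton _ fun g => Subtype.ext (hfix g.1 q g.2.1)

end Pool.Agent.NegK.NT5
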