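import Pool.Agent.Lib.MP_28303a_al.NT5.Ent
import Pool.Agent.Lib.MP_28303a_al.NT5.Tree3
import Pool.Agent.Lib.MP_28303a_al.TT.Main4
import Pool.Agent.Lib.MP_28303a_al.NT.H22.Stab2
import Pool.Agent.Lib.MP_28303a_al.NT92.Ker

/-! # Groups with a homomorphism to `GL₂(A) × GL₂(K)`, `A` a commutative ring of positive
characteristic, `K` a field of rational functions over `ℚ`, with torsionfree image -/

set_option autoImplicit false
set_option linter.unusedSectionVars false
set_option linter.unusedVariables false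

namespace Pool.Agent.NegK.NT5

universe u

open Matrix WithZero
open Pool.Agent.NegK.TW
open Pool.Agent.NegK.TT
open Pool.Agent.NegK.NT
open H1 (TD)
open NT92 (TreesRC)

/-- All groups which embed into `G` with an image of elements with the property `P` are in `𝒩`
and in `𝒞`. -/
def Kr (𝒞 : (G : Type u) → [Group G] → Prop) (G : Type u) [Group G] (P : G → Prop) : Prop :=
  ∀ (H : Type u) [Group H] (f : H →* G), Function.Injective f → (∀ h, P (f h)) → InN H ∧ 𝒞 H

/-- Groups with a homomorphism to `ℤⁿ`. -/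
theorem inN_zn' : ∀ (n : ℕ) (G : Type u) [Group G] (θ : G →* Multiplicative (Fin n → ℤ)),
    (∀ (H : Type u) [Group H] (f : H →* G), Function.Injective f → (∀ h, θ (f h) = 1) → InN H) →
    InN G := by
  intro n
  induction n with
  | zero =>
    intro G _ θ h
    exact h G (MonoidHom.id G) Function.injective_id fun g => Subsingleton.elim _ _
  | succ n ih =>
    intro G _ θ h
    let f : G →* Multiplicative ℤ :=
      (AddMonoidHom.toMultiplicative (Pi.evalAddMonoidHom (fun _ : Fin (n + 1) => ℤ) 0)).comp θ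
    refine H73.inN_ext G f ?_
    let s : (Fin (n + 1) → ℤ) →+ (Fin n → ℤ) :=
      { toFun := fun x i => x i.succ
        map_zero' := rfl
        map_add' := fun _ _ => rfl }
    refine ih f.ker (((AddMonoidHom.toMultiplicative s).comp θ).comp f.ker.subtype) ?_
    intro H _ e he hh
    refine h H (f.ker.subtype.comp e) (Subtype.val_injective.comp he) fun x => ?_
    have h1 : Multiplicative.toAdd (θ (e x).1) 0 = 0 := by
      have := (e x).2
      rw [MonoidHom.mem_ker] at this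
      exact congrArg Multiplicative.toAdd this
    have h2 : ∀ i : Fin n, Multiplicative.toAdd (θ (e x).1) i.succ = 0 := fun i =>
      congrFun (congrArg Multiplicative.toAdd (hh x)) i
    apply Multiplicative.toAdd.injective
    funext i
    exact Fin.cases h1 h2 i

/-- Finitely generated torsionfree commutative groups. -/
theorem exists_zn (G : Type u) [Group G] [hfg : Group.FG G] (hc : ∀ a b : G, a * b = b * a)
    (htf : TorsionFree G) :
    ∃ (n : ℕ) (θ : G →* Multiplicative (Fin n → ℤ)), Function.Injective θ := by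
  let i : CommGroup G :=
    { (inferInstance : Group G) with
      mul_comm := hc }
  have hfa : AddGroup.FG (Additive G) := inferInstance
  have hmf : Module.Finite ℤ (Additive G) := Module.Finite.iff_addGroup_fg.2 hfa
  have hat : IsAddTorsionFree (Additive G) := by
    refine ⟨fun n hn a b hab => ?_⟩
    have h1 : n • (a - b) = 0 := by
      rw [smul_sub]
      exact sub_eq_zero.2 hab
    have h2 : (Additive.toMul (a - b) : G) ^ n = 1 := congrArg Additive.toMul h1
    have h4 := htf _ n (Nat.pos_of_ne_zero hn) h2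
    have h5 : a - b = 0 := Additive.toMul.injective h4
    exact sub_eq_zero.1 h5
  obtain ⟨n, b⟩ := Module.basisOfFiniteTypeTorsionFree' (R := ℤ) (M := Additive G)
  exact ⟨n, AddMonoidHom.toMultiplicativeRight (b.equivFun.toLinearMap.toAddMonoidHom),
    b.equivFun.injective⟩

/-- Any finite index set. -/
theorem trees_fin {𝒞 : (G : Type u) → [Group G] → Prop} (h : TreesRC 𝒞) (Γ : Type u)
    [Group Γ] (ι : Type) [Finite ι] (T : ι → TD Γ)
    (hR : ∀ H : Subgroup Γ, (∀ g ∈ H, ∀ a, (T a).Ell g) → InRC H ∧ 𝒞 H) : 𝒞 Γ := by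
  have := Fintype.ofFinite ι
  let e := Fintype.equivFin ι
  let Y : Trees Γ := ⟨Fintype.card ι, fun j => (T (e.symm j)).V, fun j => (T (e.symm j)).act,
    fun j => (T (e.symm j)).G, fun j => (T (e.symm j)).tree⟩
  have key : ∀ v, InRC (Y.st v) ∧ 𝒞 (Y.st v) := fun v => hR _ fun g hg a => by
    have h1 : (T (e.symm (e a))).Ell g := ⟨v (e a), (Subgroup.mem_iInf.1 hg) (e a)⟩
    rwa [e.symm_apply_apply] at h1
  exact h Γ Y (fun v => (key v).1) fun v => (key v).2

/-- Extensions of finitely generated free commutative groups. -/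
theorem zn_ext {𝒞 : (G : Type u) → [Group G] → Prop} (hT : TreesRC 𝒞) (G : Type u) [Group G]
    (n : ℕ) (θ : G →* Multiplicative (Fin n → ℤ)) (hk : Kr 𝒞 G fun g => θ g = 1) :
    InN G ∧ 𝒞 G := by
  refine ⟨inN_zn' n G θ fun H _ f hf h => (hk H f hf h).1, ?_⟩
  choose T hT' using fun i : Fin n => H1.exists_TD_line G
    ((AddMonoidHom.toMultiplicative (Pi.evalAddMonoidHom (fun _ : Fin n => ℤ) i)).comp θ)
  refine trees_fin hT G (Fin n) T fun H hH => ?_
  have h1 := hk H H.subtype Subtype.val_injective fun h => by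
    apply Multiplicative.toAdd.injective
    funext i
    exact congrArg Multiplicative.toAdd (hT' i h.1 (hH h.1 h.2 i))
  exact ⟨inRC_of_inN h1.1, h1.2⟩

/-- Extensions of torsionfree commutative groups. -/
theorem comm_ext {𝒞 : (G : Type u) → [Group G] → Prop} (hU : H66.ClosedLoc 𝒞) (hT : TreesRC 𝒞)
    (G Q : Type u) [Group G] [Group Q] (q : G →* Q) (hc : ∀ a b : Q, a * b = b * a)
    (htf : TorsionFree Q) (hk : Kr 𝒞 G fun g => q g = 1) : InRC G ∧ 𝒞 G := by
  have key : ∀ S : Finset G, InN (Subgroup.closure (S : Set G)) ∧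
      𝒞 (Subgroup.closure (S : Set G)) := by
    intro S
    let q0 : Subgroup.closure (S : Set G) →* Q := q.comp (Subgroup.subtype _)
    have hfg : Group.FG q0.range := inferInstance
    obtain ⟨n, θ, hθ⟩ := exists_zn q0.range
      (fun a b => Subtype.ext (hc a.1 b.1))
      fun g n hn h => Subtype.ext (htf g.1 n hn (congrArg Subtype.val h))
    refine zn_ext hT _ n (θ.comp q0.rangeRestrict) fun H _ f hf h => ?_
    refine hk H ((Subgroup.subtype _).comp f) (Subtype.val_injective.comp hf) fun x => ?_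
    have h1 : q0.rangeRestrict (f x) = 1 := hθ ((h x).trans (map_one θ).symm)
    exact congrArg Subtype.val h1
  exact ⟨((main.{u}).2.2.2.1 G).2.2.2.2.2.1 fun S => ⟨Subgroup.closure (S : Set G),
      fun s hs => Subgroup.subset_closure hs, inRC_of_inN (key S).1⟩,
    hU G fun S => ⟨Subgroup.closure (S : Set G),
      fun s hs => Subgroup.subset_closure hs, (key S).2⟩⟩

/-- Extensions of torsionfree subgroups of `GL₂(ℤ)`. -/
theorem gl2z_ext {𝒞 : (G : Type u) → [Group G] → Prop} (hT : TreesRC 𝒞)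
    (G : Type u) [Group G] (q : G →* GL (Fin 2) ℤ)
    (htf : ∀ (g : G) (n : ℕ), 0 < n → q g ^ n = 1 → q g = 1)
    (hk : Kr 𝒞 G fun g => q g = 1) : InRC G ∧ 𝒞 G := by
  let i : MulAction G (ULift.{u} Fm) :=
    { smul := fun h x => ⟨q h • x.down⟩
      one_smul := fun x => ULift.ext _ _ (by
        show q 1 • x.down = x.down
        rw [map_one, one_smul])
      mul_smul := fun h h' x => ULift.ext _ _ (by
        show q (h * h') • x.down = q h • q h' • x.down
        rw [map_mul, mul_smul]) }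
  have hfix : ∀ (h : G) (x : ULift.{u} Fm), h • x = x → q h = 1 := by
    intro h x hx
    obtain ⟨n, hn, h1⟩ := Fm.order_fixG (g := q h) (q := x.down) (congrArg ULift.down hx)
    exact htf h n hn h1
  have htr : TreeAct G grf.{u} := by
    refine ⟨grf_isTree, fun h x y hx => ?_, fun h x y hx hc => ?_⟩
    · show Fm.P (q h • x.down) (q h • y.down) = 5
      rw [Fm.P_smulG]
      exact hx
    · have h1 : (h * h) • x = x := by rw [mul_smul, hc.1, hc.2]
      have h2 : q h = 1 := htf h 2 two_pos (by rw [pow_two, ← map_mul]; exact hfix _ x h1)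
      have h3 : h • x = x := ULift.ext _ _ (by
        show q h • x.down = x.down
        rw [h2, one_smul])
      rw [← hc.1, h3] at hx
      exact grf.loopless.irrefl _ hx
  have hst : ∀ x : ULift.{u} Fm, InN (MulAction.stabilizer G x) ∧
      𝒞 (MulAction.stabilizer G x) := fun x =>
    hk _ (Subgroup.subtype _) Subtype.val_injective fun g => hfix g.1 x g.2
  refine ⟨H66.wald G _ grf htr (fun x => inRC_of_inN (hst x).1) fun x y _ =>
    (hk _ (MulAction.stabilizer G x ⊓ MulAction.stabilizer G y).subtype Subtype.val_injective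
      fun g => hfix g.1 x g.2.1).1, ?_⟩
  refine trees_fin hT G Unit (fun _ => ⟨ULift.{u} Fm, i, grf, htr⟩) fun H hH => ?_
  have h1 := hk H H.subtype Subtype.val_injective fun h => by
    obtain ⟨x, hx⟩ := hH h.1 h.2 ()
    exact hfix h.1 x hx
  exact ⟨inRC_of_inN h1.1, h1.2⟩

/-- Finitely generated groups `Γ` with homomorphisms `φ : Γ → GL₂(A)` and `ψ : Γ → GL₂(K)`: `A` is a
commutative ring of positive characteristic, `K` is a field of characteristic `0`, the entries of
`ψ g` are in a subring `B` of `K`, there are finitely many discrete valuations of `K` such that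
the elements of `B` which are integral for all of them are in `ℤ`, and torsionfree groups of
matrices with integral traces and determinants `1`, `-1` are commutative or embed into `GL₂(ℤ)`. -/
theorem gl2_fg {𝒞 : (G : Type u) → [Group G] → Prop} (hU : H66.ClosedLoc 𝒞) (hT : TreesRC 𝒞)
    (A : Type u) [CommRing A] (N : ℕ) (hN : 0 < N) (hA : (N : A) = 0)
    (K : Type u) [Field K] [CharZero K] (B : Subring K)
    (hval : ∃ (m : ℕ) (v : Fin m → Valuation K (WithZero (Multiplicative ℤ))),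
      ∀ a ∈ B, (∀ i, v i a ≤ 1) → ∃ z : ℤ, a = (z : K))
    (hstab : ∀ (H : Type u) [Group H] (_ : TorsionFree H) (φ : H →* GL (Fin 2) K)
      (_ : Function.Injective φ) (_ : ∀ h i j, (φ h).1 i j ∈ B)
      (_ : ∀ h, ∃ z : ℤ, Matrix.trace (φ h).1 = (z : K))
      (_ : ∀ h, Matrix.det (φ h).1 = 1 ∨ Matrix.det (φ h).1 = -1),
      (∀ x y : H, x * y = y * x) ∨ ∃ ψ : H →* GL (Fin 2) ℤ, Function.Injective ψ)
    (Γ : Type u) [Group Γ] [Group.FG Γ] (φ : Γ →* GL (Fin 2) A) (ψ : Γ →* GL (Fin 2) K)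
    (hB : ∀ g i j, (ψ g).1 i j ∈ B)
    (htf : ∀ (g : Γ) (n : ℕ), 0 < n → φ g ^ n = 1 → ψ g ^ n = 1 → φ g = 1 ∧ ψ g = 1)
    (hker : Kr 𝒞 Γ fun g => φ g = 1 ∧ ψ g = 1) : 𝒞 Γ := by
  obtain ⟨ι, _, T, h⟩ := gl2_trees' A N hN hA Γ φ
  obtain ⟨m, v, hv⟩ := hval
  choose T1 hT1 using fun a => H1.exists_TD_gl K (v a)
  choose T2 hT2 using fun a => H1.exists_TD_line _ ((vdet (v a)).comp ψ)
  refine trees_fin hT _ ((Fin m ⊕ Fin m) ⊕ ι)
    (Sum.elim (Sum.elim (fun a => (T1 a).comp ψ) T2) T) fun H hH => ?_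
  -- the traces and determinants
  have hdet : ∀ g, Matrix.det (ψ g).1 ∈ B := by
    intro g
    rw [Matrix.det_fin_two]
    exact Subring.sub_mem _ (Subring.mul_mem _ (hB g 0 0) (hB g 1 1))
      (Subring.mul_mem _ (hB g 0 1) (hB g 1 0))
  have hfix : ∀ g ∈ H, ∀ a,
      v a (Matrix.det (ψ g).1) = 1 ∧ v a (Matrix.trace (ψ g).1) ≤ 1 := by
    intro g hg a
    have h1 : v a (Matrix.det (ψ g).1) = 1 :=
      vdet_eq_one (v a) (hT2 a g (hH g hg (Sum.inl (Sum.inr a))))
    exact ⟨h1, hT1 a (ψ g) (hH g hg (Sum.inl (Sum.inl a))) h1.le⟩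
  have hfin : ∀ g ∈ H, ∃ n, 0 < n ∧ φ g ^ n = 1 := fun g hg =>
    h g fun i => hH g hg (Sum.inr i)
  have htf' : ∀ g ∈ H, ∀ n : ℕ, 0 < n → ψ g ^ n = 1 → φ g = 1 ∧ ψ g = 1 := by
    intro g hg n hn h1
    obtain ⟨m, hm, h2⟩ := hfin g hg
    refine htf g (m * n) (Nat.mul_pos hm hn) ?_ ?_
    · rw [pow_mul, h2, one_pow]
    · rw [mul_comm, pow_mul, h1, one_pow]
  -- the image
  let q : H →* GL (Fin 2) K := ψ.comp H.subtype
  have hk : Kr 𝒞 H fun g => q.rangeRestrict g = 1 := by
    intro G _ f hf hG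
    refine hker G (H.subtype.comp f) (Subtype.val_injective.comp hf) fun g => ?_
    have h1 : ψ (f g).1 = 1 := congrArg Subtype.val (hG g)
    exact htf' (f g).1 (f g).2 1 one_pos (by rw [pow_one]; exact h1)
  have htfq : TorsionFree q.range := by
    rintro ⟨_, ⟨g, rfl⟩⟩ n hn h1
    exact Subtype.ext (htf' g.1 g.2 n hn (congrArg Subtype.val h1)).2
  have key : (∀ x y : q.range, x * y = y * x) ∨
      ∃ ψ'' : q.range →* GL (Fin 2) ℤ, Function.Injective ψ'' := by
    refine hstab q.range htfq q.range.subtype Subtype.val_injective ?_ ?_ ?_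
    · rintro ⟨_, ⟨g, rfl⟩⟩ i j
      exact hB g.1 i j
    · rintro ⟨_, ⟨g, rfl⟩⟩
      refine hv _ ?_ fun a => (hfix g.1 g.2 a).2
      show Matrix.trace (ψ g.1).1 ∈ _
      rw [Matrix.trace_fin_two]
      exact Subring.add_mem _ (hB g.1 0 0) (hB g.1 1 1)
    · rintro ⟨_, ⟨g, rfl⟩⟩
      obtain ⟨z, hz⟩ := hv _ (hdet g.1) fun a => (hfix g.1 g.2 a).1.le
      obtain ⟨z', hz'⟩ := hv _ (hdet g.1⁻¹) fun a => (hfix g.1⁻¹ (inv_mem g.2) a).1.le
      have h1 : (z : K) * z' = 1 := by
        rw [← hz, ← hz', ← Matrix.det_mul, map_inv]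
        have : (ψ g.1).1 * ((ψ g.1)⁻¹).1 = 1 := Units.mul_inv _
        rw [this, Matrix.det_one]
      have h2 : z * z' = 1 := by exact_mod_cast h1
      show Matrix.det (ψ g.1).1 = 1 ∨ Matrix.det (ψ g.1).1 = -1
      rw [hz]
      rcases Int.isUnit_iff.1 (IsUnit.of_mul_eq_one _ h2) with h3 | h3
      · exact Or.inl (by rw [h3, Int.cast_one])
      · exact Or.inr (by rw [h3, Int.cast_neg, Int.cast_one])
  rcases key with hc | ⟨ψ'', hψ⟩
  · exact comm_ext hU hT H q.range q.rangeRestrict hc htfq hk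
  · refine gl2z_ext hT H (ψ''.comp q.rangeRestrict) (fun g n hn h1 => ?_) ?_
    · have h2 : ψ'' (q.rangeRestrict g ^ n) = 1 := by
        rw [map_pow]
        exact h1
      have h3 : q.rangeRestrict g ^ n = 1 := hψ (h2.trans (map_one ψ'').symm)
      have h4 := htfq _ n hn h3
      show ψ'' (q.rangeRestrict g) = 1
      rw [h4, map_one]
    · intro G _ f hf hG
      exact hk G f hf fun g => hψ ((hG g).trans (map_one ψ'').symm)

/-- Let `A` be a commutative ring of positive characteristic, `K` a field of rational functions over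
`ℚ` and `(φ, ψ) : Γ → GL₂(A) × GL₂(K)` a homomorphism with torsionfree image. If all groups which
embed into the kernel of `(φ, ψ)` are in `𝒩` and in `𝒞` then `Γ` is in `𝒞`. -/
theorem gl2_gen {𝒞 : (G : Type u) → [Group G] → Prop} (hU : H66.ClosedLoc 𝒞) (hT : TreesRC 𝒞)
    (A : Type u) [CommRing A] (N : ℕ) (hN : 0 < N) (hA : (N : A) = 0)
    (σ : Type*) (K : Type u) [Field K] [Algebra (MvPolynomial σ ℤ) K]
    [IsFractionRing (MvPolynomial σ ℤ) K]
    (Γ : Type u) [Group Γ] (φ : Γ →* GL (Fin 2) A) (ψ : Γ →* GL (Fin 2) K)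
    (htf : ∀ (g : Γ) (n : ℕ), 0 < n → φ g ^ n = 1 → ψ g ^ n = 1 → φ g = 1 ∧ ψ g = 1)
    (hker : Kr 𝒞 Γ fun g => φ g = 1 ∧ ψ g = 1) : 𝒞 Γ := by
  have : CharZero K := charZero_of_injective_algebraMap
    (IsFractionRing.injective (MvPolynomial σ ℤ) K)
  refine hU Γ fun S => ⟨Subgroup.closure (S : Set Γ), fun s hs => Subgroup.subset_closure hs, ?_⟩
  obtain ⟨E, hE⟩ := entries ψ S
  obtain ⟨s⟩ := H66.spec0 σ K E
  exact gl2_fg hU hT A N hN hA K (Subring.closure (E : Set K)) (H66.val0 σ K E)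
    (fun H _ hH φ hφ h1 h2 h3 => H22.G.stabGL hH (Subring.closure (E : Set K)) s
      (fun χ h0 h1 => H66.units0 σ K χ h0 h1) φ hφ h1 h2 h3) (Subgroup.closure (S : Set Γ))
    (φ.comp (Subgroup.subtype _)) (ψ.comp (Subgroup.subtype _)) (fun g => hE g.1 g.2)
    (fun g n hn h1 h2 => htf g.1 n hn h1 h2) fun H _ f hf h =>
      hker H ((Subgroup.subtype _).comp f) (Subtype.val_injective.comp hf) h

/-- The kernel is in `𝒩`. -/
theorem gl2_ker (hU : H66.ClosedLoc.{u} fun G _ => H19.InL G)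
    (hT : ∀ (Γ : Type u) [Group Γ] (Y : Trees Γ), (∀ v, InRC (Y.st v)) → H19.InL Γ)
    (A : Type u) [CommRing A] (N : ℕ) (hN : 0 < N) (hA : (N : A) = 0)
    (σ : Type*) (K : Type u) [Field K] [Algebra (MvPolynomial σ ℤ) K]
    [IsFractionRing (MvPolynomial σ ℤ) K]
    (Γ : Type u) [Group Γ] (φ : Γ →* GL (Fin 2) A) (ψ : Γ →* GL (Fin 2) K)
    (htf : ∀ (g : Γ) (n : ℕ), 0 < n → φ g ^ n = 1 → ψ g ^ n = 1 → φ g = 1 ∧ ψ g = 1)
    (hker : InN (φ.ker ⊓ ψ.ker : Subgroup Γ)) : H19.InL Γ := by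
  refine gl2_gen hU (fun Γ _ Y h _ => hT Γ Y h) A N hN hA σ K Γ φ ψ htf fun H _ f hf h => ?_
  have h1 : InN H := TT.H66.inN_of_injective
    (f.codRestrict (φ.ker ⊓ ψ.ker) fun x => ⟨(h x).1, (h x).2⟩)
    (fun a b hab => hf (congrArg Subtype.val hab)) hker
  exact ⟨h1, ((main.{u}).2.2.2.1 H).2.1 (inRC_of_inN h1)⟩

/-- The kernel is trivial. -/
theorem gl2_inj {𝒞 : (G : Type u) → [Group G] → Prop} (hU : H66.ClosedLoc 𝒞) (hT : TreesRC 𝒞)
    (h1 : ∀ (G : Type u) [Group G], (∀ g : G, g = 1) → 𝒞 G)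
    (A : Type u) [CommRing A] (N : ℕ) (hN : 0 < N) (hA : (N : A) = 0)
    (σ : Type*) (K : Type u) [Field K] [Algebra (MvPolynomial σ ℤ) K]
    [IsFractionRing (MvPolynomial σ ℤ) K]
    (Γ : Type u) [Group Γ] (htf : TorsionFree Γ) (χ : Γ →* GL (Fin 2) A × GL (Fin 2) K)
    (hχ : Function.Injective χ) : 𝒞 Γ := by
  have hχ1 : ∀ g, (χ g).1 = 1 → (χ g).2 = 1 → g = 1 := fun g h h' =>
    hχ ((Prod.ext h h').trans (map_one χ).symm)
  refine gl2_gen hU hT A N hN hA σ K Γ ((MonoidHom.fst _ _).comp χ) ((MonoidHom.snd _ _).comp χ)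
    (fun g n hn h h' => ?_) fun H _ f hf h => ?_
  · rw [← map_pow] at h h'
    have h2 := htf g n hn (hχ1 _ h h')
    rw [h2, map_one, map_one]
    exact ⟨rfl, rfl⟩
  · have h2 : ∀ x : H, x = 1 := fun x => hf (by
      rw [map_one]
      exact hχ1 _ (h x).1 (h x).2)
    exact ⟨inN_of_subsingleton H h2, h1 H h2⟩

end Pool.Agent.NegK.NT5
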