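import Pool.Agent.Lib.MP_28303a_al.NT.H1.Gl2

/-! # The stabilizers of the edges of the tree of `GL₂` -/

set_option autoImplicit false
set_option linter.unusedSectionVars false
set_option linter.unusedVariables false

namespace Pool.Agent.NegK.NT5

universe u

open WithZero
open Pool.Agent.NegK.TW
open Pool.Agent.NegK.TT.H76
open Pool.Agent.NegK.NT.H1
open Matrix (GeneralLinearGroup)
open scoped commutatorElement

section comm

variable {K : Type*} [Field K] {M : Type*} [LinearOrderedCommGroupWithZero M] (w : Valuation K M)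
  {S : Type*} [Group S] (P : S → K)

/-- A map to the integral elements which is multiplicative modulo the maximal ideal is `1` on
commutators modulo the maximal ideal. -/
theorem comm_lt (h1 : P 1 = 1) (hle : ∀ s, w (P s) ≤ 1)
    (hmul : ∀ s t, w (P (s * t) - P s * P t) < 1) :
    ∀ c ∈ commutator S, w (P c - 1) < 1 := by
  have hun : ∀ s, w (P s) = 1 := by
    intro s
    refine le_antisymm (hle s) ?_
    have h2 := hmul s s⁻¹
    rw [mul_inv_cancel, h1] at h2
    have h3 : w (P s * P s⁻¹) = 1 := by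
      have h4 : P s * P s⁻¹ = 1 + -(1 - P s * P s⁻¹) := by ring
      rw [h4]
      have h5 : w (-(1 - P s * P s⁻¹)) < w (1 : K) := by rwa [Valuation.map_neg, map_one]
      rw [Valuation.map_add_eq_of_lt_left w h5, map_one]
    by_contra h4
    rw [not_le] at h4
    rw [map_mul] at h3
    have h5 : w (P s) * w (P s⁻¹) < 1 := mul_lt_one_of_lt_of_le h4 (hle _)
    rw [h3] at h5
    exact lt_irrefl _ h5
  have hm : ∀ x y, w (x - 1) < 1 → w (y - 1) < 1 → w y ≤ 1 → w (x * y - 1) < 1 := by
    intro x y hx hy hy'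
    have h2 : x * y - 1 = (x - 1) * y + (y - 1) := by ring
    rw [h2]
    refine Valuation.map_add_lt w ?_ hy
    rw [map_mul]
    exact mul_lt_one_of_lt_of_le hx hy'
  intro c hc
  rw [commutator_eq_closure] at hc
  induction hc using Subgroup.closure_induction with
  | mem c hc =>
    obtain ⟨s, t, rfl⟩ := hc
    have e1 : ⁅s, t⁆ * (t * s) = s * t := by
      rw [commutatorElement_def]
      group
    set c := ⁅s, t⁆ with hcd
    have a1 := hmul c (t * s)
    rw [e1] at a1
    have a2 := hmul t s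
    have a3 := hmul s t
    have h2 : (P c - 1) * (P s * P t) = (P (s * t) - P s * P t) + (-(P (s * t) - P c * P (t * s)) +
      -(P c * (P (t * s) - P t * P s))) := by ring
    have h3 : w ((P c - 1) * (P s * P t)) < 1 := by
      rw [h2]
      refine Valuation.map_add_lt w a3 (Valuation.map_add_lt w ?_ ?_)
      · rwa [Valuation.map_neg]
      · rw [Valuation.map_neg, map_mul, mul_comm]
        exact mul_lt_one_of_lt_of_le a2 (hle c)
    rwa [map_mul, map_mul, hun, hun, mul_one, mul_one] at h3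
  | one => rw [h1, sub_self, map_zero]; exact zero_lt_one
  | mul c d _ _ hc hd =>
    have h2 : P (c * d) - 1 = (P (c * d) - P c * P d) + (P c * P d - 1) := by ring
    rw [h2]
    exact Valuation.map_add_lt w (hmul c d) (hm _ _ hc hd (hle d))
  | inv c _ hc =>
    have h2 := hmul c c⁻¹
    rw [mul_inv_cancel, h1] at h2
    have h3 : P c⁻¹ - 1 = -(1 - P c * P c⁻¹) + -((P c - 1) * P c⁻¹) := by ring
    rw [h3]
    refine Valuation.map_add_lt w ?_ ?_
    · rwa [Valuation.map_neg]
    · rw [Valuation.map_neg, map_mul]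
      exact mul_lt_one_of_lt_of_le hc (hle _)

end comm

section edge

variable {K : Type u} [Field K] (w : Valuation K ℤᵐ⁰)

theorem fix_le (g : GeneralLinearGroup (Fin 2) K) (a : K) (h : ℤ) (hg : g • vx w a h = vx w a h)
    (hd : w g.1.det = 1) :
    w (g.1 0 0 - a * g.1 0 1) ≤ 1 ∧ w (a * g.1 0 1 + g.1 1 1) ≤ 1 ∧
    w (g.1 0 1) ≤ exp h ∧ w (a * g.1 0 0 + g.1 1 0 - a * (a * g.1 0 1 + g.1 1 1)) ≤ exp (-h) := by
  have e : ∀ x y, Qf w a h (x * g.1 0 0 + y * g.1 1 0) (x * g.1 0 1 + y * g.1 1 1) =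
      Qf w a h x y := by
    intro x y
    have h1 : (w g.1.det)⁻¹ * Qf w a h (x * g.1 0 0 + y * g.1 1 0) (x * g.1 0 1 + y * g.1 1 1) =
      Qf w a h x y := congrFun (congrFun (congrArg Subtype.val hg) x) y
    rwa [hd, inv_one, one_mul] at h1
  have e1 := e 1 0
  rw [Qf_one_zero] at e1
  have e2 := e a 1
  rw [Qf_center] at e2
  simp only [one_mul, zero_mul, add_zero] at e1 e2
  unfold Qf at e1 e2
  have k1 := (le_max_left _ _).trans e1.le
  have k2 := (le_max_right _ _).trans e1.le
  have k3 := (le_max_left _ _).trans e2.le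
  have k4 := (le_max_right _ _).trans e2.le
  have hpos : ∀ n : ℤ, (0 : ℤᵐ⁰) < exp n := fun n => exp_pos
  refine ⟨?_, ?_, ?_, ?_⟩
  · have h2 : exp h * w (g.1 0 0 - a * g.1 0 1) ^ 2 ≤ exp h * 1 := by rwa [mul_one]
    have h3 := le_of_mul_le_mul_left h2 (hpos h)
    exact (pow_le_one_iff two_ne_zero).1 h3
  · have h2 : exp (-h) * w (a * g.1 0 1 + g.1 1 1) ^ 2 ≤ exp (-h) * 1 := by rwa [mul_one]
    have h3 := le_of_mul_le_mul_left h2 (hpos (-h))
    exact (pow_le_one_iff two_ne_zero).1 h3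
  · have h2 := ball_of_le (t := w (g.1 0 1)) (h := -h) (k := 0) (by
      rw [zero_sub, neg_neg]; exact k2) (by norm_num)
    rwa [neg_neg] at h2
  · exact ball_of_le (t := w _) (h := h) (k := 0) (by rw [zero_sub]; exact k3) (by norm_num)

theorem edge_lt (a : K) (h : ℤ) (S : Type*) [Group S] (q : S →* GeneralLinearGroup (Fin 2) K)
    (hq : ∀ s, q s • vx w a h = vx w a h ∧ q s • vx w a (h - 1) = vx w a (h - 1) ∧
      w (q s).1.det = 1) : ∀ c ∈ commutator S, w ((q c).1.trace - 2) < 1 := by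
  have hmul : ∀ s t i j, (q (s * t)).1 i j = (q s).1 i 0 * (q t).1 0 j +
      (q s).1 i 1 * (q t).1 1 j := by
    intro s t i j
    rw [map_mul, Units.val_mul, Matrix.mul_apply, Fin.sum_univ_two]
  have hone : ∀ i j, (q 1).1 i j = (1 : Matrix (Fin 2) (Fin 2) K) i j := by
    intro i j
    rw [map_one, Units.val_one]
  have hb : ∀ s, w ((q s).1 0 1) ≤ exp (h - 1) := fun s =>
    (fix_le w (q s) a (h - 1) (hq s).2.1 (hq s).2.2).2.2.1
  have hr : ∀ s, w (a * (q s).1 0 0 + (q s).1 1 0 - a * (a * (q s).1 0 1 + (q s).1 1 1)) ≤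
      exp (-h) := fun s => (fix_le w (q s) a h (hq s).1 (hq s).2.2).2.2.2
  have hbr : ∀ s t, w ((q s).1 0 1 * (a * (q t).1 0 0 + (q t).1 1 0 -
      a * (a * (q t).1 0 1 + (q t).1 1 1))) < 1 := by
    intro s t
    rw [map_mul]
    refine (mul_le_mul' (hb s) (hr t)).trans_lt ?_
    rw [← exp_add, ← exp_zero, exp_lt_exp]
    omega
  have h1 := comm_lt w (fun s => (q s).1 0 0 - a * (q s).1 0 1) (by
      show (q 1).1 0 0 - a * (q 1).1 0 1 = 1
      rw [hone, hone]; simp)
    (fun s => (fix_le w (q s) a h (hq s).1 (hq s).2.2).1) (fun s t => by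
      show w (((q (s * t)).1 0 0 - a * (q (s * t)).1 0 1) -
        ((q s).1 0 0 - a * (q s).1 0 1) * ((q t).1 0 0 - a * (q t).1 0 1)) < 1
      have e : ((q (s * t)).1 0 0 - a * (q (s * t)).1 0 1) -
          ((q s).1 0 0 - a * (q s).1 0 1) * ((q t).1 0 0 - a * (q t).1 0 1) =
          (q s).1 0 1 * (a * (q t).1 0 0 + (q t).1 1 0 -
            a * (a * (q t).1 0 1 + (q t).1 1 1)) := by
        rw [hmul, hmul]
        ring
      rw [e]
      exact hbr s t)
  have h2 := comm_lt w (fun s => a * (q s).1 0 1 + (q s).1 1 1) (by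
      show a * (q 1).1 0 1 + (q 1).1 1 1 = 1
      rw [hone, hone]; simp)
    (fun s => (fix_le w (q s) a h (hq s).1 (hq s).2.2).2.1) (fun s t => by
      show w ((a * (q (s * t)).1 0 1 + (q (s * t)).1 1 1) -
        (a * (q s).1 0 1 + (q s).1 1 1) * (a * (q t).1 0 1 + (q t).1 1 1)) < 1
      have e : (a * (q (s * t)).1 0 1 + (q (s * t)).1 1 1) -
          (a * (q s).1 0 1 + (q s).1 1 1) * (a * (q t).1 0 1 + (q t).1 1 1) =
          (q t).1 0 1 * (a * (q s).1 0 0 + (q s).1 1 0 -
            a * (a * (q s).1 0 1 + (q s).1 1 1)) := by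
        rw [hmul, hmul]
        ring
      rw [e]
      exact hbr t s)
  intro c hc
  have h3 : (q c).1.trace - 2 = ((q c).1 0 0 - a * (q c).1 0 1 - 1) +
      (a * (q c).1 0 1 + (q c).1 1 1 - 1) := by
    rw [Matrix.trace_fin_two]
    ring
  rw [h3]
  exact Valuation.map_add_lt w (h1 c hc) (h2 c hc)

end edge

/-- The tree of `GL₂` of a field with a discrete valuation: traces of the elements with a fixed
vertex, and of the commutators of the stabilizers of the edges. -/
theorem exists_TD_glE (K : Type u) [Field K] (v : Valuation K (WithZero (Multiplicative ℤ))) :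
    ∃ T : TD (GeneralLinearGroup (Fin 2) K),
      (∀ g, T.Ell g → v (g.1.trace) ^ 2 ≤ v g.1.det) ∧
      ∀ x y : T.V, T.G.Adj x y → ∀ (S : Type u) [Group S]
        (q : S →* GeneralLinearGroup (Fin 2) K),
        (∀ s, q s • x = x ∧ q s • y = y ∧ v (q s).1.det = 1) →
        ∀ c ∈ commutator S, v ((q c).1.trace - 2) < 1 := by
  refine ⟨⟨Vx (sqVal v), instActGL _, gr _, treeAct_gl _ (even_log_sqVal v)⟩, ?_, ?_⟩
  · rintro g ⟨x, hx⟩
    have h1 := trace_le_gl _ g x hx
    rw [sqVal_apply, sqVal_apply] at h1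
    exact (pow_le_pow_iff_left₀ zero_le zero_le two_ne_zero).1 h1
  · intro x y hxy S _ q hq
    have hdet : ∀ s, sqVal v (q s).1.det = 1 := fun s => by
      rw [sqVal_apply, (hq s).2.2, one_pow]
    have fin : (∀ c ∈ commutator S, sqVal v ((q c).1.trace - 2) < 1) →
        ∀ c ∈ commutator S, v ((q c).1.trace - 2) < 1 := fun hw c hc => by
      have h1 := hw c hc
      rw [sqVal_apply] at h1
      exact (pow_lt_one_iff two_ne_zero).1 h1
    apply fin
    rcases (adj_iff (sqVal v) x y).1 hxy with h | h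
    · obtain ⟨a, n, rfl⟩ := exists_vx (sqVal v) x
      rw [par_vx] at h
      subst h
      exact edge_lt (sqVal v) a n S q fun s => ⟨(hq s).1, (hq s).2.1, hdet s⟩
    · obtain ⟨a, n, rfl⟩ := exists_vx (sqVal v) y
      rw [par_vx] at h
      subst h
      exact edge_lt (sqVal v) a n S q fun s => ⟨(hq s).2.1, (hq s).1, hdet s⟩

end Pool.Agent.NegK.NT5
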