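import Pool.Agent.Lib.MP_28303a_al.NT5.TreesP
import Pool.Agent.Lib.MP_28303a_al.NT.H66.Val0

/-! # Entries and determinants -/

set_option autoImplicit false
set_option linter.unusedSectionVars false
set_option linter.unusedVariables false

namespace Pool.Agent.NegK.NT5

universe u

open Matrix WithZero

/-- The valuation of the determinant. -/
noncomputable def vdet {K : Type u} [Field K] (v : Valuation K (WithZero (Multiplicative ℤ))) :
    GL (Fin 2) K →* Multiplicative ℤ where
  toFun g := WithZero.unzero (x := v (Matrix.det g.1))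
    ((Valuation.ne_zero_iff v).2 ((Matrix.isUnit_iff_isUnit_det _).1 g.isUnit).ne_zero)
  map_one' := by
    apply WithZero.coe_injective
    rw [WithZero.coe_unzero]
    simp
  map_mul' g h := by
    apply WithZero.coe_injective
    rw [WithZero.coe_unzero, WithZero.coe_mul, WithZero.coe_unzero, WithZero.coe_unzero,
      ← map_mul, ← Matrix.det_mul]
    rfl

theorem vdet_eq_one {K : Type u} [Field K] (v : Valuation K (WithZero (Multiplicative ℤ)))
    {g : GL (Fin 2) K} (h : vdet v g = 1) : v (Matrix.det g.1) = 1 := by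
  have h1 := congrArg (fun x : Multiplicative ℤ => (x : WithZero (Multiplicative ℤ))) h
  change ((WithZero.unzero (x := v (Matrix.det g.1)) _ : Multiplicative ℤ) :
    WithZero (Multiplicative ℤ)) = ((1 : Multiplicative ℤ) : WithZero (Multiplicative ℤ)) at h1
  rw [WithZero.coe_unzero] at h1
  exact h1

/-- The entries of the elements of a finitely generated group of matrices. -/
theorem entries {K : Type u} [Field K] {Γ : Type u} [Group Γ] (φ : Γ →* GL (Fin 2) K)
    (S : Finset Γ) : ∃ E : Finset K, ∀ g ∈ Subgroup.closure (S : Set Γ), ∀ i j,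
      (φ g).1 i j ∈ Subring.closure (E : Set K) := by
  classical
  let R : Finset K := S.biUnion fun s => Finset.univ.image fun p : Fin 2 × Fin 2 =>
    (φ s).1 p.1 p.2
  let R' : Finset K := S.biUnion fun s => Finset.univ.image fun p : Fin 2 × Fin 2 =>
    ((φ s)⁻¹).1 p.1 p.2
  have hR : ∀ s ∈ S, ∀ i j, (φ s).1 i j ∈ Subring.closure ((R ∪ R' : Finset K) : Set K) :=
    fun s hs i j => Subring.subset_closure (Finset.mem_coe.2 (Finset.mem_union_left _
      (Finset.mem_biUnion.2 ⟨s, hs, Finset.mem_image.2 ⟨(i, j), Finset.mem_univ _, rfl⟩⟩)))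
  have hR' : ∀ s ∈ S, ∀ i j, ((φ s)⁻¹).1 i j ∈ Subring.closure ((R ∪ R' : Finset K) : Set K) :=
    fun s hs i j => Subring.subset_closure (Finset.mem_coe.2 (Finset.mem_union_right _
      (Finset.mem_biUnion.2 ⟨s, hs, Finset.mem_image.2 ⟨(i, j), Finset.mem_univ _, rfl⟩⟩)))
  have hmul : ∀ g h : GL (Fin 2) K,
      (∀ i j, g.1 i j ∈ Subring.closure ((R ∪ R' : Finset K) : Set K)) →
      (∀ i j, h.1 i j ∈ Subring.closure ((R ∪ R' : Finset K) : Set K)) →
      ∀ i j, (g * h).1 i j ∈ Subring.closure ((R ∪ R' : Finset K) : Set K) := by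
    intro g h hg hh i j
    have : (g * h).1 i j = ∑ k, g.1 i k * h.1 k j := rfl
    rw [this]
    exact Subring.sum_mem _ fun k _ => Subring.mul_mem _ (hg i k) (hh k j)
  have hmem : ∀ g ∈ Subgroup.closure (S : Set Γ),
      (∀ i j, (φ g).1 i j ∈ Subring.closure ((R ∪ R' : Finset K) : Set K)) ∧
      ∀ i j, ((φ g)⁻¹).1 i j ∈ Subring.closure ((R ∪ R' : Finset K) : Set K) := by
    intro g hg
    induction hg using Subgroup.closure_induction with
    | mem s hs => exact ⟨hR s hs, hR' s hs⟩
    | one =>
      have h1 : ∀ i j, (1 : Matrix (Fin 2) (Fin 2) K) i j ∈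
          Subring.closure ((R ∪ R' : Finset K) : Set K) := by
        intro i j
        rw [Matrix.one_apply]
        split_ifs
        · exact Subring.one_mem _
        · exact Subring.zero_mem _
      rw [map_one, inv_one]
      exact ⟨h1, h1⟩
    | mul g h _ _ hg hh =>
      rw [map_mul, _root_.mul_inv_rev]
      exact ⟨hmul _ _ hg.1 hh.1, hmul _ _ hh.2 hg.2⟩
    | inv g _ hg =>
      rw [map_inv, inv_inv]
      exact ⟨hg.2, hg.1⟩
  exact ⟨R ∪ R', fun g hg => (hmem g hg).1⟩

end Pool.Agent.NegK.NT5
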