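import Mathlib

/-! # The tree of the forms of discriminant `-3` -/

set_option autoImplicit false

namespace Pool.Agent.NegK.NT5

/-- A graph with a height function such that every vertex other than the root has exactly one lower
neighbour is a tree. -/
theorem isTree_of_ht {V : Type*} (G : SimpleGraph V) (r : V) (ht : V → ℕ)
    (ha : ∀ x y, G.Adj x y → ht x ≠ ht y)
    (hb : ∀ x y z, G.Adj x y → G.Adj x z → ht y < ht x → ht z < ht x → y = z)
    (hc : ∀ x, x = r ∨ ∃ y, G.Adj x y ∧ ht y < ht x) : G.IsTree := by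
  have : Nonempty V := ⟨r⟩
  have hre : ∀ (n : ℕ) x, ht x ≤ n → G.Reachable x r := by
    intro n
    induction n with
    | zero =>
      intro x hx
      rcases hc x with h | ⟨y, _, h⟩
      · rw [h]
      · omega
    | succ n ih =>
      intro x hx
      rcases hc x with h | ⟨y, h1, h⟩
      · rw [h]
      · exact h1.reachable.trans (ih y (by omega))
  have hbr : ∀ x y, G.Adj x y → ht y < ht x → G.IsBridge s(x, y) := by
    intro x y hxy hlt
    rw [SimpleGraph.isBridge_iff]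
    rintro ⟨p⟩
    have key : ∀ {z w : V} (p : (G.deleteEdges {s(x, y)}).Walk z w),
        Relation.ReflTransGen (fun a b => G.Adj a b ∧ ht b < ht a) z x →
        Relation.ReflTransGen (fun a b => G.Adj a b ∧ ht b < ht a) w x := by
      intro z w p
      induction p with
      | nil => exact id
      | cons hab _ ih =>
        rename_i a b c _
        intro h
        apply ih
        rw [SimpleGraph.deleteEdges_adj] at hab
        obtain ⟨h1, h2⟩ := hab
        rcases lt_or_gt_of_ne (ha a b h1) with h3 | h3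
        · exact Relation.ReflTransGen.head ⟨h1.symm, h3⟩ h
        · rcases Relation.ReflTransGen.cases_head h with rfl | ⟨d, ⟨h4, h5⟩, h6⟩
          · exfalso
            apply h2
            rw [hb _ b y h1 hxy h3 hlt]
            exact Set.mem_singleton _
          · rwa [hb a b d h1 h4 h3 h5]
    have h1 := key p Relation.ReflTransGen.refl
    have h2 : ∀ z, Relation.ReflTransGen (fun a b => G.Adj a b ∧ ht b < ht a) z x →
        ht x ≤ ht z := by
      intro z h
      induction h using Relation.ReflTransGen.head_induction_on with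
      | refl => exact le_rfl
      | head h3 _ ih => exact ih.trans h3.2.le
    exact absurd (h2 y h1) (by omega)
  refine { preconnected := ?_, isAcyclic := ?_ }
  · intro x y
    exact (hre _ x le_rfl).trans (hre _ y le_rfl).symm
  · rw [SimpleGraph.isAcyclic_iff_forall_adj_isBridge]
    intro x y h
    rcases lt_or_gt_of_ne (ha x y h) with h3 | h3
    · rw [Sym2.eq_swap]
      exact hbr y x h.symm h3
    · exact hbr x y h h3

/-- Positive definite forms `a x² + b x y + c y²` of discriminant `-3`. -/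
@[ext] structure Fm where
  a : ℤ
  b : ℤ
  c : ℤ
  pos : 0 < a
  disc : b ^ 2 - 4 * a * c = -3

namespace Fm

/-- The root. -/
def one : Fm := ⟨1, 1, 1, by norm_num, by norm_num⟩

theorem pos' (q : Fm) : 0 < q.c := by
  have h1 := q.pos
  have h2 := q.disc
  by_contra h
  nlinarith [sq_nonneg q.b]

open Matrix in
/-- The form with the matrix `g * Q * gᵀ`. -/
def act (g : SpecialLinearGroup (Fin 2) ℤ) (q : Fm) : Fm where
  a := q.a * g 0 0 ^ 2 + q.b * (g 0 0 * g 0 1) + q.c * g 0 1 ^ 2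
  b := 2 * q.a * (g 0 0 * g 1 0) + q.b * (g 0 0 * g 1 1 + g 0 1 * g 1 0) +
    2 * q.c * (g 0 1 * g 1 1)
  c := q.a * g 1 0 ^ 2 + q.b * (g 1 0 * g 1 1) + q.c * g 1 1 ^ 2
  pos := by
    have hdet : (g : Matrix (Fin 2) (Fin 2) ℤ).det = 1 := g.2
    rw [Matrix.det_fin_two] at hdet
    have h1 := q.pos
    have h2 := q.disc
    have h3 : 4 * q.a * (q.a * g 0 0 ^ 2 + q.b * (g 0 0 * g 0 1) + q.c * g 0 1 ^ 2) =
        (2 * q.a * g 0 0 + q.b * g 0 1) ^ 2 + 3 * g 0 1 ^ 2 := by
      linear_combination (-(g 0 1 ^ 2 : ℤ)) * h2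
    have h4 : 0 < (2 * q.a * g 0 0 + q.b * g 0 1) ^ 2 + 3 * (g 0 1 : ℤ) ^ 2 := by
      by_cases h5 : (g 0 1 : ℤ) = 0
      · have h6 : (g 0 0 : ℤ) ≠ 0 := by
          intro h7
          rw [h5, h7] at hdet
          norm_num at hdet
        have h7 : (2 * q.a * g 0 0 + q.b * g 0 1 : ℤ) ≠ 0 := by
          rw [h5, mul_zero, add_zero]
          exact mul_ne_zero (mul_ne_zero two_ne_zero h1.ne') h6
        have h8 := pow_pos (abs_pos.2 h7) 2
        rw [sq_abs] at h8
        nlinarith [sq_nonneg (g 0 1 : ℤ)]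
      · have h8 := pow_pos (abs_pos.2 h5) 2
        rw [sq_abs] at h8
        nlinarith [sq_nonneg (2 * q.a * g 0 0 + q.b * g 0 1 : ℤ)]
    rw [← h3] at h4
    by_contra h5
    nlinarith
  disc := by
    have hdet : (g : Matrix (Fin 2) (Fin 2) ℤ).det = 1 := g.2
    rw [Matrix.det_fin_two] at hdet
    have h2 := q.disc
    linear_combination (g 0 0 * g 1 1 - g 0 1 * g 1 0 : ℤ) ^ 2 * h2 -
      3 * ((g 0 0 * g 1 1 - g 0 1 * g 1 0 : ℤ) + 1) * hdet

open Matrix in
instance : MulAction (SpecialLinearGroup (Fin 2) ℤ) Fm where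
  smul := act
  one_smul q := by
    refine Fm.ext ?_ ?_ ?_
    · show q.a * (1 : Matrix (Fin 2) (Fin 2) ℤ) 0 0 ^ 2 + q.b * ((1 : Matrix (Fin 2) (Fin 2) ℤ) 0 0 *
        (1 : Matrix (Fin 2) (Fin 2) ℤ) 0 1) + q.c * (1 : Matrix (Fin 2) (Fin 2) ℤ) 0 1 ^ 2 = q.a
      simp
    · show 2 * q.a * ((1 : Matrix (Fin 2) (Fin 2) ℤ) 0 0 * (1 : Matrix (Fin 2) (Fin 2) ℤ) 1 0) +
        q.b * ((1 : Matrix (Fin 2) (Fin 2) ℤ) 0 0 * (1 : Matrix (Fin 2) (Fin 2) ℤ) 1 1 +
        (1 : Matrix (Fin 2) (Fin 2) ℤ) 0 1 * (1 : Matrix (Fin 2) (Fin 2) ℤ) 1 0) +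
        2 * q.c * ((1 : Matrix (Fin 2) (Fin 2) ℤ) 0 1 * (1 : Matrix (Fin 2) (Fin 2) ℤ) 1 1) = q.b
      simp
    · show q.a * (1 : Matrix (Fin 2) (Fin 2) ℤ) 1 0 ^ 2 + q.b * ((1 : Matrix (Fin 2) (Fin 2) ℤ) 1 0 *
        (1 : Matrix (Fin 2) (Fin 2) ℤ) 1 1) + q.c * (1 : Matrix (Fin 2) (Fin 2) ℤ) 1 1 ^ 2 = q.c
      simp
  mul_smul g h q := by
    have e : ∀ i j, (g * h) i j = g i 0 * h 0 j + g i 1 * h 1 j := by
      intro i j
      have h1 : (g * h) i j = ∑ k, g i k * h k j := rfl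
      rw [h1, Fin.sum_univ_two]
    refine Fm.ext ?_ ?_ ?_
    · show q.a * (g * h) 0 0 ^ 2 + q.b * ((g * h) 0 0 * (g * h) 0 1) + q.c * (g * h) 0 1 ^ 2 =
        (act g (act h q)).a
      rw [e, e]
      simp only [act]
      ring
    · show 2 * q.a * ((g * h) 0 0 * (g * h) 1 0) + q.b * ((g * h) 0 0 * (g * h) 1 1 +
        (g * h) 0 1 * (g * h) 1 0) + 2 * q.c * ((g * h) 0 1 * (g * h) 1 1) =
        (act g (act h q)).b
      rw [e, e, e, e]
      simp only [act]
      ring
    · show q.a * (g * h) 1 0 ^ 2 + q.b * ((g * h) 1 0 * (g * h) 1 1) + q.c * (g * h) 1 1 ^ 2 =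
        (act g (act h q)).c
      rw [e, e]
      simp only [act]
      ring

open Matrix in
theorem smul_a (g : SpecialLinearGroup (Fin 2) ℤ) (q : Fm) :
    (g • q).a = q.a * g 0 0 ^ 2 + q.b * (g 0 0 * g 0 1) + q.c * g 0 1 ^ 2 := rfl

open Matrix in
theorem smul_b (g : SpecialLinearGroup (Fin 2) ℤ) (q : Fm) :
    (g • q).b = 2 * q.a * (g 0 0 * g 1 0) + q.b * (g 0 0 * g 1 1 + g 0 1 * g 1 0) +
    2 * q.c * (g 0 1 * g 1 1) := rfl

open Matrix in
theorem smul_c (g : SpecialLinearGroup (Fin 2) ℤ) (q : Fm) :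
    (g • q).c = q.a * g 1 0 ^ 2 + q.b * (g 1 0 * g 1 1) + q.c * g 1 1 ^ 2 := rfl

/-- The invariant pairing. -/
def P (q q' : Fm) : ℤ := 2 * (q.a * q'.c + q.c * q'.a) - q.b * q'.b

theorem P_comm (q q' : Fm) : P q q' = P q' q := by
  unfold P
  ring

theorem P_self (q : Fm) : P q q = 3 := by
  unfold P
  linear_combination -q.disc

open Matrix in
theorem P_smul (g : SpecialLinearGroup (Fin 2) ℤ) (q q' : Fm) : P (g • q) (g • q') = P q q' := by
  have hdet : (g : Matrix (Fin 2) (Fin 2) ℤ).det = 1 := g.2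
  rw [Matrix.det_fin_two] at hdet
  unfold P
  simp only [smul_a, smul_b, smul_c]
  linear_combination ((g 0 0 * g 1 1 - g 0 1 * g 1 0 : ℤ) + 1) *
    (2 * (q.a * q'.c + q.c * q'.a) - q.b * q'.b) * hdet

/-- The height. -/
def ht (q : Fm) : ℕ := (P one q).toNat

theorem P_one (q : Fm) : P one q = 2 * (q.a + q.c) - q.b := by
  unfold P one
  ring

theorem P_one_pos (q : Fm) : 0 < P one q := by
  rw [P_one]
  have h1 := q.pos
  have h2 := q.pos'
  have h3 := q.disc
  by_contra h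
  have h4 : 0 ≤ q.b := by omega
  nlinarith [sq_nonneg (q.a - q.c)]

theorem ht_lt {q q' : Fm} : ht q < ht q' ↔ P one q < P one q' := by
  have h1 := P_one_pos q
  have h2 := P_one_pos q'
  unfold ht
  omega

theorem ht_eq {q q' : Fm} : ht q = ht q' ↔ P one q = P one q' := by
  have h1 := P_one_pos q
  have h2 := P_one_pos q'
  unfold ht
  omega

/-- The neighbours of the root. -/
def n1 : Fm := ⟨1, -1, 1, by norm_num, by norm_num⟩
def n2 : Fm := ⟨1, 3, 3, by norm_num, by norm_num⟩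
def n3 : Fm := ⟨3, 3, 1, by norm_num, by norm_num⟩

theorem nbr_one {q : Fm} (h : P one q = 5) : q = n1 ∨ q = n2 ∨ q = n3 := by
  rw [P_one] at h
  have h1 := q.pos
  have h2 := q.pos'
  have h3 := q.disc
  obtain ⟨a, b, c, ha, hd⟩ := q
  simp only at h h1 h2 h3
  have hb : b = 2 * (a + c) - 5 := by linarith
  subst hb
  have h4 : (a - c) ^ 2 = -(3 * (a + c) - 14) * ((a + c) - 2) := by linear_combination h3
  have h5 : a + c ≤ 4 := by
    by_contra h6
    push Not at h6
    nlinarith [sq_nonneg (a - c)]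
  have h6 : a ≤ 3 := by omega
  have h7 : c ≤ 3 := by omega
  interval_cases a <;> interval_cases c <;> simp_all [n1, n2, n3]

theorem P_one_eq {q : Fm} (h : P one q = 3) : q = one := by
  rw [P_one] at h
  have h1 := q.pos
  have h2 := q.pos'
  have h3 := q.disc
  obtain ⟨a, b, c, ha, hd⟩ := q
  simp only at h h1 h2 h3
  have hb : b = 2 * (a + c) - 3 := by linarith
  subst hb
  have h4 : (a - c) ^ 2 = -(3 * (a + c) - 6) * ((a + c) - 2) := by linear_combination h3
  have h5 : a + c ≤ 2 := by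
    by_contra h6
    push Not at h6
    nlinarith [sq_nonneg (a - c)]
  have h6 : a = 1 := by omega
  have h7 : c = 1 := by omega
  subst h6 h7
  rfl

end Fm

end Pool.Agent.NegK.NT5
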