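import Pool.Agent.Lib.MP_28303a_al.NT5.Tree
import Pool.Agent.Lib.MP_28303a_al.TT.Sl3

/-! # Torsionfree subgroups of `SL₂(ℤ)` -/

set_option autoImplicit false

namespace Pool.Agent.NegK.NT5

universe u

open Matrix

namespace Fm

theorem odd_b (q : Fm) (k : ℤ) : q.b ≠ 2 * k := by
  intro h
  have h1 := q.disc
  rw [h] at h1
  have h2 : 4 * k ^ 2 - 4 * (q.a * q.c) = -3 := by linear_combination h1
  generalize k ^ 2 = x at h2
  generalize q.a * q.c = y at h2
  omega

theorem reduced {q : Fm} (h1 : 0 ≤ q.b) (h2 : q.b ≤ 2 * q.a) (h3 : q.b ≤ 2 * q.c) : q = one := by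
  refine P_one_eq ?_
  rw [P_one]
  have h4 := q.disc
  have h5 := q.odd_b q.a
  have h6 := q.odd_b q.c
  have h7 := q.odd_b 0
  have h8 : q.b + 1 ≤ 2 * q.a := by omega
  have h9 : q.b + 1 ≤ 2 * q.c := by omega
  have h10 : (q.b + 1) * (q.b + 1) ≤ (2 * q.a) * (2 * q.c) :=
    mul_le_mul h8 h9 (by omega) (by omega)
  have h11 : q.b ≤ 1 := by nlinarith
  have h12 : q.b = 1 := by omega
  have h13 : q.a * q.c = 1 := by
    rw [h12] at h4
    linarith
  have h14 := q.pos
  have h15 := q.pos'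
  have h16 : q.a = 1 := by nlinarith
  have h17 : q.c = 1 := by nlinarith
  rw [h12, h16, h17]
  norm_num

def w0 : SpecialLinearGroup (Fin 2) ℤ := ⟨!![0, 1; -1, 0], by norm_num [Matrix.det_fin_two]⟩
def w1 : SpecialLinearGroup (Fin 2) ℤ := ⟨!![1, 0; -1, 1], by norm_num [Matrix.det_fin_two]⟩
def w2 : SpecialLinearGroup (Fin 2) ℤ := ⟨!![1, -1; 0, 1], by norm_num [Matrix.det_fin_two]⟩

theorem P_w0 (q : Fm) : P one (w0 • q) = P one q + 2 * q.b := by
  rw [P_one, P_one, smul_a, smul_b, smul_c]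
  simp [w0]
  ring

theorem P_w1 (q : Fm) : P one (w1 • q) = P one q + (4 * q.a - 2 * q.b) := by
  rw [P_one, P_one, smul_a, smul_b, smul_c]
  simp [w1]
  ring

theorem P_w2 (q : Fm) : P one (w2 • q) = P one q + (4 * q.c - 2 * q.b) := by
  rw [P_one, P_one, smul_a, smul_b, smul_c]
  simp [w2]
  ring

theorem exists_smul_one (q : Fm) : ∃ g : SpecialLinearGroup (Fin 2) ℤ, g • one = q := by
  have key : ∀ (n : ℕ) (q : Fm), ht q ≤ n → ∃ g : SpecialLinearGroup (Fin 2) ℤ, g • one = q := by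
    intro n
    induction n with
    | zero =>
      intro q hq
      exfalso
      have := P_one_pos q
      unfold ht at hq
      omega
    | succ n ih =>
      intro q hq
      have step : ∀ g : SpecialLinearGroup (Fin 2) ℤ, P one (g • q) < P one q →
          ∃ g : SpecialLinearGroup (Fin 2) ℤ, g • one = q := by
        intro g hg
        obtain ⟨k, hk⟩ := ih (g • q) (by
          have := ht_lt.2 hg
          omega)
        exact ⟨g⁻¹ * k, by rw [mul_smul, hk, inv_smul_smul]⟩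
      by_cases h1 : q.b < 0
      · exact step w0 (by rw [P_w0]; omega)
      by_cases h2 : 2 * q.a < q.b
      · exact step w1 (by rw [P_w1]; omega)
      by_cases h3 : 2 * q.c < q.b
      · exact step w2 (by rw [P_w2]; omega)
      exact ⟨1, by rw [one_smul, reduced (not_lt.1 h1) (not_lt.1 h2) (not_lt.1 h3)]⟩
  exact key _ q le_rfl

theorem P_n1 (q : Fm) : P q n1 = P q one + 2 * q.b := by
  unfold P n1 one
  ring

theorem P_n2 (q : Fm) : P q n2 = P q one + (4 * q.a - 2 * q.b) := by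
  unfold P n2 one
  ring

theorem P_n3 (q : Fm) : P q n3 = P q one + (4 * q.c - 2 * q.b) := by
  unfold P n3 one
  ring

/-- The neighbours of a vertex. -/
theorem exists_nbr (q : Fm) : ∃ r : Fm, (r = one → q = one) ∧ P r one = P one q ∧
    ∃ f : Fm → Fm, (∀ n, P q (f n) = P one n) ∧ (∀ n, P one (f n) = P r n) ∧
      ∀ q', P q q' = 5 → q' = f n1 ∨ q' = f n2 ∨ q' = f n3 := by
  obtain ⟨g, rfl⟩ := exists_smul_one q
  have e : ∀ n, P one (g • n) = P (g⁻¹ • one) n := by
    intro n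
    rw [← P_smul g (g⁻¹ • one) n, smul_inv_smul]
  refine ⟨g⁻¹ • one, fun h => ?_, (e one).symm, fun n => g • n, fun n => P_smul g one n, e,
    fun q' hq' => ?_⟩
  · rw [inv_smul_eq_iff] at h
    exact h.symm
  · have h1 : P one (g⁻¹ • q') = 5 := by
      rw [← P_smul g, smul_inv_smul]
      exact hq'
    rcases nbr_one h1 with h | h | h
    · exact Or.inl (by rw [← h]; exact (smul_inv_smul g q').symm)
    · exact Or.inr (Or.inl (by rw [← h]; exact (smul_inv_smul g q').symm))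
    · exact Or.inr (Or.inr (by rw [← h]; exact (smul_inv_smul g q').symm))

theorem P_one_n1 : P one n1 = 5 := by
  unfold P n1 one
  norm_num

theorem P_one_n2 : P one n2 = 5 := by
  unfold P n2 one
  norm_num

theorem P_one_n3 : P one n3 = 5 := by
  unfold P n3 one
  norm_num

theorem ha_aux {q q' : Fm} (h : P q q' = 5) : ht q ≠ ht q' := by
  rw [Ne, ht_eq]
  obtain ⟨r, h1, h2, f, h3, h4, h5⟩ := exists_nbr q
  have o0 := r.odd_b 0
  have o1 := r.odd_b r.a
  have o2 := r.odd_b r.c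
  intro h6
  rcases h5 q' h with rfl | rfl | rfl
  · rw [h4, P_n1] at h6
    omega
  · rw [h4, P_n2] at h6
    omega
  · rw [h4, P_n3] at h6
    omega

theorem hb_aux {q y z : Fm} (hy : P q y = 5) (hz : P q z = 5) (hy' : ht y < ht q)
    (hz' : ht z < ht q) : y = z := by
  rw [ht_lt] at hy' hz'
  obtain ⟨r, h1, h2, f, h3, h4, h5⟩ := exists_nbr q
  have p1 := r.pos
  have p2 := r.pos'
  have d := r.disc
  have e : ¬ (2 * r.a < r.b ∧ 2 * r.c < r.b) := by
    rintro ⟨e1, e2⟩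
    nlinarith
  rcases h5 y hy with rfl | rfl | rfl <;> rcases h5 z hz with rfl | rfl | rfl <;>
    first
      | rfl
      | (exfalso
         rw [h4] at hy' hz'
         simp only [P_n1, P_n2, P_n3] at hy' hz'
         omega)

theorem hc_aux (q : Fm) : q = one ∨ ∃ y, P q y = 5 ∧ ht y < ht q := by
  obtain ⟨r, h1, h2, f, h3, h4, h5⟩ := exists_nbr q
  by_cases k1 : r.b < 0
  · exact Or.inr ⟨f n1, by rw [h3, P_one_n1], by rw [ht_lt, h4, P_n1]; omega⟩
  by_cases k2 : 2 * r.a < r.b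
  · exact Or.inr ⟨f n2, by rw [h3, P_one_n2], by rw [ht_lt, h4, P_n2]; omega⟩
  by_cases k3 : 2 * r.c < r.b
  · exact Or.inr ⟨f n3, by rw [h3, P_one_n3], by rw [ht_lt, h4, P_n3]; omega⟩
  exact Or.inl (h1 (reduced (not_lt.1 k1) (not_lt.1 k2) (not_lt.1 k3)))

/-- The stabilizers are finite. -/
theorem order_one {g : SpecialLinearGroup (Fin 2) ℤ} (h : g • one = one) :
    ∃ n : ℕ, 0 < n ∧ g ^ n = 1 := by
  have bd : ∀ g ∈ MulAction.stabilizer (SpecialLinearGroup (Fin 2) ℤ) one, ∀ i j,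
      g i j ∈ Set.Icc (-1 : ℤ) 1 := by
    intro g hg
    rw [MulAction.mem_stabilizer_iff] at hg
    have h1 := congrArg Fm.a hg
    have h2 := congrArg Fm.c hg
    rw [smul_a] at h1
    rw [smul_c] at h2
    change 1 * g 0 0 ^ 2 + 1 * (g 0 0 * g 0 1) + 1 * g 0 1 ^ 2 = (1 : ℤ) at h1
    change 1 * g 1 0 ^ 2 + 1 * (g 1 0 * g 1 1) + 1 * g 1 1 ^ 2 = (1 : ℤ) at h2
    have key : ∀ x y : ℤ, 1 * x ^ 2 + 1 * (x * y) + 1 * y ^ 2 = 1 →
        x ∈ Set.Icc (-1 : ℤ) 1 ∧ y ∈ Set.Icc (-1 : ℤ) 1 := by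
      intro x y h
      refine ⟨⟨?_, ?_⟩, ?_, ?_⟩ <;> by_contra hc <;>
        nlinarith [sq_nonneg (2 * x + y), sq_nonneg (2 * y + x)]
    intro i j
    fin_cases i <;> fin_cases j
    · exact (key _ _ h1).1
    · exact (key _ _ h1).2
    · exact (key _ _ h2).1
    · exact (key _ _ h2).2
  have : Finite (MulAction.stabilizer (SpecialLinearGroup (Fin 2) ℤ) one) := by
    refine Finite.of_injective (β := Fin 2 → Fin 2 → Set.Icc (-1 : ℤ) 1)
      (fun g i j => ⟨g.1 i j, bd g.1 g.2 i j⟩) fun g g' hg => ?_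
    refine Subtype.ext ((Matrix.SpecialLinearGroup.ext_iff _ _).2 fun i j => ?_)
    exact congrArg Subtype.val (congrFun (congrFun hg i) j)
  obtain ⟨n, hn, h1⟩ := isOfFinOrder_iff_pow_eq_one.1
    (isOfFinOrder_of_finite (⟨g, h⟩ : MulAction.stabilizer (SpecialLinearGroup (Fin 2) ℤ) one))
  exact ⟨n, hn, congrArg Subtype.val h1⟩

theorem order_fix {g : SpecialLinearGroup (Fin 2) ℤ} {q : Fm} (h : g • q = q) :
    ∃ n : ℕ, 0 < n ∧ g ^ n = 1 := by
  obtain ⟨k, rfl⟩ := exists_smul_one q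
  obtain ⟨n, hn, h1⟩ := order_one (g := k⁻¹ * g * k) (by
    rw [mul_smul, mul_smul, h, inv_smul_smul])
  refine ⟨n, hn, ?_⟩
  have h2 : (k⁻¹ * g * k⁻¹⁻¹) ^ n = 1 := by rwa [inv_inv]
  rw [conj_pow] at h2
  have h3 : g ^ n = k * (k⁻¹ * g ^ n * k⁻¹⁻¹) * k⁻¹ := by group
  rw [h3, h2]
  group

end Fm

open Pool.Agent.NegK.TW Pool.Agent.NegK.TT

/-- The graph. -/
def grf : SimpleGraph (ULift.{u} Fm) where
  Adj q q' := Fm.P q.down q'.down = 5
  symm := ⟨fun q q' h => by rw [Fm.P_comm]; exact h⟩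
  loopless := ⟨fun q h => by
    rw [Fm.P_self] at h
    norm_num at h⟩

theorem grf_isTree : grf.{u}.IsTree :=
  isTree_of_ht grf ⟨Fm.one⟩ (fun q => Fm.ht q.down) (fun _ _ h => Fm.ha_aux h)
    (fun _ _ _ h h' k k' => ULift.ext _ _ (Fm.hb_aux h h' k k')) fun q => by
      rcases Fm.hc_aux q.down with h | ⟨y, h, h'⟩
      · exact Or.inl (ULift.ext _ _ h)
      · exact Or.inr ⟨⟨y⟩, h, h'⟩

/-- Torsionfree groups with an embedding in `SL₂(ℤ)` are regular coherent. -/
theorem inRC_sl2z (H : Type u) [Group H] (htf : TorsionFree H)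
    (φ : H →* SpecialLinearGroup (Fin 2) ℤ) (hφ : Function.Injective φ) : InRC H := by
  let i : MulAction H (ULift.{u} Fm) :=
    { smul := fun h q => ⟨φ h • q.down⟩
      one_smul := fun q => ULift.ext _ _ (by
        show φ 1 • q.down = q.down
        rw [map_one, one_smul])
      mul_smul := fun h h' q => ULift.ext _ _ (by
        show φ (h * h') • q.down = φ h • φ h' • q.down
        rw [map_mul, mul_smul]) }
  have hfix : ∀ (h : H) (q : ULift.{u} Fm), h • q = q → h = 1 := by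
    intro h q hq
    obtain ⟨n, hn, h1⟩ := Fm.order_fix (g := φ h) (q := q.down) (congrArg ULift.down hq)
    refine htf h n hn (hφ ?_)
    rw [map_pow, h1, map_one]
  have htr : TreeAct H grf.{u} := by
    refine ⟨grf_isTree, fun h q q' hq => ?_, fun h q q' hq hc => ?_⟩
    · show Fm.P (φ h • q.down) (φ h • q'.down) = 5
      rw [Fm.P_smul]
      exact hq
    · have h1 : (h * h) • q = q := by rw [mul_smul, hc.1, hc.2]
      have h2 : h = 1 := htf h 2 two_pos (by rw [pow_two]; exact hfix _ q h1)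
      rw [h2, one_smul] at hc
      rw [hc.1] at hq
      exact grf.loopless.irrefl _ hq
  exact H66.wald H _ grf htr
    (fun q => inRC_of_inN (inN_of_subsingleton _ fun g => Subtype.ext (hfix g.1 q g.2)))
    fun q q' _ => inN_of_subsingleton _ fun g => Subtype.ext (hfix g.1 q g.2.1)

end Pool.Agent.NegK.NT5
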