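import Pool.Agent.Lib.MP_28303a_al.NT.H1.Gl2

/-! # Trees for homomorphisms to `GL₂(A)`, `A` a commutative ring of positive characteristic -/

set_option autoImplicit false
set_option linter.unusedSectionVars false
set_option linter.unusedVariables false

namespace Pool.Agent.NegK.NT5

universe u

open Pool.Agent.NegK.TW
open Pool.Agent.NegK.NT
open Matrix (GeneralLinearGroup)

/-- A finitely generated group with a homomorphism `φ` to `GL₂(A)`, `A` a commutative ring of
positive characteristic, acts on finitely many trees such that the image under `φ` of an element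
which fixes a vertex in every tree has a finite order. -/
theorem gl2_trees' (A : Type u) [CommRing A] (N : ℕ) (hN : 0 < N) (hA : (N : A) = 0)
    (Γ : Type u) [Group Γ] [hfg : Group.FG Γ]
    (φ : Γ →* GeneralLinearGroup (Fin 2) A) :
    ∃ (ι : Type) (_ : Finite ι) (T : ι → H1.TD Γ), ∀ g, (∀ i, (T i).Ell g) →
      ∃ n, 0 < n ∧ φ g ^ n = 1 := by
  classical
  obtain ⟨S, hS⟩ := hfg.out
  let E : Finset A := S.biUnion fun s => Finset.univ.image (fun x : Fin 2 × Fin 2 =>
    (φ s).1 x.1 x.2) ∪ Finset.univ.image (fun x : Fin 2 × Fin 2 => (φ s⁻¹).1 x.1 x.2)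
  let B : Subalgebra ℤ A := Algebra.adjoin ℤ (E : Set A)
  have hB : Algebra.FiniteType ℤ B := (Subalgebra.fg_iff_finiteType B).1 ⟨E, rfl⟩
  have hmul : ∀ g h : Γ, (∀ i j, (φ g).1 i j ∈ B) → (∀ i j, (φ h).1 i j ∈ B) →
      ∀ i j, (φ (g * h)).1 i j ∈ B := by
    intro g h hg hh i j
    rw [map_mul, Units.val_mul, Matrix.mul_apply]
    exact Subalgebra.sum_mem _ fun k _ => Subalgebra.mul_mem _ (hg _ _) (hh _ _)
  have hE : ∀ g : Γ, (∀ i j, (φ g).1 i j ∈ B) ∧ ∀ i j, (φ g⁻¹).1 i j ∈ B := by
    intro g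
    have hg : g ∈ Subgroup.closure (S : Set Γ) := by rw [hS]; trivial
    induction hg using Subgroup.closure_induction with
    | mem s hs =>
      refine ⟨fun i j => Algebra.subset_adjoin ?_, fun i j => Algebra.subset_adjoin ?_⟩
      · simp only [E, Finset.coe_biUnion, Set.mem_iUnion]
        refine ⟨s, hs, ?_⟩
        rw [Finset.mem_coe, Finset.mem_union]
        exact Or.inl (Finset.mem_image.2 ⟨(i, j), Finset.mem_univ _, rfl⟩)
      · simp only [E, Finset.coe_biUnion, Set.mem_iUnion]
        refine ⟨s, hs, ?_⟩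
        rw [Finset.mem_coe, Finset.mem_union]
        exact Or.inr (Finset.mem_image.2 ⟨(i, j), Finset.mem_univ _, rfl⟩)
    | one =>
      have h1 : ∀ i j, (φ (1 : Γ)).1 i j ∈ B := by
        intro i j
        rw [map_one, Units.val_one, Matrix.one_apply]
        split_ifs
        · exact Subalgebra.one_mem _
        · exact Subalgebra.zero_mem _
      exact ⟨h1, by rw [inv_one]; exact h1⟩
    | mul g h _ _ ih1 ih2 =>
      exact ⟨hmul g h ih1.1 ih2.1, by rw [_root_.mul_inv_rev]; exact hmul _ _ ih2.2 ih1.2⟩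
    | inv g _ ih => exact ⟨ih.2, by rw [inv_inv]; exact ih.1⟩
  let χ : Γ →* Matrix (Fin 2) (Fin 2) B :=
    { toFun := fun g => Matrix.of fun i j => ⟨(φ g).1 i j, (hE g).1 i j⟩
      map_one' := by
        ext i j
        change (φ 1).1 i j = (((1 : Matrix (Fin 2) (Fin 2) B) i j : B) : A)
        rw [map_one, Units.val_one, Matrix.one_apply, Matrix.one_apply]
        split_ifs <;> rfl
      map_mul' := fun g h => by
        ext i j
        rw [Matrix.mul_apply]
        change (φ (g * h)).1 i j = ((∑ k, _ : B) : A)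
        rw [map_mul, Units.val_mul, Matrix.mul_apply, AddSubmonoidClass.coe_finsetSum]
        rfl }
  obtain ⟨ι, hι, T, hT⟩ := H1.ring_case B N hN (Subtype.ext (by simpa using hA)) Γ χ.toHomUnits
  refine ⟨ι, hι, T, fun g hg => ?_⟩
  obtain ⟨n, hn, hn'⟩ := hT g hg
  refine ⟨n, hn, ?_⟩
  refine Matrix.GeneralLinearGroup.ext fun i j => ?_
  rw [← map_pow] at hn' ⊢
  have h1 := congrArg (fun z : GeneralLinearGroup (Fin 2) B => ((z.1 i j : B) : A)) hn'
  have h2 : (φ (g ^ n)).1 i j = (((1 : Matrix (Fin 2) (Fin 2) B) i j : B) : A) := h1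
  rw [h2]
  change _ = (1 : Matrix (Fin 2) (Fin 2) A) i j
  rw [Matrix.one_apply, Matrix.one_apply]
  split_ifs <;> rfl

end Pool.Agent.NegK.NT5
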